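import Pool.Agent.Lib.MP_4d246d_lc.QM.RunM

/-!
# The number of macro steps
-/

namespace Pool.Agent.Simplex.QP

open Pool.Agent.Lib.PolyTime

theorem c_valOf (D : Sta) (x : Pnt) :
    (sysOf D).c (valOf D x) = (((objZ D x).1 : ℤ) : ℝ) / ((dn x.2 : ℤ) : ℝ) :=
  rdot_valOf D D.2.2 x

theorem objZ_snd (D : Sta) (x : Pnt) : (objZ D x).2 = x.2 := rfl

/-- The objective values of the points which occur have polynomially many bits. -/
theorem magnitude : ∃ Q : Polynomial ℕ, ∀ (D : Sta) (p x : Pnt), PtOk (orc D) p x →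
    |(((objZ D x).1 : ℤ) : ℝ)| ≤ 2 ^ (Q.eval (sz (D, p))) ∧
      ((dn x.2 : ℤ) : ℝ) ≤ 2 ^ (Q.eval (sz (D, p))) := by
  obtain ⟨Q1, h1⟩ := sz_ptOk
  obtain ⟨Q2, h2⟩ := (PolyF.objZ (β := Sta × Pnt) PolyF.fst' PolyF.snd').fst.bound
  obtain ⟨Q3, h3⟩ := (PolyF.dn (β := Sta × Pnt) PolyF.snd'.snd).bound
  refine ⟨(Q2 + Q3).comp (1 + Polynomial.X + Q1), fun D p x hx => ?_⟩
  have a1 := h1 D p x hx
  have a2 := h2 (D, x)
  have a3 := h3 (D, x)
  have a4 : sz (D, x) ≤ 1 + sz (D, p) + Q1.eval (sz (D, p)) := by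
    rw [sz_prod]
    have : sz D ≤ sz (D, p) := by simp only [sz_prod]; omega
    show 1 + sz D + sz x ≤ _
    omega
  have key : ∀ (z : ℤ) (n : ℕ), sz z ≤ n → |(z : ℝ)| ≤ 2 ^ n := by
    intro z n hz
    have h4 := natAbs_lt_two_pow_sz z
    have h5 : (z.natAbs : ℝ) ≤ 2 ^ n := by
      have : z.natAbs ≤ 2 ^ n := h4.le.trans (Nat.pow_le_pow_right (by omega) hz)
      exact_mod_cast this
    rwa [Nat.cast_natAbs, Int.cast_abs] at h5
  simp only [Polynomial.eval_comp, Polynomial.eval_add, Polynomial.eval_one, Polynomial.eval_X]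
  constructor
  · refine key _ _ (a2.trans ((peval_mono Q2 a4).trans ?_))
    exact Nat.le_add_right _ _
  · refine (le_abs_self _).trans (key _ _ (a3.trans ((peval_mono Q3 a4).trans ?_)))
    exact Nat.le_add_left _ _

/-- bounds for the difference of two fractions -/
theorem frac_gap {a b a' b' : ℤ} {β : ℕ} (hb : 0 < b) (hb' : 0 < b') (h1 : |(a : ℝ)| ≤ 2 ^ β)
    (h2 : (b : ℝ) ≤ 2 ^ β) (h3 : |(a' : ℝ)| ≤ 2 ^ β) (h4 : (b' : ℝ) ≤ 2 ^ β) :
    (a : ℝ) / b - (a' : ℝ) / b' ≤ 2 ^ (β + 1) ∧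
      ((a' : ℝ) / b' < (a : ℝ) / b → 1 ≤ 2 ^ (2 * β) * ((a : ℝ) / b - (a' : ℝ) / b')) := by
  have hbR : (0 : ℝ) < b := by exact_mod_cast hb
  have hbR' : (0 : ℝ) < b' := by exact_mod_cast hb'
  have hb1 : (1 : ℝ) ≤ b := by exact_mod_cast hb
  have hb1' : (1 : ℝ) ≤ b' := by exact_mod_cast hb'
  constructor
  · have e1 : (a : ℝ) / b ≤ 2 ^ β := by
      rw [div_le_iff₀ hbR]
      have := le_abs_self (a : ℝ)
      have h5 : (0 : ℝ) ≤ 2 ^ β := by positivity
      nlinarith
    have e2 : -((2 : ℝ) ^ β) ≤ (a' : ℝ) / b' := by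
      rw [le_div_iff₀ hbR']
      have := neg_abs_le (a' : ℝ)
      have h5 : (0 : ℝ) ≤ 2 ^ β := by positivity
      nlinarith
    rw [pow_succ]
    linarith
  · intro hlt
    have e1 : (a : ℝ) / b - (a' : ℝ) / b' = ((a * b' - a' * b : ℤ) : ℝ) / (b * b') := by
      rw [div_sub_div _ _ hbR.ne' hbR'.ne']
      push_cast
      ring
    have e2 : 0 < ((a * b' - a' * b : ℤ) : ℝ) / (b * b') := by
      rw [← e1]; linarith
    have e3 : (0 : ℝ) < b * b' := mul_pos hbR hbR'
    have e4 : (1 : ℝ) ≤ ((a * b' - a' * b : ℤ) : ℝ) := by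
      have h5 : 0 < ((a * b' - a' * b : ℤ) : ℝ) := by
        have := mul_pos e2 e3
        rwa [div_mul_cancel₀ _ e3.ne'] at this
      have h6 : 0 < a * b' - a' * b := by exact_mod_cast h5
      exact_mod_cast h6
    rw [e1, ← mul_div_assoc, le_div_iff₀ e3]
    have e5 : (b : ℝ) * b' ≤ 2 ^ (2 * β) := by
      have : (2 : ℝ) ^ (2 * β) = 2 ^ β * 2 ^ β := by rw [two_mul, pow_add]
      rw [this]
      exact mul_le_mul h2 h4 hbR'.le (by positivity)
    have e6 : (0 : ℝ) ≤ 2 ^ (2 * β) := by positivity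
    nlinarith

/-- The number of pivots of the rule with macro steps. -/
theorem run_macro : ∃ Q : Polynomial ℕ, ∀ (D : Sta) (p : Pnt) (d k : ℕ),
    (∀ x : Pnt, PtOk (orc D) p x → VertZ D x → topZ D x = false →
      Module.finrank ℝ ((sysOf D).V (faceJ D x (dirY D x))) ≤ d ∧
        (frameOf D (faceJ D x (dirY D x))).I.length ≤ k) →
    ∀ x : Pnt, VertZ D x → PtOk (orc D) p x →
      ∃ N ≤ Q.eval (sz (D, p)) * hb d k, RunF D (nextM D) (startZ D x) N := by
  obtain ⟨Q0, hQ0⟩ := magnitude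
  refine ⟨Polynomial.X * (3 * Q0 + 2) + 1, fun D p d k hd x hx hp => ?_⟩
  set β := Q0.eval (sz (D, p)) with hβ
  have hM : D.2.1.length ≤ sz (D, p) := by
    have h1 := length_le_sz D.2.1
    have h2 : sz D.2.1 ≤ sz (D, p) := by
      obtain ⟨n, l, c⟩ := D
      simp only [sz_prod]
      omega
    exact h1.trans h2
  have hQ : (Polynomial.X * (3 * Q0 + 2) + 1 : Polynomial ℕ).eval (sz (D, p)) =
      sz (D, p) * (3 * β + 2) + 1 := by
    simp only [Polynomial.eval_add, Polynomial.eval_mul, Polynomial.eval_X, Polynomial.eval_one,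
      Polynomial.eval_ofNat]
    rw [hβ]
  rw [hQ]
  cases ht : topZ D x with
  | true => exact ⟨0, Nat.zero_le _, fin_opt hx ((topZ_iff hx.mem).1 ht)⟩
  | false =>
    by_cases hno : ∀ w, lpZ D [] (List.range D.2.1.length) ≠ .opt w
    · obtain ⟨N, hN, h⟩ := run_unb hno hx hp (hd x hp hx ht).1 (hd x hp hx ht).2
      refine ⟨N, hN.trans ?_, h⟩
      rw [add_mul, one_mul]
      exact Nat.le_add_left _ _
    · push Not at hno
      obtain ⟨w, hw⟩ := hno
      rcases Nat.eq_zero_or_pos D.2.1.length with hM0 | hM0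
      · refine ⟨0, Nat.zero_le _, fin_opt hx fun z _ => ?_⟩
        have h1 := pointed_of_vx hx.vx (z - valOf D x) (fun i hi => by omega)
        rw [sub_eq_zero] at h1
        rw [h1]
      · have hpw : PtOk (orc D) p w := Or.inr ⟨[], Nat.zero_le _, fun j hj => by simp at hj, hw⟩
        have hfg : ∀ y : Pnt, PtOk (orc D) p y →
            (sysOf D).c (valOf D w) - (sysOf D).c (valOf D y) ≤ 2 ^ (β + 1) ∧
            ((sysOf D).c (valOf D y) < (sysOf D).c (valOf D w) →
              1 ≤ 2 ^ (2 * β) * ((sysOf D).c (valOf D w) - (sysOf D).c (valOf D y))) := by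
          intro y hy
          obtain ⟨a1, a2⟩ := hQ0 D p w hpw
          obtain ⟨a3, a4⟩ := hQ0 D p y hy
          rw [c_valOf, c_valOf]
          exact frac_gap (dn_pos _) (dn_pos _) a1 a2 a3 a4
        have hMR : (1 : ℝ) ≤ D.2.1.length := by exact_mod_cast hM0
        -- the number of macro steps
        have hcount : (2 : ℝ) ^ (2 * β) * ((sysOf D).c (valOf D w) - (sysOf D).c (valOf D x)) *
            ((D.2.1.length : ℝ) - 1) ^ (D.2.1.length * (3 * β + 2)) <
            (D.2.1.length : ℝ) ^ (D.2.1.length * (3 * β + 2)) := by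
          have hb1 := bern D.2.1.length hM0
          have hb2 : (2 : ℝ) * ((D.2.1.length : ℝ) - 1) ^ D.2.1.length ≤
              (D.2.1.length : ℝ) ^ D.2.1.length := by
            have h5 : ((2 * (D.2.1.length - 1) ^ D.2.1.length : ℕ) : ℝ) ≤
              ((D.2.1.length ^ D.2.1.length : ℕ) : ℝ) := by exact_mod_cast hb1
            push_cast at h5
            rw [Nat.cast_sub hM0] at h5
            simpa using h5
          have hb3 : (2 : ℝ) ^ (3 * β + 2) *
              ((D.2.1.length : ℝ) - 1) ^ (D.2.1.length * (3 * β + 2)) ≤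
              (D.2.1.length : ℝ) ^ (D.2.1.length * (3 * β + 2)) := by
            rw [pow_mul, pow_mul, ← mul_pow]
            exact pow_le_pow_left₀ (mul_nonneg (by norm_num)
              (pow_nonneg (by linarith) _)) hb2 _
          have hpos : (0 : ℝ) < (D.2.1.length : ℝ) ^ (D.2.1.length * (3 * β + 2)) :=
            pow_pos (by linarith) _
          have hnn : (0 : ℝ) ≤ ((D.2.1.length : ℝ) - 1) ^ (D.2.1.length * (3 * β + 2)) :=
            pow_nonneg (by linarith) _
          have hg := (hfg x hp).1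
          have hle : (2 : ℝ) ^ (2 * β) * ((sysOf D).c (valOf D w) - (sysOf D).c (valOf D x)) ≤
              2 ^ (3 * β + 1) := by
            have : (2 : ℝ) ^ (3 * β + 1) = 2 ^ (2 * β) * 2 ^ (β + 1) := by
              rw [← pow_add]; congr 1; ring
            rw [this]
            exact mul_le_mul_of_nonneg_left hg (by positivity)
          rcases hnn.lt_or_eq with h0 | h0
          · calc _ ≤ (2 : ℝ) ^ (3 * β + 1) *
                  ((D.2.1.length : ℝ) - 1) ^ (D.2.1.length * (3 * β + 2)) :=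
                mul_le_mul_of_nonneg_right hle hnn
              _ < (2 : ℝ) ^ (3 * β + 2) *
                  ((D.2.1.length : ℝ) - 1) ^ (D.2.1.length * (3 * β + 2)) := by
                refine mul_lt_mul_of_pos_right ?_ h0
                exact pow_lt_pow_right₀ (by norm_num) (by omega)
              _ ≤ _ := hb3
          · rw [← h0, mul_zero]; exact hpos
        obtain ⟨N, hN, h⟩ := run_gap (p := p) hw (B := 2 ^ (2 * β)) (by positivity)
          (fun y hy _ hlt => (hfg y hy).2 hlt) hd hM0 (D.2.1.length * (3 * β + 2)) x hx hp hcount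
        refine ⟨N, hN.trans (Nat.mul_le_mul_right _ ?_), h⟩
        have : D.2.1.length * (3 * β + 2) ≤ sz (D, p) * (3 * β + 2) := Nat.mul_le_mul_right _ hM
        omega

end Pool.Agent.Simplex.QP
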