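import Pool.Agent.Lib.MP_4d246d_lc.QM.Loose
import Pool.Agent.Lib.MP_4d246d_lc.QM.Gap

/-!
# The dimension of the faces of the macro steps
-/

namespace Pool.Agent.Simplex.QP

open Pool.Agent.Lib.PolyTime

variable (I : Input)

theorem row_dat {i : ℕ} (hi : i < I.m) : ∃ d : ℝ, 0 < d ∧
    (∀ x : Fin I.n → ℝ, (sysI I).sl i x = d * ((I.lp.b ⟨i, hi⟩ : ℝ) - I.lp.row ⟨i, hi⟩ x)) ∧
    ∀ y : Fin I.n → ℝ, rdot I.n (rowOf (dat I) i).1 y = d * I.lp.row ⟨i, hi⟩ y := by
  obtain ⟨d, hd, h⟩ := sl_lt I hi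
  refine ⟨d, hd, h, fun y => ?_⟩
  have h1 : (sysI I).sl i y = ((rowOf (dat I) i).2 : ℝ) - rdot I.n (rowOf (dat I) i).1 y := rfl
  have h2 : (sysI I).sl i (0 : Fin I.n → ℝ) =
      ((rowOf (dat I) i).2 : ℝ) - rdot I.n (rowOf (dat I) i).1 (0 : Fin I.n → ℝ) := rfl
  rw [rdot_zero, sub_zero] at h2
  have h3 := h y
  have h4 := h 0
  have h5 : ∑ j, (I.lp.A ⟨i, hi⟩ j : ℝ) * (0 : Fin I.n → ℝ) j = 0 := by simp
  rw [h5] at h4
  have h6 : ∑ j, (I.lp.A ⟨i, hi⟩ j : ℝ) * y j = I.lp.row ⟨i, hi⟩ y := rfl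
  rw [h6] at h3
  linarith

theorem row_sign {j : ℕ} (hj : j < I.n) (y : Fin I.n → ℝ) :
    rdot I.n (rowOf (dat I) (I.m + j)).1 y = -y ⟨j, hj⟩ := by
  have h1 : (sysI I).sl (I.m + j) y =
    ((rowOf (dat I) (I.m + j)).2 : ℝ) - rdot I.n (rowOf (dat I) (I.m + j)).1 y := rfl
  rw [sl_ge I hj, row_ge I hj] at h1
  rw [row_ge I hj]
  simp only [Int.cast_zero, zero_sub] at h1
  linarith

theorem vertex_of_vertZ {x : Pnt} (hx : VertZ (dat I) x) : I.lp.Vertex (valI I x) := by
  have h := Sys.extreme_of_vx (S := sysI I) hx.mem hx.vx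
  have hfe : (sysI I).Q [] (List.range (orc (dat I)).M) = I.lp.feasible := feasible_eq I
  rw [hfe] at h
  exact h

/-- The faces of the macro steps are controlled by the circuit width. -/
theorem faceJ_width {d k : ℕ} (h : I.lp.Width d k) {x : Pnt} (hx : VertZ (dat I) x)
    (ht : topZ (dat I) x = false) :
    Module.finrank ℝ ((sysI I).V (faceJ (dat I) x (dirY (dat I) x))) ≤ d ∧
      (frameOf (dat I) (faceJ (dat I) x (dirY (dat I) x))).I.length ≤ k := by
  classical
  obtain ⟨h1, h2, h3⟩ := adv_dirY hx.mem hx.vx ht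
  obtain ⟨dc, hdc, hobj⟩ := obj_eq I
  set y : Fin I.n → ℝ := valOf (dat I) (dirY (dat I) x) with hy
  have hlen := dat_len I
  have hdir : I.lp.Direction (valI I x) y := by
    refine ⟨fun i hi => ?_, fun j hj => ?_⟩
    · obtain ⟨e, he, ha, hb⟩ := row_dat I i.2
      have h4 : (sysI I).sl i (valI I x) = 0 := by
        rw [ha]
        show e * ((I.lp.b i : ℝ) - I.lp.row i (valI I x)) = 0
        rw [hi]; ring
      have h5 : rdot I.n (rowOf (dat I) i).1 y ≤ 0 := h1 i (by omega) h4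
      rw [hb] at h5
      by_contra hcon
      push Not at hcon
      have := mul_pos he hcon
      exact absurd h5 (not_le.2 this)
    · have h4 : (sysI I).sl (I.m + j) (valI I x) = 0 := by
        rw [sl_ge I j.2]; exact hj
      have h5 : rdot I.n (rowOf (dat I) (I.m + j)).1 y ≤ 0 := h1 (I.m + j) (by omega) h4
      rw [row_sign I j.2] at h5
      have h6 : y ⟨j, j.2⟩ = y j := rfl
      rw [h6] at h5
      linarith
  have hpos : 0 < I.lp.obj y := by
    have h4 : 0 < (sysI I).c y := h2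
    rw [hobj] at h4
    exact (mul_pos_iff_of_pos_left hdc).1 h4
  have hel : I.lp.Elementary y := by
    intro q hq1 hq2
    refine h3 q fun i hi h0 => ?_
    have h0' : rdot I.n (rowOf (dat I) i).1 y = 0 := h0
    show rdot I.n (rowOf (dat I) i).1 q = 0
    by_cases him : i < I.m
    · obtain ⟨e, he, ha, hb⟩ := row_dat I him
      rw [hb] at h0' ⊢
      rw [hq1 ⟨i, him⟩ ((mul_eq_zero.1 h0').resolve_left he.ne'), mul_zero]
    · obtain ⟨j, rfl⟩ := Nat.exists_eq_add_of_le (not_lt.1 him)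
      have hj : j < I.n := by omega
      rw [row_sign I hj] at h0' ⊢
      rw [hq2 ⟨j, hj⟩ (neg_eq_zero.1 h0'), neg_zero]
  have hV : ∀ q ∈ (sysI I).V (faceJ (dat I) x (dirY (dat I) x)),
      q ∈ I.lp.faceDirs (valI I x) y := by
    intro q hq
    have hq' : ∀ i, i < (dat I).2.1.length → (sysI I).sl i (valI I x) = 0 →
        rdot I.n (rowOf (dat I) i).1 y = 0 → rdot I.n (rowOf (dat I) i).1 q = 0 := by
      intro i hi ha hb
      have h4 : (sysI I).ln i q = 0 := hq i (mem_faceJ.2 ⟨hi, ha, hb⟩)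
      have h5 : (sysI I).ln i q = - rdot I.n (rowOf (dat I) i).1 q := rfl
      rw [h5] at h4
      linarith
    refine ⟨fun i hi hyi => ?_, fun j hj hyj => ?_⟩
    · obtain ⟨e, he, ha, hb⟩ := row_dat I i.2
      have h4 := hq' i (by omega) (by
        rw [ha]
        show e * ((I.lp.b i : ℝ) - I.lp.row i (valI I x)) = 0
        rw [hi]; ring) (by
        rw [hb]
        show e * I.lp.row i y = 0
        rw [hyi, mul_zero])
      rw [hb] at h4
      exact (mul_eq_zero.1 h4).resolve_left he.ne'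
    · have h4 := hq' (I.m + j) (by omega) (by rw [sl_ge I j.2]; exact hj) (by
        rw [row_sign I j.2]
        show -y j = 0
        rw [hyj, neg_zero])
      rw [row_sign I j.2] at h4
      exact neg_eq_zero.1 h4
  obtain ⟨hw1, hw2⟩ := h _ _ (vertex_of_vertZ I hx) hdir hpos hel
  refine ⟨le_trans (Submodule.finrank_mono hV) hw1, le_trans ?_ hw2⟩
  -- the constraints which are not constant
  set J := faceJ (dat I) x (dirY (dat I) x) with hJ
  have hJM : ∀ j ∈ J, j < (orc (dat I)).M := fun j hj => (mem_faceJ.1 hj).1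
  have hnd : (frameOf (dat I) J).I.Nodup := List.nodup_range.filter _
  have hdep : ∀ i ∈ (frameOf (dat I) J).I, i < I.m + I.n ∧
      ∃ q ∈ I.lp.faceDirs (valI I x) y, rdot I.n (rowOf (dat I) i).1 q ≠ 0 := by
    intro i hi
    have hi' : i ∈ (List.range (orc (dat I)).M).filter (fun j => !(orc (dat I)).dep J j) := hi
    rw [List.mem_filter, List.mem_range] at hi'
    obtain ⟨h4, h5⟩ := hi'
    refine ⟨by rw [← hlen]; exact h4, ?_⟩
    have h6 : ¬ (sysI I).Dep J i := fun hd => by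
      rw [((spec_I I).dep _ _ hJM h4).2 hd] at h5
      simp at h5
    unfold Sys.Dep at h6
    push Not at h6
    obtain ⟨q, hq1, hq2⟩ := h6
    refine ⟨q, hV q fun j hj => hq1 j hj, fun h7 => hq2 ?_⟩
    show - rdot I.n (rowOf (dat I) i).1 q = 0
    rw [h7, neg_zero]
  rw [← List.toFinset_card_of_nodup hnd]
  set SR : Set (Fin I.m) := {i | ∃ q ∈ I.lp.faceDirs (valI I x) y, I.lp.row i q ≠ 0} with hSR
  set SV : Set (Fin I.n) := {j | ∃ q ∈ I.lp.faceDirs (valI I x) y, q j ≠ 0} with hSV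
  have hsub : ((frameOf (dat I) J).I.toFinset : Set ℕ) ⊆
      (fun i : Fin I.m => (i : ℕ)) '' SR ∪ (fun j : Fin I.n => I.m + (j : ℕ)) '' SV := by
    intro i hi
    rw [Finset.mem_coe, List.mem_toFinset] at hi
    obtain ⟨h4, q, hq, h5⟩ := hdep i hi
    by_cases him : i < I.m
    · left
      refine ⟨⟨i, him⟩, ⟨q, hq, fun h6 => h5 ?_⟩, rfl⟩
      obtain ⟨e, he, ha, hb⟩ := row_dat I him
      rw [hb, h6, mul_zero]
    · right
      obtain ⟨j, rfl⟩ := Nat.exists_eq_add_of_le (not_lt.1 him)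
      have hj : j < I.n := by omega
      refine ⟨⟨j, hj⟩, ⟨q, hq, fun h6 => h5 ?_⟩, rfl⟩
      rw [row_sign I hj, h6, neg_zero]
  rw [← Set.ncard_coe_finset]
  refine (Set.ncard_le_ncard hsub (Set.toFinite _)).trans ((Set.ncard_union_le _ _).trans ?_)
  exact Nat.add_le_add (Set.ncard_image_le (Set.toFinite _)) (Set.ncard_image_le (Set.toFinite _))

end Pool.Agent.Simplex.QP
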