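import Pool.Agent.Lib.MP_4d246d_lc.QM.Machine

/-!
# The rule with macro steps is computable in polynomial time
-/

set_option linter.unusedSimpArgs false

namespace Pool.Agent.Lib.PolyTime

open Pool.Agent.Simplex.QP Function

section

variable {α β γ δ ε : Type*} [TEnc α] [TEnc β] [TEnc γ] [TEnc δ] [TEnc ε]

namespace PolyF

theorem slZ {D : β → Sta} {p : β → Pnt} {i : β → ℕ} (hD : PolyF D) (hp : PolyF p)
    (hi : PolyF i) : PolyF (fun b => slZ (D b) (p b) (i b)) :=
  ((PolyF.rowOf hD hi).snd.intMul (PolyF.dn hp.snd)).intSub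
    (PolyF.dotZ (PolyF.padZ hD.fst (PolyF.rowOf hD hi).fst) hp.fst)

theorem gapZ {D : β → Sta} {p w : β → Pnt} {i : β → ℕ} (hD : PolyF D) (hp : PolyF p)
    (hw : PolyF w) (hi : PolyF i) : PolyF (fun b => gapZ (D b) (p b) (w b) (i b)) :=
  ((PolyF.slZ hD hp hi).intMul (PolyF.dn hw.snd)).intSub
    ((PolyF.slZ hD hw hi).intMul (PolyF.dn hp.snd))

theorem gvec {D : β → Sta} {p : β → Pnt} (hD : PolyF D) (hp : PolyF p) :
    PolyF (fun b => gvec (D b) (p b)) := by
  have hr : PolyF (fun b => List.range (D b).2.1.length) := hD.snd.fst.length.range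
  have hc : PolyF (fun b => (List.range (D b).2.1.length).map (fun _ => (-1 : ℤ))) :=
    hr.map (h := fun _ _ => (-1 : ℤ)) (const _)
  refine lresCases (o := fun b => Pool.Agent.Simplex.QP.lpZ (D b) [] (List.range (D b).2.1.length))
    (g1 := fun b => (List.range (D b).2.1.length).map (fun _ => (-1 : ℤ)))
    (g2 := fun b => (List.range (D b).2.1.length).map (fun _ => (-1 : ℤ)))
    (h := fun q : β × Pnt => (List.range (D q.1).2.1.length).map
      (Pool.Agent.Simplex.QP.gapZ (D q.1) (p q.1) q.2))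
    (PolyF.lpZ hD nil hr) hc hc ?_ (fun b h => ?_) (fun b h => ?_) (fun b y h => ?_)
  · exact (hr.comp fst').map (h := fun (q : β × Pnt) i =>
      Pool.Agent.Simplex.QP.gapZ (D q.1) (p q.1) q.2 i)
      (PolyF.gapZ (hD.comp fst'.fst) (hp.comp fst'.fst) fst'.snd snd')
  · unfold Pool.Agent.Simplex.QP.gvec; rw [h]
  · unfold Pool.Agent.Simplex.QP.gvec; rw [h]
  · unfold Pool.Agent.Simplex.QP.gvec; rw [h]

theorem cmZ {g : β → List ℤ} (hg : PolyF g) : PolyF (fun b => cmZ (g b)) :=
  (hg.map (h := fun _ (a : ℤ) => if a = 0 then (1 : ℤ) else |a|)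
    (ite (snd'.intEq (const 0)) (const 1) snd'.intAbs)).intProd

theorem macD {D : β → Sta} {g : β → List ℤ} (hD : PolyF D) (hg : PolyF g) :
    PolyF (fun b => macD (D b) (g b)) := by
  have hr : PolyF (fun b => List.range (D b).2.1.length) := hD.snd.fst.length.range
  have hrow : PolyF (fun q : β × ℕ => (Pool.Agent.Simplex.QP.rowOf (D q.1) q.2).1) :=
    (PolyF.rowOf (hD.comp fst') snd').fst
  have hgi : PolyF (fun q : β × ℕ => (g q.1).getD q.2 0) :=
    (hg.comp fst').getDL snd' (const _)
  have h1 : PolyF (fun b => (List.range (D b).2.1.length).map (fun i =>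
      (if 0 < (g b).getD i 0 then Pool.Agent.Simplex.QP.negZ
        (Pool.Agent.Simplex.QP.rowOf (D b) i).1 else (Pool.Agent.Simplex.QP.rowOf (D b) i).1,
        (0 : ℤ)))) :=
    hr.map (h := fun b i => (if 0 < (g b).getD i 0 then Pool.Agent.Simplex.QP.negZ
        (Pool.Agent.Simplex.QP.rowOf (D b) i).1 else (Pool.Agent.Simplex.QP.rowOf (D b) i).1,
        (0 : ℤ))) ((ite ((const 0).intLt hgi) (PolyF.negZ hrow) hrow).pair (const 0))
  have h2 : PolyF (fun b => (List.range (D b).2.1.length).map (fun i =>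
      (if (g b).getD i 0 < 0 then (Pool.Agent.Simplex.QP.rowOf (D b) i).1 else
        Pool.Agent.Simplex.QP.negZ (Pool.Agent.Simplex.QP.rowOf (D b) i).1, (0 : ℤ)))) :=
    hr.map (h := fun b i => (if (g b).getD i 0 < 0 then
        (Pool.Agent.Simplex.QP.rowOf (D b) i).1 else Pool.Agent.Simplex.QP.negZ
        (Pool.Agent.Simplex.QP.rowOf (D b) i).1,
        (0 : ℤ))) ((ite (hgi.intLt (const 0)) hrow (PolyF.negZ hrow)).pair (const 0))
  have hcm := PolyF.cmZ hg
  have hw : PolyF (fun b => (g b).map (fun a => Pool.Agent.Simplex.QP.cmZ (g b) / a)) :=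
    hg.map (h := fun b a => Pool.Agent.Simplex.QP.cmZ (g b) / a)
      ((hcm.comp fst').intEdiv snd')
  have hcol : PolyF (fun q : β × ℕ => (D q.1).2.1.map (fun r => r.1.getD q.2 0)) :=
    (hD.snd.fst.comp fst').map (h := fun (q : β × ℕ) r => r.1.getD q.2 0)
      (snd'.fst.getDL fst'.snd (const _))
  have h3 : PolyF (fun b => (List.range (D b).1).map (fun j =>
      Pool.Agent.Simplex.QP.dotZ ((g b).map (fun a => Pool.Agent.Simplex.QP.cmZ (g b) / a))
      ((D b).2.1.map (fun r => r.1.getD j 0)))) :=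
    hD.fst.range.map (h := fun b j => Pool.Agent.Simplex.QP.dotZ
      ((g b).map (fun a => Pool.Agent.Simplex.QP.cmZ (g b) / a))
      ((D b).2.1.map (fun r => r.1.getD j 0))) (PolyF.dotZ (hw.comp fst') hcol)
  exact hD.fst.pair ((h1.append (h2.append (singleton (h3.pair hcm)))).pair hD.snd.snd)

/-- results of the oracle along the search for the target face -/
theorem keepO {D : β → Sta} {J : β → List ℕ} {i : β → ℕ} (hD : PolyF D) (hJ : PolyF J)
    (hi : PolyF i) : PolyF (fun b => keep (orc (D b)) Pool.Agent.Simplex.QP.vleZ (J b) (i b)) := by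
  have hr : PolyF (fun b => List.range (D b).2.1.length) := hD.snd.fst.length.range
  have hu : PolyF (fun b => Pool.Agent.Simplex.QP.lpZ (D b) [] (List.range (D b).2.1.length)) :=
    PolyF.lpZ hD nil hr
  have hv : PolyF (fun b => Pool.Agent.Simplex.QP.lpZ (D b) (i b :: J b)
      (List.range (D b).2.1.length)) := PolyF.lpZ hD (hi.cons hJ) hr
  refine (PolyF.sameTop pOrc_orc hD hu hv).congr fun b => ?_
  show Pool.Agent.Simplex.QP.sameTop (orc (D b)) Pool.Agent.Simplex.QP.vleZ
    ((orc (D b)).lp [] (List.range (orc (D b)).M))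
    ((orc (D b)).lp (i b :: J b) (List.range (orc (D b)).M)) = _
  unfold Pool.Agent.Simplex.QP.sameTop Pool.Agent.Simplex.QP.keep
  cases (orc (D b)).lp [] (List.range (orc (D b)).M) <;>
    cases (orc (D b)).lp (i b :: J b) (List.range (orc (D b)).M) <;> rfl

theorem targetJ {D : β → Sta} (hD : PolyF D) :
    PolyF (fun b => targetJ (orc (D b)) Pool.Agent.Simplex.QP.vleZ) := by
  have hr : PolyF (fun b => List.range (D b).2.1.length) := hD.snd.fst.length.range
  refine foldl_add (l := fun b => List.range (D b).2.1.length) (i := fun _ => ([] : List ℕ))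
    (f := fun b J i => Pool.Agent.Simplex.QP.addJ (orc (D b)) Pool.Agent.Simplex.QP.vleZ J i)
    hr (const _) ?_
    (fun b => sz (List.range (D b).2.1.length)) hr.pbd
    (fun b J i hi => ?_)
  · exact iteBool (PolyF.keepO (hD.comp fst') snd'.fst snd'.snd)
      (snd'.snd.cons snd'.fst) snd'.fst
  · have := sz_mem hi
    unfold Pool.Agent.Simplex.QP.addJ
    split_ifs
    · simp only [sz_cons]
      omega
    · omega

theorem dirY {D : β → Sta} {p : β → Pnt} (hD : PolyF D) (hp : PolyF p) :
    PolyF (fun b => dirY (D b) (p b)) := by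
  have hm : PolyF (fun b => Pool.Agent.Simplex.QP.macD (D b)
      (Pool.Agent.Simplex.QP.gvec (D b) (p b))) := PolyF.macD hD (PolyF.gvec hD hp)
  refine lresCases (o := fun b => Pool.Agent.Simplex.QP.lpZ (Pool.Agent.Simplex.QP.macD (D b)
      (Pool.Agent.Simplex.QP.gvec (D b) (p b)))
      (Pool.Agent.Simplex.QP.targetJ (orc (Pool.Agent.Simplex.QP.macD (D b)
      (Pool.Agent.Simplex.QP.gvec (D b) (p b)))) Pool.Agent.Simplex.QP.vleZ)
      (List.range (Pool.Agent.Simplex.QP.macD (D b)
      (Pool.Agent.Simplex.QP.gvec (D b) (p b))).2.1.length))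
    (g1 := fun _ => (([] : List ℤ), (1 : ℤ)))
    (g2 := fun _ => (([] : List ℤ), (1 : ℤ)))
    (h := fun q : β × Pnt => q.2)
    (PolyF.lpZ hm (PolyF.targetJ hm) hm.snd.fst.length.range) (const _) (const _) snd'
    (fun b h => ?_) (fun b h => ?_) (fun b y h => ?_)
  · unfold Pool.Agent.Simplex.QP.dirY; rw [h]
  · unfold Pool.Agent.Simplex.QP.dirY; rw [h]
  · unfold Pool.Agent.Simplex.QP.dirY; rw [h]

theorem faceJ {D : β → Sta} {p y : β → Pnt} (hD : PolyF D) (hp : PolyF p) (hy : PolyF y) :
    PolyF (fun b => faceJ (D b) (p b) (y b)) := by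
  have hr : PolyF (fun b => List.range (D b).2.1.length) := hD.snd.fst.length.range
  refine hr.filter (p := fun b i => Pool.Agent.Simplex.QP.ttZ (D b) (p b) i &&
    decide (Pool.Agent.Simplex.QP.dotZ (Pool.Agent.Simplex.QP.padZ (D b).1
      (Pool.Agent.Simplex.QP.rowOf (D b) i).1) (y b).1 = 0)) ?_
  exact (PolyF.ttZ (hD.comp fst') (hp.comp fst') snd').and
    ((PolyF.dotZ (PolyF.padZ (hD.comp fst').fst (PolyF.rowOf (hD.comp fst') snd').fst)
      (hy.comp fst').fst).intEq (const 0))

theorem frameOf {D : β → Sta} {J : β → List ℕ} (hD : PolyF D) (hJ : PolyF J) :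
    PolyF (fun b => frameOf (D b) (J b)) := by
  have hr : PolyF (fun b => List.range (D b).2.1.length) := hD.snd.fst.length.range
  refine hJ.pair ((hr.filter (p := fun b j => !Pool.Agent.Simplex.QP.depO (D b) (J b) j)
    ?_).pair (const []))
  exact (PolyF.depO (hD.comp fst') (hJ.comp fst') snd').not

theorem startZ {D : β → Sta} {p : β → Pnt} (hD : PolyF D) (hp : PolyF p) :
    PolyF (fun b => startZ (D b) (p b)) :=
  hp.pair ((singleton (PolyF.frameOf hD (PolyF.faceJ hD hp (PolyF.dirY hD hp)))).pair (const _))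

theorem topZ {D : β → Sta} {p : β → Pnt} (hD : PolyF D) (hp : PolyF p) :
    PolyF (fun b => topZ (D b) (p b)) := by
  have hr : PolyF (fun b => List.range (D b).2.1.length) := hD.snd.fst.length.range
  refine lresCases (o := fun b => Pool.Agent.Simplex.QP.lpZ (D b) [] (List.range (D b).2.1.length))
    (g1 := fun _ => false) (g2 := fun _ => false)
    (h := fun q : β × Pnt => Pool.Agent.Simplex.QP.vleZ
      (Pool.Agent.Simplex.QP.objZ (D q.1) q.2) (Pool.Agent.Simplex.QP.objZ (D q.1) (p q.1)))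
    (PolyF.lpZ hD nil hr) (const _) (const _) ?_ (fun b h => ?_) (fun b h => ?_)
    (fun b y h => ?_)
  · exact PolyF.vleZ (PolyF.objZ (hD.comp fst') snd') (PolyF.objZ (hD.comp fst') (hp.comp fst'))
  · unfold Pool.Agent.Simplex.QP.topZ; rw [h]
  · unfold Pool.Agent.Simplex.QP.topZ; rw [h]
  · unfold Pool.Agent.Simplex.QP.topZ; rw [h]

theorem nextM {D : β → Sta} {s : β → Pool.Agent.Simplex.QP.St Pnt} (hD : PolyF D)
    (hs : PolyF s) : PolyF (fun b => nextM (D b) (s b)) := by
  have hn := PolyF.nextZ hD hs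
  refine ite ?_ (PolyF.nextZ hD (PolyF.startZ hD hn.fst)) hn
  exact (hn.snd.snd.eq (const Status.optimal)).decide_and
    ((PolyF.topZ hD hn.fst).eq (const false))

theorem restart {D : β → Sta} {s : β → Pool.Agent.Simplex.QP.St Pnt} (hD : PolyF D)
    (hs : PolyF s) : PolyF (fun b => restart (D b) (s b)) :=
  ite (hs.snd.snd.eq (const Status.running)) (PolyF.initZ hD hs.fst) hs

/-! ### The limit -/

end PolyF

/-- binomial coefficients by successive multiplication and division -/
theorem foldl_choose (d : ℕ) (s : ℕ) : (List.range s).foldl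
    (fun (acc : ℤ) i => acc * ((d + (i + 1) : ℕ) : ℤ) / ((i + 1 : ℕ) : ℤ)) 1 =
      ((d + s).choose s : ℕ) := by
  induction s with
  | zero => simp
  | succ s ih =>
    rw [List.range_succ, List.foldl_append, ih]
    simp only [List.foldl_cons, List.foldl_nil]
    have h1 : (d + (s + 1)).choose (s + 1) * (s + 1) = (d + s).choose s * (d + (s + 1)) := by
      have h2 := Nat.add_one_mul_choose_eq (d + s) s
      have h3 : (d + s + 1) * (d + s).choose s = (d + s + 1).choose (s + 1) * (s + 1) := h2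
      rw [show d + (s + 1) = d + s + 1 by ring, ← h3]
      ring
    have h4 : (((d + s).choose s : ℕ) : ℤ) * ((d + (s + 1) : ℕ) : ℤ) =
        (((d + (s + 1)).choose (s + 1) : ℕ) : ℤ) * ((s + 1 : ℕ) : ℤ) := by
      exact_mod_cast h1.symm
    rw [h4]
    exact Int.mul_ediv_cancel _ (by positivity)

namespace PolyF

theorem chooseZ {d s : β → ℕ} (hd : PolyF d) (hs : PolyF s) :
    PolyF (fun b => (((d b + s b).choose (s b) : ℕ) : ℤ)) := by
  have key : PolyF (fun b => (List.range (s b)).foldl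
      (fun (acc : ℤ) i => acc * ((d b + (i + 1) : ℕ) : ℤ) / ((i + 1 : ℕ) : ℤ)) 1) := by
    refine foldl' (l := fun b => List.range (s b)) (i := fun _ => (1 : ℤ))
      (f := fun b (acc : ℤ) i => acc * ((d b + (i + 1) : ℕ) : ℤ) / ((i + 1 : ℕ) : ℤ))
      hs.range (const _) ?_ (fun b => 2 * (d b + s b + 1) + 2)
      (((PBd.const 2).mul ((hd.pbdNat.add hs.pbdNat).add (PBd.const 1))).add (PBd.const 2))
      (fun b k hk => ?_)
    · exact (snd'.fst.intMul ((hd.comp fst').natAdd snd'.snd.succ).intOfNat).intEdiv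
        snd'.snd.succ.intOfNat
    · rw [List.length_range] at hk
      rw [List.take_range, min_eq_left hk, foldl_choose]
      apply sz_int_le_of_abs_lt
      rw [abs_of_nonneg (by positivity)]
      have h1 : (d b + k).choose k ≤ 2 ^ (d b + k) := Nat.choose_le_two_pow _ _
      have h2 : 2 ^ (d b + k) < 2 ^ (d b + s b + 1) :=
        Nat.pow_lt_pow_right (by norm_num) (by omega)
      exact_mod_cast h1.trans_lt h2
  exact key.congr fun b => foldl_choose _ _

theorem pivotBoundZ {d k : β → ℕ} (hd : PolyF d) (hk : PolyF k) :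
    PolyF (fun b => ((Pool.Agent.Simplex.pivotBound (d b) (k b) : ℕ) : ℤ)) := by
  refine ((PolyF.natSize hk).intTwoPow.intMul (PolyF.chooseZ hd (PolyF.natSize hk))).congr
    fun b => ?_
  unfold Pool.Agent.Simplex.pivotBound
  push_cast
  rfl

theorem limZ {D : β → Sta} (hD : PolyF D) : PolyF (fun b => limZ (D b)) := by
  have hM : PolyF (fun b => (D b).2.1.length) := hD.snd.fst.length
  have hm : PolyF (fun b => (D b).2.1.length - (D b).1) := hM.natSub hD.fst
  have h1 : PolyF (fun b => min (D b).1 ((D b).2.1.length - (D b).1 + 1)) :=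
    hD.fst.natMin hm.succ
  have h2 : PolyF (fun b => min ((D b).2.1.length - (D b).1 + (D b).1)
      (2 * ((D b).2.1.length - (D b).1) + 1)) :=
    (hm.natAdd hD.fst).natMin (((const 2).natMul hm).succ)
  exact (PolyF.pivotBoundZ h1 h2).intAdd (const 1)

theorem nextB {s : β → Sb} (hs : PolyF s) : PolyF (fun b => nextB (s b)) := by
  have h1 : PolyF (fun b => (s b).2.1.1) := hs.snd.fst.fst
  have h2 : PolyF (fun b => (s b).2.1.2) := hs.snd.fst.snd
  refine hs.fst.pair (((ite (h1.intLe h2) (h1.intAdd (const 1)) h1).pair h2).pair ?_)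
  exact ite (h1.intLt h2) (PolyF.nextM hs.fst hs.snd.snd)
    (ite (h1.intEq h2) (PolyF.nextZ hs.fst (PolyF.restart hs.fst hs.snd.snd))
      (PolyF.nextZ hs.fst hs.snd.snd))

end PolyF

end

end Pool.Agent.Lib.PolyTime

namespace Pool.Agent.Simplex.QP

open Pool.Agent.Lib.PolyTime

theorem polyF_initB : PolyF initB := by
  have h1 : PolyF (fun I : Input => dat I) := PolyF.staOf polyF_data
  exact h1.pair (((PolyF.const 0).pair (PolyF.limZ h1)).pair
    (PolyF.startZ h1 (PolyF.pntOf polyF_data)))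

theorem polyF_nextB : PolyF nextB := PolyF.nextB PolyF.id

theorem polyF_verdB : PolyF (fun s : Sb => verd (nextB s).2.2.2.2) := by
  have h : PolyF (fun s : Sb => (nextB s).2.2.2.2) := polyF_nextB.snd.snd.snd.snd
  exact h.of_enc (fun x => x) (fun _ => rfl) fun s => enc_verd _

theorem polyF_reportB : PolyF reportB :=
  (PolyF.ratsOf PolyF.snd'.snd.fst).pair polyF_verdB

theorem polyF_haltB : PolyF haltB := (polyF_verdB.eqConst Verdict.pivot).decide_not

end Pool.Agent.Simplex.QP
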