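import Pool.Agent.Lib.MP_4d246d_lc.QM.RunB
import Pool.Agent.Lib.MP_4d246d_lc.QM.PolyQM

/-!
# The combined rule as a machine
-/

namespace Pool.Agent.Simplex.QP

open Pool.Agent.Lib.PolyTime Turing

/-- number of pivots of the combined rule -/
noncomputable def numPB (I : Input) : ℕ := (run_inputB.choose_spec I).choose

theorem numPB_spec (I : Input) : RunOKB I (numPB I) :=
  (run_inputB.choose_spec I).choose_spec.1

theorem numPB_le (I : Input) : numPB I ≤ 2 * bd I.m I.n + 1 :=
  (run_inputB.choose_spec I).choose_spec.2.1

theorem numPB_width : ∃ Q : Polynomial ℕ, ∀ (I : Input) (d k : ℕ),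
    (∀ x : Pnt, PtOk (orc (dat I)) (pntOf I.data) x → VertZ (dat I) x →
      topZ (dat I) x = false →
      Module.finrank ℝ ((sysI I).V (faceJ (dat I) x (dirY (dat I) x))) ≤ d ∧
        (frameOf (dat I) (faceJ (dat I) x (dirY (dat I) x))).I.length ≤ k) →
      numPB I ≤ Q.eval (sz I) * hb d k :=
  ⟨run_inputB.choose, fun I => (run_inputB.choose_spec I).choose_spec.2.2⟩

theorem haltB_iff (s : Sb) : haltB s = decide ((reportB s).2 ≠ .pivot) := rfl

theorem halt_ltB (I : Input) : ∀ j < numPB I, haltB (nextB^[j] (initB I)) = false := by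
  intro j hj
  rw [haltB_iff, ((numPB_spec I).pivot j hj).2]
  rfl

theorem halt_atB (I : Input) : haltB (nextB^[numPB I] (initB I)) = true := by
  rw [haltB_iff]
  rcases (numPB_spec I).stop with ⟨h, _⟩ | ⟨h, _⟩ <;>
  · rw [h]
    rfl

/-- the list of all reports of the combined rule -/
noncomputable def runOfB (I : Input) : List (List ℚ × Verdict) :=
  (List.range (numPB I + 1)).map fun t => reportB (nextB^[t] (initB I))

/-- the reports of the combined rule -/
theorem reportB_at (I : Input) : ∀ t ≤ numPB I, reportB (nextB^[t] (initB I)) =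
    reportAt (numPB I) (xb I) (reportB (nextB^[numPB I] (initB I))).2 t := by
  intro t ht
  refine Prod.ext ((numPB_spec I).rep t) ?_
  show _ = if t < numPB I then Verdict.pivot else _
  split_ifs with h
  · exact ((numPB_spec I).pivot t h).2
  · have : t = numPB I := by omega
    rw [this]

/-- the reports as a protocol -/
theorem runOfB_eq (I : Input) : runOfB I = protocol (numPB I) (xb I)
    (reportB (nextB^[numPB I] (initB I))).2 := by
  unfold runOfB protocol
  refine List.map_congr_left fun t ht => reportB_at I t ?_
  have := List.mem_range.1 ht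
  omega

theorem simplexRunB (I : Input) : SimplexRun I (numPB I) (xb I)
    (reportB (nextB^[numPB I] (initB I))).2 :=
  ⟨(numPB_spec I).start, fun t ht => ((numPB_spec I).pivot t ht).1, (numPB_spec I).stop⟩

/-- **The whole pivot sequence of the combined rule is computed in quasi-polynomial time.** -/
theorem machineB : ∃ (P : Polynomial ℕ) (M : TM2ComputableInTime
    (fun I : Input => wd false true I)
    (fun b : List (List ℚ × Verdict) => wd false true b) runOfB),
    ∀ L, M.time L ≤ P.eval L * (L + Nat.size L).choose (Nat.size L) := by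
  obtain ⟨Q, hQ⟩ := size_statesB
  obtain ⟨P, M, hM⟩ := emit_tm2_word polyF_initB polyF_nextB polyF_haltB polyF_reportB numPB
    halt_ltB halt_atB (fun _ => rfl) Q (fun x j _ => hQ x j)
    (fun L : ℕ => 2 * hb L L + 1) (fun a b h => by
      have := mono_qp h
      dsimp only at this ⊢
      omega) (fun x => by
      have h1 := numPB_le x
      have h2 := bd_le x
      omega)
  refine ⟨4 * P * (2 * Polynomial.X + 1), M, fun L => ?_⟩
  rw [hM]
  have h1 : 1 ≤ hb L L := hb_pos L L
  have h2 := pow_size_le L
  simp only [Polynomial.eval_mul, Polynomial.eval_ofNat, Polynomial.eval_add,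
    Polynomial.eval_X, Polynomial.eval_one]
  calc P.eval L * (2 * hb L L + 1 + 1) ≤ P.eval L * (4 * hb L L) :=
        Nat.mul_le_mul_left _ (by omega)
    _ = 4 * P.eval L * (2 ^ Nat.size L * (L + Nat.size L).choose (Nat.size L)) := by
        unfold hb; ring
    _ ≤ 4 * P.eval L * ((2 * L + 1) * (L + Nat.size L).choose (Nat.size L)) :=
        Nat.mul_le_mul_left _ (Nat.mul_le_mul_right _ h2)
    _ = 4 * P.eval L * (2 * L + 1) * (L + Nat.size L).choose (Nat.size L) := by ring

/-- **Polynomial total time on classes of inputs with polynomially many pivots.** -/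
theorem machineB_of (p : Input → Prop) (R : Polynomial ℕ)
    (h : ∀ I, p I → numPB I ≤ R.eval (code I).length) :
    Nonempty (TM2ComputableInPolyTime (fun I : {I : Input // p I} => wd false true I.1)
      (fun b : List (List ℚ × Verdict) => wd false true b) (fun I => runOfB I.1)) := by
  obtain ⟨Q, hQ⟩ := size_statesB
  have hv : PolyF (fun I : {I : Input // p I} => I.1) := PolyF.id.val
  let R' : Polynomial ℕ := R.comp (2 * Polynomial.X + 1)
  have hR : ∀ L, R'.eval L = R.eval (2 * L + 1) := fun L => by simp [R', Polynomial.eval_comp]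
  obtain ⟨P, M, hM⟩ := emit_tm2_word (α := {I : Input // p I}) (f := fun I => runOfB I.1)
    (polyF_initB.comp hv) polyF_nextB polyF_haltB polyF_reportB (fun I => numPB I.1)
    (fun I => halt_ltB I.1) (fun I => halt_atB I.1) (fun _ => rfl) Q (fun x j _ => hQ x.1 j)
    (fun L : ℕ => R'.eval L) (fun a b h => peval_mono R' h) (fun x => by
      have h1 : (code x.1).length = 2 * sz x.1 + 1 := length_wd _ _ _
      have h2 : sz x = sz x.1 := rfl
      rw [hR, h2, ← h1]
      exact h x.1 x.2)
  have e : M.time = fun L => (P * (R' + 1)).eval L := by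
    rw [hM]
    funext L
    simp
  exact ⟨⟨M.toTM2ComputableAux, P * (R' + 1), fun a => by
    have h := M.outputsFun a
    rw [e] at h
    exact h⟩⟩

/-- each pivot of the combined rule takes polynomial time and space -/
theorem stepsB : ∃ (σ : Type) (_ : TEnc σ) (init : Input → σ) (next : σ → σ)
    (report : σ → List ℚ × Verdict) (Q : Polynomial ℕ),
    Nonempty (TM2ComputableInPolyTime (code (α := Input)) (code (α := σ)) init) ∧
    Nonempty (TM2ComputableInPolyTime (code (α := σ)) (code (α := σ)) next) ∧
    Nonempty (TM2ComputableInPolyTime (code (α := σ))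
      (code (α := List ℚ × Verdict)) report) ∧
    ∀ I : Input, (∀ t, (code (next^[t] (init I))).length ≤ Q.eval (code I).length) ∧
      ∀ t ≤ numPB I, report (next^[t] (init I)) =
        reportAt (numPB I) (xb I) (reportB (nextB^[numPB I] (initB I))).2 t := by
  obtain ⟨Q, hQ⟩ := size_statesB
  refine ⟨Sb, inferInstance, initB, nextB, reportB, 2 * Q + 1,
    polyF_initB.tm2_word, polyF_nextB.tm2_word, polyF_reportB.tm2_word,
    fun I => ⟨fun t => ?_, fun t ht => reportB_at I t ht⟩⟩
  rw [length_wd, length_wd]
  have h1 := hQ I t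
  have h2 := peval_mono Q (show sz I ≤ 2 * sz I + 1 by omega)
  simp only [Polynomial.eval_add, Polynomial.eval_mul, Polynomial.eval_one,
    Polynomial.eval_ofNat]
  omega

end Pool.Agent.Simplex.QP
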