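import Pool.Agent.Lib.MP_4d246d_lc.QM.Machine

/-!
# The direction of a macro step
-/

namespace Pool.Agent.Simplex.QP

open Pool.Agent.Lib.PolyTime

theorem rdot_negZ (n : ℕ) (a : List ℤ) (y : Fin n → ℝ) : rdot n (negZ a) y = -rdot n a y := by
  unfold rdot
  rw [← Finset.sum_neg_distrib]
  exact Finset.sum_congr rfl fun j _ => by rw [getD_negZ]; push_cast; ring

theorem rdot_add (n : ℕ) (a : List ℤ) (x y : Fin n → ℝ) :
    rdot n a (x + y) = rdot n a x + rdot n a y := (rlin n a).map_add x y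

theorem rdot_smul (n : ℕ) (a : List ℤ) (t : ℝ) (y : Fin n → ℝ) :
    rdot n a (t • y) = t * rdot n a y := (rlin n a).map_smul t y

theorem rdot_subv (n : ℕ) (a : List ℤ) (x y : Fin n → ℝ) :
    rdot n a (x - y) = rdot n a x - rdot n a y := (rlin n a).map_sub x y

theorem rdot_zero (n : ℕ) (a : List ℤ) : rdot n a (0 : Fin n → ℝ) = 0 := (rlin n a).map_zero

theorem Sys.ln_eq {E : Type*} [AddCommGroup E] [Module ℝ E] (S : Sys E) (i : ℕ) (y : E) :
    S.ln i y = S.sl i y - S.sl i 0 := by
  have := S.add i 0 y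
  rw [zero_add] at this
  linarith

section

variable (D : Sta) (g : List ℤ)

/-- the coefficients of the normalisation -/
def nuZ : List ℤ := (List.range D.1).map (fun j => dotZ (g.map (fun a => cmZ g / a))
  (D.2.1.map (fun r => r.1.getD j 0)))

theorem mac_len : (macD D g).2.1.length = 2 * D.2.1.length + 1 := by
  simp [macD]
  omega

theorem row_mac1 {i : ℕ} (hi : i < D.2.1.length) : rowOf (macD D g) i =
    (if 0 < g.getD i 0 then negZ (rowOf D i).1 else (rowOf D i).1, 0) := by
  unfold rowOf macD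
  simp only
  rw [List.getD_append _ _ _ _ (by simpa using hi), getD_map_range, if_pos hi]
  rfl

theorem row_mac2 {i : ℕ} (hi : i < D.2.1.length) : rowOf (macD D g) (D.2.1.length + i) =
    (if g.getD i 0 < 0 then (rowOf D i).1 else negZ (rowOf D i).1, 0) := by
  unfold rowOf macD
  simp only
  rw [List.getD_append_right _ _ _ _ (by simp),
    List.getD_append _ _ _ _ (by simpa using hi)]
  simp only [List.length_map, List.length_range, Nat.add_sub_cancel_left]
  rw [getD_map_range, if_pos hi]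
  rfl

theorem row_mac3 : rowOf (macD D g) (2 * D.2.1.length) = (nuZ D g, cmZ g) := by
  unfold rowOf macD
  simp only
  rw [List.getD_append_right _ _ _ _ (by simp; omega),
    List.getD_append_right _ _ _ _ (by simp; omega)]
  simp only [List.length_map, List.length_range]
  have : 2 * D.2.1.length - D.2.1.length - D.2.1.length = 0 := by omega
  rw [this]
  rfl

theorem cmZ_pos : 0 < cmZ g := by
  unfold cmZ
  apply List.prod_pos
  intro a ha
  obtain ⟨b, _, rfl⟩ := List.mem_map.1 ha
  split_ifs with h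
  · exact one_pos
  · exact abs_pos.2 h

theorem dvd_cmZ {a : ℤ} (ha : a ∈ g) (h0 : a ≠ 0) : a ∣ cmZ g := by
  unfold cmZ
  have h1 : |a| ∣ (g.map (fun a => if a = 0 then 1 else |a|)).prod :=
    List.dvd_prod (List.mem_map.2 ⟨a, ha, by rw [if_neg h0]⟩)
  exact (abs_dvd _ _).1 h1

/-- the weights of the normalisation -/
theorem weight_mul {a : ℤ} (ha : a ∈ g) : (((cmZ g / a : ℤ)) : ℝ) * (a : ℝ) =
    if a = 0 then 0 else (cmZ g : ℝ) := by
  split_ifs with h0
  · subst h0; simp
  · exact_mod_cast Int.ediv_mul_cancel (dvd_cmZ g ha h0)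

variable {D g}

theorem rdot_nu (hg : g.length = D.2.1.length) (y : Fin D.1 → ℝ) :
    rdot D.1 (nuZ D g) y = ∑ i ∈ Finset.range D.2.1.length,
      (((cmZ g / g.getD i 0 : ℤ)) : ℝ) * rdot D.1 (rowOf D i).1 y := by
  have h1 : ∀ j : Fin D.1, (((nuZ D g).getD j 0 : ℤ) : ℝ) =
      ∑ i ∈ Finset.range D.2.1.length, (((cmZ g / g.getD i 0 : ℤ)) : ℝ) *
        (((rowOf D i).1.getD j 0 : ℤ) : ℝ) := by
    intro j
    unfold nuZ
    rw [getD_map_range, if_pos j.2, dotZ_eq_sum _ _ D.2.1.length (Or.inr (by simp))]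
    push_cast
    refine Finset.sum_congr rfl fun i hi => ?_
    have hi' := Finset.mem_range.1 hi
    rw [getD_map _ g i 0 0 (by omega), getD_map _ D.2.1 i ([], 0) 0 hi']
    rfl
  unfold rdot
  simp_rw [h1, Finset.sum_mul, Finset.mul_sum]
  rw [Finset.sum_comm]
  exact Finset.sum_congr rfl fun i _ => Finset.sum_congr rfl fun j _ => by ring

/-- vectors conformal to `g`, normalised -/
structure Conf (D : Sta) (g : List ℤ) (y : Fin D.1 → ℝ) : Prop where
  pos : ∀ i < D.2.1.length, 0 < g.getD i 0 → 0 ≤ rdot D.1 (rowOf D i).1 y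
  neg : ∀ i < D.2.1.length, g.getD i 0 < 0 → rdot D.1 (rowOf D i).1 y ≤ 0
  zero : ∀ i < D.2.1.length, g.getD i 0 = 0 → rdot D.1 (rowOf D i).1 y = 0
  norm : ∑ i ∈ Finset.range D.2.1.length,
      (((cmZ g / g.getD i 0 : ℤ)) : ℝ) * rdot D.1 (rowOf D i).1 y ≤ cmZ g

theorem sl_mac1 {i : ℕ} (hi : i < D.2.1.length) (y : Fin D.1 → ℝ) :
    (sysOf (macD D g)).sl i y =
      if 0 < g.getD i 0 then rdot D.1 (rowOf D i).1 y else -rdot D.1 (rowOf D i).1 y := by
  show ((rowOf (macD D g) i).2 : ℝ) - rdot D.1 (rowOf (macD D g) i).1 y = _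
  rw [row_mac1 D g hi]
  split_ifs
  · simp only [rdot_negZ]; push_cast; ring
  · simp

theorem sl_mac2 {i : ℕ} (hi : i < D.2.1.length) (y : Fin D.1 → ℝ) :
    (sysOf (macD D g)).sl (D.2.1.length + i) y =
      if g.getD i 0 < 0 then -rdot D.1 (rowOf D i).1 y else rdot D.1 (rowOf D i).1 y := by
  show ((rowOf (macD D g) (D.2.1.length + i)).2 : ℝ) -
    rdot D.1 (rowOf (macD D g) (D.2.1.length + i)).1 y = _
  rw [row_mac2 D g hi]
  split_ifs
  · simp
  · simp only [rdot_negZ]; push_cast; ring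

theorem sl_mac3 (y : Fin D.1 → ℝ) :
    (sysOf (macD D g)).sl (2 * D.2.1.length) y = cmZ g - rdot D.1 (nuZ D g) y := by
  show ((rowOf (macD D g) (2 * D.2.1.length)).2 : ℝ) -
    rdot D.1 (rowOf (macD D g) (2 * D.2.1.length)).1 y = _
  rw [row_mac3]

/-- the slack functions are determined by their values up to constants -/
theorem ln_mac1 {i : ℕ} (hi : i < D.2.1.length) (y : Fin D.1 → ℝ) :
    (sysOf (macD D g)).ln i y =
      if 0 < g.getD i 0 then rdot D.1 (rowOf D i).1 y else -rdot D.1 (rowOf D i).1 y := by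
  have h := (sysOf (macD D g)).ln_eq i y
  have a := sl_mac1 (g := g) hi y
  have b : (sysOf (macD D g)).sl i (0 : Fin (macD D g).1 → ℝ) = _ := sl_mac1 (g := g) hi 0
  rw [rdot_zero, neg_zero, ite_self] at b
  rw [← a, h, b, sub_zero]

theorem ln_mac2 {i : ℕ} (hi : i < D.2.1.length) (y : Fin D.1 → ℝ) :
    (sysOf (macD D g)).ln (D.2.1.length + i) y =
      if g.getD i 0 < 0 then -rdot D.1 (rowOf D i).1 y else rdot D.1 (rowOf D i).1 y := by
  have h := (sysOf (macD D g)).ln_eq (D.2.1.length + i) y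
  have a := sl_mac2 (g := g) hi y
  have b : (sysOf (macD D g)).sl (D.2.1.length + i) (0 : Fin (macD D g).1 → ℝ) = _ :=
    sl_mac2 (g := g) hi 0
  rw [rdot_zero, neg_zero, ite_self] at b
  rw [← a, h, b, sub_zero]

theorem ln_mac3 (y : Fin D.1 → ℝ) :
    (sysOf (macD D g)).ln (2 * D.2.1.length) y = - rdot D.1 (nuZ D g) y := by
  have h := (sysOf (macD D g)).ln_eq (2 * D.2.1.length) y
  have a := sl_mac3 (g := g) y
  have b : (sysOf (macD D g)).sl (2 * D.2.1.length) (0 : Fin (macD D g).1 → ℝ) = _ :=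
    sl_mac3 (g := g) 0
  rw [rdot_zero] at b
  rw [h, a, b]
  ring

theorem idx_cases {i M : ℕ} (h : i < 2 * M + 1) :
    i < M ∨ (∃ k < M, i = M + k) ∨ i = 2 * M := by
  rcases lt_or_ge i M with h1 | h1
  · exact Or.inl h1
  · rcases lt_or_ge i (2 * M) with h2 | h2
    · exact Or.inr (Or.inl ⟨i - M, by omega, by omega⟩)
    · exact Or.inr (Or.inr (by omega))

theorem mem_mac (hg : g.length = D.2.1.length) (y : Fin D.1 → ℝ) :
    y ∈ (sysOf (macD D g)).Q [] (List.range (macD D g).2.1.length) ↔ Conf D g y := by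
  rw [mac_len]
  constructor
  · rintro ⟨-, h⟩
    have h1 : ∀ i < D.2.1.length, 0 ≤ (sysOf (macD D g)).sl i y := fun i hi =>
      h i (List.mem_range.2 (by omega))
    have h2 : ∀ i < D.2.1.length, 0 ≤ (sysOf (macD D g)).sl (D.2.1.length + i) y := fun i hi =>
      h _ (List.mem_range.2 (by omega))
    have h3 := h (2 * D.2.1.length) (List.mem_range.2 (by omega))
    refine ⟨fun i hi hp => ?_, fun i hi hn => ?_, fun i hi h0 => ?_, ?_⟩
    · have := h1 i hi
      rwa [sl_mac1 hi, if_pos hp] at this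
    · have := h2 i hi
      rw [sl_mac2 hi, if_pos hn] at this
      linarith
    · have a := h1 i hi
      have b := h2 i hi
      rw [sl_mac1 hi, if_neg (by omega)] at a
      rw [sl_mac2 hi, if_neg (by omega)] at b
      linarith
    · rw [sl_mac3, rdot_nu hg] at h3
      linarith
  · rintro ⟨h1, h2, h3, h4⟩
    refine ⟨fun i hi => by simp at hi, fun i hi => ?_⟩
    rcases idx_cases (List.mem_range.1 hi) with h | ⟨k, h, rfl⟩ | rfl
    · rw [sl_mac1 h]
      split_ifs with hp
      · exact h1 i h hp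
      · rcases (not_lt.1 hp).lt_or_eq with hn | h0
        · have := h2 i h hn; linarith
        · rw [h3 i h h0]; simp
    · rw [sl_mac2 h]
      split_ifs with hn
      · have := h2 k h hn; linarith
      · rcases (not_lt.1 hn).lt_or_eq with hp | h0
        · exact h1 k h hp
        · rw [h3 k h h0.symm]
    · rw [sl_mac3, rdot_nu hg]
      linarith

theorem conf_zero : Conf D g 0 := by
  refine ⟨fun i _ _ => by rw [rdot_zero], fun i _ _ => by rw [rdot_zero],
    fun i _ _ => by rw [rdot_zero], ?_⟩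
  rw [Finset.sum_eq_zero fun i _ => by rw [rdot_zero, mul_zero]]
  exact_mod_cast (cmZ_pos g).le

/-- the terms of the normalisation are nonnegative -/
theorem Conf.term (hg : g.length = D.2.1.length) {y : Fin D.1 → ℝ} (h : Conf D g y) {i : ℕ}
    (hi : i < D.2.1.length) :
    0 ≤ (((cmZ g / g.getD i 0 : ℤ)) : ℝ) * rdot D.1 (rowOf D i).1 y := by
  have hmem : g.getD i 0 ∈ g := by
    rw [List.getD_eq_getElem _ _ (by omega)]
    exact List.getElem_mem _
  rcases lt_trichotomy (g.getD i 0) 0 with h0 | h0 | h0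
  · refine mul_nonneg_of_nonpos_of_nonpos ?_ (h.neg i hi h0)
    have : cmZ g / g.getD i 0 ≤ 0 := Int.ediv_nonpos_of_nonneg_of_nonpos (cmZ_pos g).le h0.le
    exact_mod_cast this
  · rw [h.zero i hi h0, mul_zero]
  · refine mul_nonneg ?_ (h.pos i hi h0)
    have : 0 ≤ cmZ g / g.getD i 0 := Int.ediv_nonneg (cmZ_pos g).le h0.le
    exact_mod_cast this

/-- the entries of a normalised conformal vector are bounded -/
theorem Conf.le (hg : g.length = D.2.1.length) {y : Fin D.1 → ℝ} (h : Conf D g y) {i : ℕ}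
    (hi : i < D.2.1.length) : |rdot D.1 (rowOf D i).1 y| ≤ |((g.getD i 0 : ℤ) : ℝ)| := by
  have hmem : g.getD i 0 ∈ g := by
    rw [List.getD_eq_getElem _ _ (by omega)]
    exact List.getElem_mem _
  rcases eq_or_ne (g.getD i 0) 0 with h0 | h0
  · rw [h.zero i hi h0, h0]; simp
  · have h1 : (((cmZ g / g.getD i 0 : ℤ)) : ℝ) * rdot D.1 (rowOf D i).1 y ≤ cmZ g :=
      (Finset.single_le_sum (f := fun i => (((cmZ g / g.getD i 0 : ℤ)) : ℝ) *
        rdot D.1 (rowOf D i).1 y) (fun j hj => h.term hg (Finset.mem_range.1 hj))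
        (Finset.mem_range.2 hi)).trans h.norm
    have h2 := weight_mul g hmem
    rw [if_neg h0] at h2
    have h3 := h.term hg hi
    have h4 : (0 : ℝ) < cmZ g := by exact_mod_cast cmZ_pos g
    have h5 : |(((cmZ g / g.getD i 0 : ℤ)) : ℝ)| * |((g.getD i 0 : ℤ) : ℝ)| = cmZ g := by
      rw [← abs_mul, h2, abs_of_pos h4]
    have h6 : |(((cmZ g / g.getD i 0 : ℤ)) : ℝ)| * |rdot D.1 (rowOf D i).1 y| ≤ cmZ g := by
      rw [← abs_mul, abs_of_nonneg h3]; exact h1
    have h7 : 0 < |(((cmZ g / g.getD i 0 : ℤ)) : ℝ)| := by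
      rcases (abs_nonneg (((cmZ g / g.getD i 0 : ℤ)) : ℝ)).lt_or_eq with h | h
      · exact h
      · rw [← h, zero_mul] at h5; linarith
    rw [← h5] at h6
    exact le_of_mul_le_mul_left h6 h7

end

/-! ### The optimal direction -/

/-- the optimal normalised conformal vector -/
def vdir (D : Sta) (g : List ℤ) : Pnt :=
  match lpZ (macD D g) (targetJ (orc (macD D g)) vleZ)
    (List.range (macD D g).2.1.length) with
  | .opt y => y
  | _ => ([], 1)

theorem dirY_eq (D : Sta) (p : Pnt) : dirY D p = vdir D (gvec D p) := rfl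

section

variable {D : Sta} {g : List ℤ}

/-- the objective is bounded on the normalised conformal vectors -/
theorem conf_bounded (hg : g.length = D.2.1.length)
    (hV : ∀ q : Fin D.1 → ℝ, (∀ i < D.2.1.length, rdot D.1 (rowOf D i).1 q = 0) → q = 0)
    (c : (Fin D.1 → ℝ) →ₗ[ℝ] ℝ) : ∃ C : ℝ, ∀ y, Conf D g y → c y ≤ C := by
  have h1 : c ∈ Submodule.span ℝ (Set.range fun i : Fin D.2.1.length => rlin D.1 (rowOf D i).1) := by
    apply mem_span_of_iInf_ker_le_ker
    intro x hx
    rw [Submodule.mem_iInf] at hx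
    have : x = 0 := hV x fun i hi => by
      have := hx ⟨i, hi⟩
      rwa [LinearMap.mem_ker] at this
    rw [this, LinearMap.mem_ker, map_zero]
  obtain ⟨κ, hκ⟩ := (Submodule.mem_span_range_iff_exists_fun ℝ).1 h1
  refine ⟨∑ i : Fin D.2.1.length, |κ i| * |((g.getD i 0 : ℤ) : ℝ)|, fun y hy => ?_⟩
  rw [← hκ, LinearMap.sum_apply]
  refine Finset.sum_le_sum fun i _ => ?_
  rw [LinearMap.smul_apply, rlin_apply, smul_eq_mul]
  calc κ i * rdot D.1 (rowOf D i).1 y ≤ |κ i * rdot D.1 (rowOf D i).1 y| := le_abs_self _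
    _ = |κ i| * |rdot D.1 (rowOf D i).1 y| := abs_mul _ _
    _ ≤ _ := mul_le_mul_of_nonneg_left (hy.le hg i.2) (abs_nonneg _)

theorem vdir_spec (hg : g.length = D.2.1.length)
    (hV : ∀ q : Fin D.1 → ℝ, (∀ i < D.2.1.length, rdot D.1 (rowOf D i).1 q = 0) → q = 0) :
    Conf D g (valOf D (vdir D g)) ∧
    (∀ z, Conf D g z → rdot D.1 D.2.2 z ≤ rdot D.1 D.2.2 (valOf D (vdir D g))) ∧
    (0 < rdot D.1 D.2.2 (valOf D (vdir D g)) → ∀ q : Fin D.1 → ℝ,
      (∀ i < D.2.1.length, rdot D.1 (rowOf D i).1 (valOf D (vdir D g)) = 0 →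
        rdot D.1 (rowOf D i).1 q = 0) → ∃ t : ℝ, q = t • valOf D (vdir D g)) := by
  have ho := spec_orc (macD D g)
  have hx0 : (0 : Fin (macD D g).1 → ℝ) ∈
      (sysOf (macD D g)).Q [] (List.range (orc (macD D g)).M) := (mem_mac hg 0).2 conf_zero
  have hT1 := target_full ho hx0
  have hT2 := target_lt ho hx0
  have hr : ∀ i ∈ List.range (orc (macD D g)).M, i < (orc (macD D g)).M := fun i hi =>
    List.mem_range.1 hi
  obtain ⟨y, hy⟩ : ∃ y, lpZ (macD D g) (targetJ (orc (macD D g)) vleZ)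
      (List.range (macD D g).2.1.length) = .opt y := by
    cases hl : lpZ (macD D g) (targetJ (orc (macD D g)) vleZ)
      (List.range (macD D g).2.1.length) with
    | infeas =>
      exfalso
      have h1 := ho.infeas _ _ hT2 hr hl
      obtain ⟨z, hz, -⟩ := hT1 0 hx0
      rw [h1] at hz
      exact hz
    | unb =>
      exfalso
      obtain ⟨C, hC⟩ := conf_bounded (g := g) hg hV (rlin D.1 D.2.2)
      obtain ⟨z, hz, hlt⟩ := ho.unb _ _ hT2 hr hl C
      have h2 := hC z ((mem_mac hg z).1 ⟨fun i hi => by simp at hi, hz.2⟩)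
      exact absurd hlt (not_lt.2 h2)
    | opt y => exact ⟨y, rfl⟩
  have hvd : vdir D g = y := by unfold vdir; rw [hy]
  rw [hvd]
  obtain ⟨h1, h2⟩ := ho.opt _ _ _ hT2 hr hy
  have hconf : Conf D g (valOf D y) := (mem_mac hg _).1 ⟨fun i hi => by simp at hi, h1.2⟩
  have hmax : ∀ z, Conf D g z → rdot D.1 D.2.2 z ≤ rdot D.1 D.2.2 (valOf D y) := by
    intro z hz
    obtain ⟨z', hz', h3⟩ := hT1 z ((mem_mac hg z).2 hz)
    exact h3.trans (h2 z' hz')
  refine ⟨hconf, hmax, fun hpos q hq => ?_⟩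
  set ŷ : Fin D.1 → ℝ := valOf D y with hŷ
  set N : (Fin D.1 → ℝ) → ℝ := fun z => rdot D.1 (nuZ D g) z with hN
  have hNeq : ∀ z, N z = ∑ i ∈ Finset.range D.2.1.length,
      (((cmZ g / g.getD i 0 : ℤ)) : ℝ) * rdot D.1 (rowOf D i).1 z := fun z => rdot_nu hg z
  have hN0 : 0 < N ŷ := by
    rcases (Finset.sum_nonneg fun i hi => hconf.term hg (Finset.mem_range.1 hi) :
      (0 : ℝ) ≤ ∑ i ∈ Finset.range D.2.1.length,
        (((cmZ g / g.getD i 0 : ℤ)) : ℝ) * rdot D.1 (rowOf D i).1 ŷ).lt_or_eq with h | h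
    · rw [hNeq]; exact h
    · exfalso
      have h4 := (Finset.sum_eq_zero_iff_of_nonneg fun i hi =>
        hconf.term hg (Finset.mem_range.1 hi)).1 h.symm
      have h5 : ŷ = 0 := hV ŷ fun i hi => by
        rcases eq_or_ne (g.getD i 0) 0 with h0 | h0
        · exact hconf.zero i hi h0
        · have hmem : g.getD i 0 ∈ g := by
            rw [List.getD_eq_getElem _ _ (by omega)]
            exact List.getElem_mem _
          have h6 := h4 i (Finset.mem_range.2 hi)
          have h7 := weight_mul g hmem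
          rw [if_neg h0] at h7
          have h8 : (0 : ℝ) < cmZ g := by exact_mod_cast cmZ_pos g
          rcases mul_eq_zero.1 h6 with h9 | h9
          · rw [h9, zero_mul] at h7; linarith
          · exact h9
      rw [h5, rdot_zero] at hpos
      exact lt_irrefl _ hpos
  -- a direction which keeps the normalisation
  set q' : Fin D.1 → ℝ := q - (N q / N ŷ) • ŷ with hq'
  have hNq' : N q' = 0 := by
    simp only [hN, hq']
    rw [rdot_subv, rdot_smul]
    have : rdot D.1 (nuZ D g) ŷ ≠ 0 := hN0.ne'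
    field_simp
    ring
  have hzq' : ∀ i < D.2.1.length, rdot D.1 (rowOf D i).1 ŷ = 0 →
      rdot D.1 (rowOf D i).1 q' = 0 := by
    intro i hi h0
    rw [hq', rdot_subv, rdot_smul, h0, hq i hi h0]
    ring
  -- perturbation
  have key : ∀ s : ℝ, rdot D.1 D.2.2 (s • q') ≤ 0 := by
    intro s
    obtain ⟨ε, hε, hp⟩ := (sysOf (macD D g)).pert (List.range (macD D g).2.1.length) ŷ (s • q')
      (by
        intro i hi
        rw [List.mem_range, mac_len] at hi
        have h9 := h1.2 i (List.mem_range.2 (by show i < (macD D g).2.1.length; rw [mac_len]; exact hi))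
        have h9' : 0 ≤ (sysOf (macD D g)).sl i ŷ := h9
        rcases h9'.lt_or_eq with h10 | h10
        · exact Or.inl h10
        · refine Or.inr ⟨h9', ?_⟩
          rcases idx_cases hi with h | ⟨k, h, rfl⟩ | rfl
          · have e1 := sl_mac1 (g := g) h ŷ
            rw [← h10] at e1
            have e2 : rdot D.1 (rowOf D i).1 ŷ = 0 := by
              split_ifs at e1 <;> linarith
            have e3 := ln_mac1 (g := g) h (s • q')
            rw [rdot_smul, hzq' i h e2, mul_zero, neg_zero, ite_self] at e3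
            exact e3.ge
          · have e1 := sl_mac2 (g := g) h ŷ
            rw [← h10] at e1
            have e2 : rdot D.1 (rowOf D k).1 ŷ = 0 := by
              split_ifs at e1 <;> linarith
            have e3 := ln_mac2 (g := g) h (s • q')
            rw [rdot_smul, hzq' k h e2, mul_zero, neg_zero, ite_self] at e3
            exact e3.ge
          · have e3 := ln_mac3 (g := g) (s • q')
            have e4 : rdot D.1 (nuZ D g) q' = 0 := hNq'
            rw [rdot_smul, e4, mul_zero, neg_zero] at e3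
            exact e3.ge)
    have h11 := hp ε hε.le le_rfl
    have h12 : Conf D g (ŷ + ε • (s • q')) := (mem_mac hg _).1 ⟨fun i hi => by simp at hi, h11⟩
    have h13 := hmax _ h12
    rw [rdot_add, rdot_smul D.1 D.2.2 ε] at h13
    have h14 : ε * rdot D.1 D.2.2 (s • q') ≤ 0 := by linarith
    by_contra hcon
    push Not at hcon
    have := mul_pos hε hcon
    linarith
  have hcq' : rdot D.1 D.2.2 q' = 0 := by
    have a := key 1
    have b := key (-1)
    rw [rdot_smul] at a b
    linarith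
  -- the target face contains no such direction
  have hv0 : (sysOf (macD D g)).Vx (fun i => i < (orc (macD D g)).M)
      (0 : Fin (macD D g).1 → ℝ) := by
    intro r hr'
    refine hV r fun i hi => ?_
    have e0 : (sysOf (macD D g)).sl i (0 : Fin (macD D g).1 → ℝ) = _ := sl_mac1 (g := g) hi 0
    rw [rdot_zero, neg_zero, ite_self] at e0
    have e1 := hr' i (by show i < (macD D g).2.1.length; rw [mac_len]; omega) e0
    have e2 := ln_mac1 (g := g) hi r
    rw [e1] at e2
    split_ifs at e2 <;> linarith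
  have hzero : q' = 0 := by
    refine target_dir ho hx0 hv0 (q := q') (fun j hj => ?_) hcq'
    have hjM := hT2 j hj
    have hj' : j < 2 * D.2.1.length + 1 := by
      have : j < (macD D g).2.1.length := hjM
      rwa [mac_len] at this
    have hj0 : (sysOf (macD D g)).sl j ŷ = 0 := h1.1 j hj
    rcases idx_cases hj' with h | ⟨k, h, rfl⟩ | rfl
    · have e1 := sl_mac1 (g := g) h ŷ
      rw [hj0] at e1
      have e2 : rdot D.1 (rowOf D j).1 ŷ = 0 := by
        split_ifs at e1 <;> linarith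
      have e3 := ln_mac1 (g := g) h q'
      rw [hzq' j h e2, neg_zero, ite_self] at e3
      exact e3
    · have e1 := sl_mac2 (g := g) h ŷ
      rw [hj0] at e1
      have e2 : rdot D.1 (rowOf D k).1 ŷ = 0 := by
        split_ifs at e1 <;> linarith
      have e3 := ln_mac2 (g := g) h q'
      rw [hzq' k h e2, neg_zero, ite_self] at e3
      exact e3
    · have e3 := ln_mac3 (g := g) q'
      have e4 : rdot D.1 (nuZ D g) q' = 0 := hNq'
      rw [e4, neg_zero] at e3
      exact e3
  refine ⟨N q / N ŷ, ?_⟩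
  rw [hq', sub_eq_zero] at hzero
  exact hzero

end

end Pool.Agent.Simplex.QP
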