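import Pool.Agent.Lib.MP_4d246d_lc.QM.Dir

/-!
# The face of a macro step
-/

namespace Pool.Agent.Simplex.QP

open Pool.Agent.Lib.PolyTime

section

variable {D : Sta}

/-- A frame given by constraints tight at a vertex is good. -/
theorem good_frame {p : Pnt} (hx : valOf D p ∈ (sysOf D).Q [] (List.range (orc D).M))
    (hv : (sysOf D).Vx (fun i => i < (orc D).M) (valOf D p)) {J : List ℕ}
    (hJ : ∀ j ∈ J, j < (orc D).M ∧ (sysOf D).sl j (valOf D p) = 0) :
    Good (sysOf D) (orc D).M (valOf D p) (frameOf D J) [] := by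
  have ho := spec_orc D
  have hCM : ∀ j ∈ J, j < (orc D).M := fun j hj => (hJ j hj).1
  have hmem : ∀ i, i ∈ (frameOf D J).I ↔ i < (orc D).M ∧ ¬ (sysOf D).Dep J i := by
    intro i
    show i ∈ (List.range (orc D).M).filter (fun j => !(orc D).dep J j) ↔ _
    rw [List.mem_filter, List.mem_range]
    constructor
    · rintro ⟨h1, h2⟩
      refine ⟨h1, fun h3 => ?_⟩
      rw [(ho.dep _ _ hCM h1).2 h3] at h2
      simp at h2
    · rintro ⟨h1, h2⟩
      refine ⟨h1, ?_⟩
      cases h3 : (orc D).dep J i with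
      | false => rfl
      | true => exact absurd ((ho.dep _ _ hCM h1).1 h3) h2
  refine ⟨⟨rfl, fun i hi => ?_, fun i hi => ((hmem i).1 hi).1, hCM,
    List.nodup_range.filter _, fun i hi => ((hmem i).1 hi).2⟩, ⟨fun j hj => (hJ j hj).2, hx.2⟩,
    ?_⟩
  · by_cases hd : (sysOf D).Dep J i
    · exact Or.inr hd
    · exact Or.inl ((hmem i).2 ⟨hi, hd⟩)
  · intro q hq
    have hJq : ∀ j ∈ J, (sysOf D).ln j q = 0 := fun j hj =>
      hq j (Or.inl hj) (hJ j hj).2
    apply hv
    intro i hi hi0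
    by_cases hd : (sysOf D).Dep J i
    · exact hd q hJq
    · exact hq i (Or.inr ((hmem i).2 ⟨hi, hd⟩)) hi0

theorem mem_faceJ {p y : Pnt} {i : ℕ} : i ∈ faceJ D p y ↔ i < D.2.1.length ∧
    (sysOf D).sl i (valOf D p) = 0 ∧ rdot D.1 (rowOf D i).1 (valOf D y) = 0 := by
  unfold faceJ
  rw [List.mem_filter, List.mem_range, Bool.and_eq_true, decide_eq_true_eq]
  have h2 : rdot D.1 (rowOf D i).1 (valOf D y) = 0 ↔
      dotZ (padZ D.1 (rowOf D i).1) y.1 = 0 := by
    rw [rdot_valOf, div_eq_zero_iff]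
    constructor
    · rintro (h | h)
      · exact_mod_cast h
      · exact absurd h (dn_posR _).ne'
    · intro h; left; exact_mod_cast h
  constructor
  · rintro ⟨h1, h3, h4⟩
    exact ⟨h1, ((spec_orc D).tt p i h1).1 h3, h2.2 h4⟩
  · rintro ⟨h1, h3, h4⟩
    exact ⟨h1, ((spec_orc D).tt p i h1).2 h3, h2.1 h4⟩

/-- The frame of a macro step is good. -/
theorem good_start {p : Pnt} (hx : valOf D p ∈ (sysOf D).Q [] (List.range (orc D).M))
    (hv : (sysOf D).Vx (fun i => i < (orc D).M) (valOf D p)) (y : Pnt) :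
    Good (sysOf D) (orc D).M (valOf D p) (frameOf D (faceJ D p y)) [] :=
  good_frame hx hv fun _ hj => ⟨(mem_faceJ.1 hj).1, (mem_faceJ.1 hj).2.1⟩

theorem length_faceJ_le (p y : Pnt) : (faceJ D p y).length ≤ (orc D).M := by
  unfold faceJ
  refine (List.length_filter_le _ _).trans ?_
  rw [List.length_range]
  exact le_rfl

theorem length_frameI_le (J : List ℕ) : (frameOf D J).I.length ≤ (orc D).M := by
  show ((List.range D.2.1.length).filter _).length ≤ _
  refine (List.length_filter_le _ _).trans ?_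
  rw [List.length_range]
  exact le_rfl

theorem gvec_length (D : Sta) (p : Pnt) : (gvec D p).length = D.2.1.length := by
  unfold gvec
  split <;> simp

theorem slZ_eq (p : Pnt) (i : ℕ) : ((slZ D p i : ℤ) : ℝ) =
    (sysOf D).sl i (valOf D p) * ((dn p.2 : ℤ) : ℝ) := by
  show _ = (((rowOf D i).2 : ℝ) - rdot D.1 (rowOf D i).1 (valOf D p)) * ((dn p.2 : ℤ) : ℝ)
  rw [rdot_valOf, sub_mul, div_mul_cancel₀ _ (dn_posR _).ne']
  unfold slZ
  push_cast
  ring

theorem gapZ_eq (p w : Pnt) (i : ℕ) : ((gapZ D p w i : ℤ) : ℝ) =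
    (((dn p.2 : ℤ) : ℝ) * ((dn w.2 : ℤ) : ℝ)) *
      rdot D.1 (rowOf D i).1 (valOf D w - valOf D p) := by
  unfold gapZ
  push_cast
  rw [slZ_eq, slZ_eq, rdot_subv]
  show ((((rowOf D i).2 : ℝ) - rdot D.1 (rowOf D i).1 (valOf D p)) * ((dn p.2 : ℤ) : ℝ)) *
    ((dn w.2 : ℤ) : ℝ) - ((((rowOf D i).2 : ℝ) - rdot D.1 (rowOf D i).1 (valOf D w)) *
    ((dn w.2 : ℤ) : ℝ)) * ((dn p.2 : ℤ) : ℝ) = _
  ring

theorem gvec_opt {p w : Pnt} (hw : lpZ D [] (List.range D.2.1.length) = .opt w) {i : ℕ}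
    (hi : i < D.2.1.length) : (gvec D p).getD i 0 = gapZ D p w i := by
  unfold gvec
  rw [hw]
  simp only
  rw [getD_map_range, if_pos hi]

/-- What a direction must satisfy. -/
structure Adv (D : Sta) (p : Pnt) (y : Fin D.1 → ℝ) : Prop where
  /-- it can be used at `p` -/
  feas : ∀ i < D.2.1.length, (sysOf D).sl i (valOf D p) = 0 → rdot D.1 (rowOf D i).1 y ≤ 0
  /-- it improves the objective -/
  impr : 0 < rdot D.1 D.2.2 y
  /-- it is elementary -/
  elem : ∀ q : Fin D.1 → ℝ, (∀ i < D.2.1.length, rdot D.1 (rowOf D i).1 y = 0 →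
        rdot D.1 (rowOf D i).1 q = 0) → ∃ t : ℝ, q = t • y

theorem pointed_of_vx {p : Pnt} (hv : (sysOf D).Vx (fun i => i < (orc D).M) (valOf D p)) :
    ∀ q : Fin D.1 → ℝ, (∀ i < D.2.1.length, rdot D.1 (rowOf D i).1 q = 0) → q = 0 := by
  intro q hq
  refine hv q fun i hi _ => ?_
  show -rdot D.1 (rowOf D i).1 q = 0
  rw [hq i hi, neg_zero]

section opt

variable {p w : Pnt} (hx : valOf D p ∈ (sysOf D).Q [] (List.range (orc D).M))
  (hv : (sysOf D).Vx (fun i => i < (orc D).M) (valOf D p))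
  (hw : lpZ D [] (List.range D.2.1.length) = .opt w)

include hw

theorem lp_opt_spec : valOf D w ∈ (sysOf D).Q [] (List.range (orc D).M) ∧
    ∀ z ∈ (sysOf D).Q [] (List.range (orc D).M), (sysOf D).c z ≤ (sysOf D).c (valOf D w) :=
  (spec_orc D).opt [] _ w (fun i hi => by simp at hi) (fun i hi => List.mem_range.1 hi) hw

/-- The scaled difference is conformal and normalised. -/
theorem conf_diff : Conf D (gvec D p)
    (((((dn p.2 : ℤ) : ℝ) * ((dn w.2 : ℤ) : ℝ)) / (D.2.1.length : ℝ)) •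
      (valOf D w - valOf D p)) := by
  set κ : ℝ := ((dn p.2 : ℤ) : ℝ) * ((dn w.2 : ℤ) : ℝ) with hκ
  have hκ0 : 0 < κ := mul_pos (dn_posR _) (dn_posR _)
  set u : Fin D.1 → ℝ := valOf D w - valOf D p with hu
  have hgi : ∀ i < D.2.1.length, (((gvec D p).getD i 0 : ℤ) : ℝ) =
      κ * rdot D.1 (rowOf D i).1 u := fun i hi => by rw [gvec_opt hw hi, gapZ_eq]
  have hval : ∀ i < D.2.1.length, rdot D.1 (rowOf D i).1 ((κ / (D.2.1.length : ℝ)) • u) =
      (((gvec D p).getD i 0 : ℤ) : ℝ) / (D.2.1.length : ℝ) := fun i hi => by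
    rw [rdot_smul, hgi i hi]; ring
  refine ⟨fun i hi h => ?_, fun i hi h => ?_, fun i hi h => ?_, ?_⟩
  · rw [hval i hi]
    have : (0 : ℝ) ≤ (((gvec D p).getD i 0 : ℤ) : ℝ) := by exact_mod_cast h.le
    positivity
  · rw [hval i hi]
    have : (((gvec D p).getD i 0 : ℤ) : ℝ) ≤ 0 := by exact_mod_cast h.le
    exact div_nonpos_of_nonpos_of_nonneg this (by positivity)
  · rw [hval i hi, h]; simp
  · calc ∑ i ∈ Finset.range D.2.1.length, (((cmZ (gvec D p) / (gvec D p).getD i 0 : ℤ)) : ℝ) *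
          rdot D.1 (rowOf D i).1 ((κ / (D.2.1.length : ℝ)) • u)
        ≤ ∑ i ∈ Finset.range D.2.1.length, (cmZ (gvec D p) : ℝ) / (D.2.1.length : ℝ) := by
          refine Finset.sum_le_sum fun i hi => ?_
          have hi' := Finset.mem_range.1 hi
          have hmem : (gvec D p).getD i 0 ∈ gvec D p := by
            have := gvec_length D p
            rw [List.getD_eq_getElem _ _ (by omega)]
            exact List.getElem_mem _
          rw [hval i hi', ← mul_div_assoc, weight_mul _ hmem]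
          have h0 : (0 : ℝ) ≤ cmZ (gvec D p) := by exact_mod_cast (cmZ_pos _).le
          split_ifs
          · rw [zero_div]; positivity
          · exact le_rfl
      _ ≤ cmZ (gvec D p) := by
          rw [Finset.sum_const, Finset.card_range, nsmul_eq_mul]
          have h0 : (0 : ℝ) ≤ cmZ (gvec D p) := by exact_mod_cast (cmZ_pos _).le
          rcases Nat.eq_zero_or_pos D.2.1.length with h | h
          · rw [h]; simpa using h0
          · have : (D.2.1.length : ℝ) ≠ 0 := by positivity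
            field_simp
            exact le_rfl

include hv

/-- The direction gives at least the `1 / M`-th part of the gap. -/
theorem dir_gain : (((dn p.2 : ℤ) : ℝ) * ((dn w.2 : ℤ) : ℝ)) / (D.2.1.length : ℝ) *
    ((sysOf D).c (valOf D w) - (sysOf D).c (valOf D p)) ≤
      rdot D.1 D.2.2 (valOf D (dirY D p)) := by
  have h1 := (vdir_spec (gvec_length D p) (pointed_of_vx hv)).2.1 _ (conf_diff (p := p) hw)
  rw [rdot_smul, rdot_subv] at h1
  exact h1

include hx

/-- A point of the face of the macro step, above `p` by the `1 / M`-th part of the gap. -/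
theorem face_point : ∃ z ∈ (sysOf D).Q (faceJ D p (dirY D p)) (List.range (orc D).M),
    (sysOf D).c (valOf D p) + ((sysOf D).c (valOf D w) - (sysOf D).c (valOf D p)) /
      (D.2.1.length : ℝ) ≤ (sysOf D).c z := by
  set κ : ℝ := ((dn p.2 : ℤ) : ℝ) * ((dn w.2 : ℤ) : ℝ) with hκ
  have hκ0 : 0 < κ := mul_pos (dn_posR _) (dn_posR _)
  have hgl := gvec_length D p
  obtain ⟨hc, -, -⟩ := vdir_spec hgl (pointed_of_vx hv)
  rw [← dirY_eq] at hc
  set y : Fin D.1 → ℝ := valOf D (dirY D p) with hy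
  have hgi : ∀ i < D.2.1.length, (((gvec D p).getD i 0 : ℤ) : ℝ) =
      κ * rdot D.1 (rowOf D i).1 (valOf D w - valOf D p) := fun i hi => by
    rw [gvec_opt hw hi, gapZ_eq]
  have hwQ := (lp_opt_spec hw).1
  have hgain := dir_gain hv hw
  rw [← hκ, ← hy] at hgain
  refine ⟨valOf D p + (1 / κ) • y, ⟨fun i hi => ?_, fun i hi => ?_⟩, ?_⟩
  · obtain ⟨h1, h2, h3⟩ := mem_faceJ.1 hi
    rw [Sys.smul_add, h2]
    show 0 + 1 / κ * (-rdot D.1 (rowOf D i).1 y) = 0
    rw [h3]
    ring
  · have hi' : i < D.2.1.length := List.mem_range.1 hi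
    rw [Sys.smul_add]
    show 0 ≤ (sysOf D).sl i (valOf D p) + 1 / κ * (-rdot D.1 (rowOf D i).1 y)
    have h0 := hx.2 i hi
    rcases le_or_gt (rdot D.1 (rowOf D i).1 y) 0 with h | h
    · have : 0 ≤ 1 / κ * (-rdot D.1 (rowOf D i).1 y) := by
        apply mul_nonneg (by positivity); linarith
      linarith
    · have hg : 0 < (gvec D p).getD i 0 := by
        rcases lt_trichotomy ((gvec D p).getD i 0) 0 with h1 | h1 | h1
        · have := hc.neg i hi' h1; linarith
        · have := hc.zero i hi' h1; linarith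
        · exact h1
      have h2 := hc.le hgl hi'
      rw [abs_of_pos h, abs_of_pos (by exact_mod_cast hg : (0 : ℝ) < _), hgi i hi'] at h2
      have h3 : 1 / κ * rdot D.1 (rowOf D i).1 y ≤
          rdot D.1 (rowOf D i).1 (valOf D w - valOf D p) := by
        rw [one_div, inv_mul_le_iff₀ hκ0]
        exact h2
      have h4 := hwQ.2 i hi
      rw [rdot_subv] at h3
      have h5 : (sysOf D).sl i (valOf D w) = ((rowOf D i).2 : ℝ) -
        rdot D.1 (rowOf D i).1 (valOf D w) := rfl
      have h6 : (sysOf D).sl i (valOf D p) = ((rowOf D i).2 : ℝ) -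
        rdot D.1 (rowOf D i).1 (valOf D p) := rfl
      rw [h5] at h4
      rw [h6]
      linarith
  · rw [map_add, map_smul, smul_eq_mul]
    show (sysOf D).c (valOf D p) + _ ≤ (sysOf D).c (valOf D p) + 1 / κ * rdot D.1 D.2.2 y
    have h7 : ((sysOf D).c (valOf D w) - (sysOf D).c (valOf D p)) / (D.2.1.length : ℝ) =
        1 / κ * (κ / (D.2.1.length : ℝ) *
          ((sysOf D).c (valOf D w) - (sysOf D).c (valOf D p))) := by
      field_simp
    rw [h7]
    have h8 := mul_le_mul_of_nonneg_left hgain (by positivity : (0 : ℝ) ≤ 1 / κ)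
    linarith

omit hx in
/-- The direction of a macro step at a nonoptimal vertex. -/
theorem adv_opt (hlt : (sysOf D).c (valOf D p) < (sysOf D).c (valOf D w)) :
    Adv D p (valOf D (dirY D p)) := by
  have hM : 0 < D.2.1.length := by
    rcases Nat.eq_zero_or_pos D.2.1.length with h | h
    · exfalso
      have h1 := pointed_of_vx hv (valOf D w - valOf D p) (fun i hi => by omega)
      rw [sub_eq_zero] at h1
      rw [h1] at hlt
      exact lt_irrefl _ hlt
    · exact h
  have hκ0 : 0 < ((dn p.2 : ℤ) : ℝ) * ((dn w.2 : ℤ) : ℝ) := mul_pos (dn_posR _) (dn_posR _)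
  have hgl := gvec_length D p
  have hgain := dir_gain hv hw
  have hpos : 0 < rdot D.1 D.2.2 (valOf D (dirY D p)) := by
    refine lt_of_lt_of_le ?_ hgain
    have : (0 : ℝ) < D.2.1.length := by exact_mod_cast hM
    have h1 : 0 < (sysOf D).c (valOf D w) - (sysOf D).c (valOf D p) := by linarith
    positivity
  obtain ⟨hc, -, he⟩ := vdir_spec hgl (pointed_of_vx hv)
  rw [← dirY_eq] at hc he
  refine ⟨fun i hi h0 => ?_, hpos, he hpos⟩
  by_contra hcon
  push Not at hcon
  have hg : 0 < (gvec D p).getD i 0 := by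
    rcases lt_trichotomy ((gvec D p).getD i 0) 0 with h1 | h1 | h1
    · have := hc.neg i hi h1; linarith
    · have := hc.zero i hi h1; linarith
    · exact h1
  rw [gvec_opt hw hi] at hg
  have h1 : (0 : ℝ) < ((gapZ D p w i : ℤ) : ℝ) := by exact_mod_cast hg
  unfold gapZ at h1
  push_cast at h1
  rw [slZ_eq, slZ_eq, h0] at h1
  have h2 := (lp_opt_spec hw).1.2 i (List.mem_range.2 hi)
  have h3 : 0 ≤ (sysOf D).sl i (valOf D w) * ((dn w.2 : ℤ) : ℝ) * ((dn p.2 : ℤ) : ℝ) :=
    mul_nonneg (mul_nonneg h2 (dn_posR _).le) (dn_posR _).le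
  linarith

end opt

section unb

variable {p : Pnt} (hx : valOf D p ∈ (sysOf D).Q [] (List.range (orc D).M))
  (hv : (sysOf D).Vx (fun i => i < (orc D).M) (valOf D p))
  (hno : ∀ w, lpZ D [] (List.range D.2.1.length) ≠ .opt w)

include hno

theorem gvec_unb {i : ℕ} (hi : i < D.2.1.length) : (gvec D p).getD i 0 = -1 := by
  have h : gvec D p = (List.range D.2.1.length).map (fun _ => -1) := by
    unfold gvec
    split
    · rename_i w hw; exact absurd hw (hno w)
    · rfl
  rw [h, getD_map_range, if_pos hi]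

include hx

/-- If the program is unbounded, there is an improving recession direction. -/
theorem exists_rec : ∃ y : Fin D.1 → ℝ, (∀ i < D.2.1.length, rdot D.1 (rowOf D i).1 y ≤ 0) ∧
    0 < rdot D.1 D.2.2 y := by
  by_contra hcon
  push Not at hcon
  obtain ⟨u, hu, hu'⟩ := farkas (J := Fin D.2.1.length) (T := Fin D.1)
    (fun i j => (((rowOf D i).1.getD j 0 : ℤ) : ℝ)) (fun j => ((D.2.2.getD j 0 : ℤ) : ℝ))
    (fun v hv => hcon v fun i hi => hv ⟨i, hi⟩)
  have hl : lpZ D [] (List.range D.2.1.length) = .unb := by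
    cases h : lpZ D [] (List.range D.2.1.length) with
    | infeas =>
      exfalso
      have := (spec_orc D).infeas [] _ (fun i hi => by simp at hi)
        (fun i hi => List.mem_range.1 hi) h
      have h2 : valOf D p ∈ (∅ : Set (Fin D.1 → ℝ)) := this ▸ hx
      exact h2
    | unb => rfl
    | opt w => exact absurd h (hno w)
  obtain ⟨y, hy, hlt⟩ := (spec_orc D).unb [] _ (fun i hi => by simp at hi)
    (fun i hi => List.mem_range.1 hi) hl (∑ i : Fin D.2.1.length, u i * ((rowOf D i).2 : ℝ))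
  have h1 : (sysOf D).c y = ∑ i : Fin D.2.1.length, u i * rdot D.1 (rowOf D i).1 y := by
    show rdot D.1 D.2.2 y = _
    unfold rdot
    simp_rw [← hu', Finset.sum_mul, Finset.mul_sum]
    rw [Finset.sum_comm]
    exact Finset.sum_congr rfl fun i _ => Finset.sum_congr rfl fun j _ => by ring
  have h2 : (sysOf D).c y ≤ ∑ i : Fin D.2.1.length, u i * ((rowOf D i).2 : ℝ) := by
    rw [h1]
    refine Finset.sum_le_sum fun i _ => mul_le_mul_of_nonneg_left ?_ (hu i)
    have h3 : 0 ≤ ((rowOf D i).2 : ℝ) - rdot D.1 (rowOf D i).1 y :=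
      hy.2 i (List.mem_range.2 i.2)
    linarith
  linarith

include hv

theorem rec_spec : Adv D p (valOf D (dirY D p)) ∧
    ∀ i < D.2.1.length, rdot D.1 (rowOf D i).1 (valOf D (dirY D p)) ≤ 0 := by
  have hgl := gvec_length D p
  obtain ⟨hc, hmax, he⟩ := vdir_spec hgl (pointed_of_vx hv)
  rw [← dirY_eq] at hc hmax he
  have hle : ∀ i < D.2.1.length, rdot D.1 (rowOf D i).1 (valOf D (dirY D p)) ≤ 0 :=
    fun i hi => by
      have h1 : (gvec D p).getD i 0 = -1 := gvec_unb (p := p) hno hi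
      have h2 : (gvec D p).getD i 0 < 0 := by rw [h1]; exact neg_one_lt_zero
      exact hc.neg i hi h2
  obtain ⟨y, hy1, hy2⟩ := exists_rec hx hno
  -- scale `y`
  set s : ℝ := ∑ i ∈ Finset.range D.2.1.length,
    (((cmZ (gvec D p) / (gvec D p).getD i 0 : ℤ)) : ℝ) * rdot D.1 (rowOf D i).1 y with hs
  have hcm : (0 : ℝ) < cmZ (gvec D p) := by exact_mod_cast cmZ_pos _
  set t : ℝ := (cmZ (gvec D p) : ℝ) / (|s| + 1) with ht
  have hs0 : 0 < |s| + 1 := add_pos_of_nonneg_of_pos (abs_nonneg _) one_pos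
  have ht0 : 0 < t := div_pos hcm hs0
  have hconf : Conf D (gvec D p) (t • y) := by
    refine ⟨fun i hi h => ?_, fun i hi h => ?_, fun i hi h => ?_, ?_⟩
    · rw [gvec_unb hno hi] at h; norm_num at h
    · rw [rdot_smul]
      exact mul_nonpos_of_nonneg_of_nonpos ht0.le (hy1 i hi)
    · rw [gvec_unb hno hi] at h; norm_num at h
    · have e : ∑ i ∈ Finset.range D.2.1.length,
          (((cmZ (gvec D p) / (gvec D p).getD i 0 : ℤ)) : ℝ) * rdot D.1 (rowOf D i).1 (t • y) =
          t * s := by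
        rw [hs, Finset.mul_sum]
        exact Finset.sum_congr rfl fun i _ => by rw [rdot_smul]; ring
      rw [e, ht, div_mul_eq_mul_div, div_le_iff₀ hs0]
      refine mul_le_mul_of_nonneg_left ?_ hcm.le
      have := le_abs_self s
      linarith
  have h1 := hmax _ hconf
  rw [rdot_smul] at h1
  have hpos : 0 < rdot D.1 D.2.2 (valOf D (dirY D p)) := lt_of_lt_of_le (mul_pos ht0 hy2) h1
  exact ⟨⟨fun i hi _ => hle i hi, hpos, he hpos⟩, hle⟩

/-- The objective is unbounded on the face of the macro step. -/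
theorem face_unb (r : ℝ) : ∃ z ∈ (sysOf D).Q (faceJ D p (dirY D p)) (List.range (orc D).M),
    r < (sysOf D).c z := by
  obtain ⟨⟨-, hpos, -⟩, hle⟩ := rec_spec hx hv hno
  set y : Fin D.1 → ℝ := valOf D (dirY D p) with hy
  set t : ℝ := (|r - (sysOf D).c (valOf D p)| + 1) / rdot D.1 D.2.2 y with ht
  have ht0 : 0 ≤ t := by positivity
  refine ⟨valOf D p + t • y, ⟨fun i hi => ?_, fun i hi => ?_⟩, ?_⟩
  · obtain ⟨h1, h2, h3⟩ := mem_faceJ.1 hi
    rw [Sys.smul_add, h2]
    show 0 + t * (-rdot D.1 (rowOf D i).1 y) = 0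
    rw [h3]
    ring
  · have hi' : i < D.2.1.length := List.mem_range.1 hi
    rw [Sys.smul_add]
    show 0 ≤ (sysOf D).sl i (valOf D p) + t * (-rdot D.1 (rowOf D i).1 y)
    have h0 := hx.2 i hi
    have h1 := hle i hi'
    have : 0 ≤ t * (-rdot D.1 (rowOf D i).1 y) := mul_nonneg ht0 (by linarith)
    linarith
  · rw [map_add, map_smul, smul_eq_mul]
    show r < (sysOf D).c (valOf D p) + t * rdot D.1 D.2.2 y
    rw [ht, div_mul_cancel₀ _ hpos.ne']
    have := le_abs_self (r - (sysOf D).c (valOf D p))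
    linarith

end unb

/-- The test for optimality is correct. -/
theorem topZ_iff {p : Pnt} (hx : valOf D p ∈ (sysOf D).Q [] (List.range (orc D).M)) :
    topZ D p = true ↔ ∀ z ∈ (sysOf D).Q [] (List.range (orc D).M),
      (sysOf D).c z ≤ (sysOf D).c (valOf D p) := by
  have e : topZ D p = isOpt (orc D) vleZ p [] (List.range (orc D).M) := by
    have e1 : (orc D).lp [] (List.range (orc D).M) = lpZ D [] (List.range D.2.1.length) := rfl
    unfold topZ isOpt
    rw [e1]
    cases lpZ D [] (List.range D.2.1.length) <;> rfl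
  rw [e]
  exact isOpt_iff (o := orc D) (vle := vleZ) (x := p) (spec_orc D) (fun i hi => by simp at hi)
    (fun i hi => List.mem_range.1 hi) hx

/-- The direction of a macro step at a nonoptimal vertex. -/
theorem adv_dirY {p : Pnt} (hx : valOf D p ∈ (sysOf D).Q [] (List.range (orc D).M))
    (hv : (sysOf D).Vx (fun i => i < (orc D).M) (valOf D p)) (h : topZ D p = false) :
    Adv D p (valOf D (dirY D p)) := by
  by_cases hno : ∀ w, lpZ D [] (List.range D.2.1.length) ≠ .opt w
  · exact (rec_spec hx hv hno).1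
  · push Not at hno
    obtain ⟨w, hw⟩ := hno
    refine adv_opt hv hw ?_
    by_contra hcon
    push Not at hcon
    have h1 : topZ D p = true := (topZ_iff hx).2 fun z hz => ((lp_opt_spec hw).2 z hz).trans hcon
    rw [h1] at h
    simp at h

end

end Pool.Agent.Simplex.QP
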