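import Pool.Agent.Lib.MP_4d246d_lc.QM.Width
import Pool.Agent.Lib.MP_4d246d_lc.QP.Edges

/-!
# The circuit width of programs with nested block structure
-/

namespace Pool.Agent.Simplex.QLP

open Pool.Agent.Simplex.QP

variable {m n : ℕ} (D : QLP m n)

/-- the row as a linear map -/
noncomputable def rowL (i : Fin m) : (Fin n → ℝ) →ₗ[ℝ] ℝ where
  toFun := D.row i
  map_add' p q := by
    unfold row
    rw [← Finset.sum_add_distrib]
    exact Finset.sum_congr rfl fun j _ => by rw [Pi.add_apply]; ring
  map_smul' t q := by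
    unfold row
    rw [RingHom.id_apply, smul_eq_mul, Finset.mul_sum]
    exact Finset.sum_congr rfl fun j _ => by rw [Pi.smul_apply, smul_eq_mul]; ring

@[simp] theorem rowL_apply (i : Fin m) (x : Fin n → ℝ) : D.rowL i x = D.row i x := rfl

/-- the slack functions -/
noncomputable def slackSys : Sys (Fin n → ℝ) where
  sl i x := if h : i < m then (D.b ⟨i, h⟩ : ℝ) - D.row ⟨i, h⟩ x
    else if h' : i - m < n then x ⟨i - m, h'⟩ else 0
  ln i := if h : i < m then -D.rowL ⟨i, h⟩
    else if h' : i - m < n then LinearMap.proj ⟨i - m, h'⟩ else 0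
  add i x q := by
    split_ifs with h h'
    · rw [LinearMap.neg_apply, rowL_apply, ← rowL_apply, ← rowL_apply, ← rowL_apply, map_add]
      ring
    · rfl
    · simp
  c := 0

theorem slackSys_feasible : D.slackSys.Q [] (List.range (m + n)) = D.feasible := by
  ext x
  constructor
  · rintro ⟨-, h⟩
    refine ⟨fun i => ?_, fun j => ?_⟩
    · have h1 := h i (List.mem_range.2 (by omega))
      simp only [slackSys, i.2, dif_pos] at h1
      unfold row at h1
      linarith
    · have h1 := h (m + j) (List.mem_range.2 (by omega))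
      have h2 : ¬ (m + (j : ℕ) < m) := by omega
      have h3 : m + (j : ℕ) - m < n := by omega
      simp only [slackSys, h2, dif_neg, not_false_iff, h3, dif_pos] at h1
      have h4 : (⟨m + (j : ℕ) - m, h3⟩ : Fin n) = j := Fin.ext (by simp)
      rw [h4] at h1
      exact h1
  · rintro ⟨h1, h2⟩
    refine ⟨fun i hi => by simp at hi, fun i _ => ?_⟩
    show 0 ≤ D.slackSys.sl i x
    simp only [slackSys]
    split_ifs with h h'
    · have := h1 ⟨i, h⟩
      unfold row
      linarith
    · exact h2 _
    · exact le_rfl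

/-- At a vertex the tight constraints have full rank. -/
theorem vertex_rank {x : Fin n → ℝ} (hx : D.Vertex x) {q : Fin n → ℝ}
    (h1 : ∀ i, D.row i x = D.b i → D.row i q = 0) (h2 : ∀ j, x j = 0 → q j = 0) : q = 0 := by
  have hv : D.slackSys.Vx (fun i => i < m + n) x := by
    apply Sys.vx_of_extreme
    rw [slackSys_feasible]
    exact hx
  refine hv q fun i hi h0 => ?_
  simp only [slackSys] at h0 ⊢
  split_ifs at h0 ⊢ with h h'
  · rw [LinearMap.neg_apply, rowL_apply, h1 _ (by linarith), neg_zero]
  · exact h2 _ h0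
  · simp

/-! ### Counting -/

theorem card_le_of_inj {ι κ : Type*} [Fintype ι] [Fintype κ] (Ψ : (ι → ℝ) →ₗ[ℝ] (κ → ℝ))
    (h : ∀ u, Ψ u = 0 → u = 0) : Fintype.card ι ≤ Fintype.card κ := by
  have h1 : Function.Injective Ψ := by
    rw [← LinearMap.ker_eq_bot, LinearMap.ker_eq_bot']
    exact h
  have := LinearMap.finrank_le_finrank_of_injective h1
  rwa [Module.finrank_fintype_fun_eq_card, Module.finrank_fintype_fun_eq_card] at this

theorem finrank_le_of_inj {κ : Type*} [Fintype κ] (V : Submodule ℝ (Fin n → ℝ))
    (Φ : (Fin n → ℝ) →ₗ[ℝ] (κ → ℝ)) (h : ∀ q ∈ V, Φ q = 0 → q = 0) :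
    Module.finrank ℝ V ≤ Fintype.card κ := by
  have h1 : Function.Injective (Φ.comp V.subtype) := by
    rw [← LinearMap.ker_eq_bot, LinearMap.ker_eq_bot']
    intro q hq
    exact Subtype.ext (h q.1 q.2 hq)
  have := LinearMap.finrank_le_finrank_of_injective h1
  rwa [Module.finrank_fintype_fun_eq_card] at this

/-- extension by a factor -/
noncomputable def extL {ι : Type*} (e : Fin n → Option ι) (y : Fin n → ℝ) :
    (ι → ℝ) →ₗ[ℝ] (Fin n → ℝ) where
  toFun t j := (e j).elim 0 fun k => t k * y j
  map_add' s t := by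
    funext j
    simp only [Pi.add_apply]
    cases e j with
    | none => simp
    | some k => simp only [Option.elim_some]; ring
  map_smul' c t := by
    funext j
    simp only [Pi.smul_apply, smul_eq_mul, RingHom.id_apply]
    cases e j with
    | none => simp
    | some k => simp only [Option.elim_some]; ring

theorem extL_apply {ι : Type*} (e : Fin n → Option ι) (y : Fin n → ℝ) (t : ι → ℝ) (j : Fin n) :
    extL e y t j = (e j).elim 0 fun k => t k * y j := rfl

/-- restriction to a set of coordinates -/
noncomputable def resL (P : Fin n → Prop) [DecidablePred P] :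
    (Fin n → ℝ) →ₗ[ℝ] (Fin n → ℝ) where
  toFun q j := if P j then q j else 0
  map_add' p q := by
    funext j
    simp only [Pi.add_apply]
    split_ifs <;> simp
  map_smul' c q := by
    funext j
    simp only [Pi.smul_apply, smul_eq_mul, RingHom.id_apply]
    split_ifs <;> simp

theorem resL_apply (P : Fin n → Prop) [DecidablePred P] (q : Fin n → ℝ) (j : Fin n) :
    resL P q j = if P j then q j else 0 := rfl

/-- A set of coordinates is small if vectors supported on it are determined by few linear
forms. -/
theorem card_le_of_supp {κ : Type*} [Fintype κ] (T : Finset (Fin n))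
    (Φ : (Fin n → ℝ) →ₗ[ℝ] (κ → ℝ)) (h : ∀ u, (∀ j ∉ T, u j = 0) → Φ u = 0 → u = 0) :
    T.card ≤ Fintype.card κ := by
  classical
  set e : Fin n → Option T := fun j => if h : j ∈ T then some ⟨j, h⟩ else none with he
  have h1 := card_le_of_inj (ι := T) (Φ.comp (extL e (fun _ => 1))) (fun u hu => by
    have h2 : extL e (fun _ => 1) u = 0 := by
      refine h _ (fun j hj => ?_) hu
      have : e j = none := by simp only [he, hj, dif_neg, not_false_iff]
      rw [extL_apply, this, Option.elim_none]
    funext k
    have h3 := congrFun h2 k.1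
    have h5 : e k.1 = some k := by simp only [he, k.2, dif_pos]
    rw [extL_apply, h5, Option.elim_some] at h3
    simpa using h3)
  rwa [Fintype.card_coe] at h1

/-- the rows as a linear map -/
noncomputable def rowsL {κ : Type*} (ρ : κ → Fin m) : (Fin n → ℝ) →ₗ[ℝ] (κ → ℝ) :=
  LinearMap.pi fun k => D.rowL (ρ k)

theorem rowsL_apply {κ : Type*} (ρ : κ → Fin m) (q : Fin n → ℝ) (k : κ) :
    D.rowsL ρ q k = D.row (ρ k) q := rfl

theorem row_congr {i : Fin m} {p q : Fin n → ℝ} (h : ∀ j, D.A i j ≠ 0 → p j = q j) :
    D.row i p = D.row i q := by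
  unfold row
  refine Finset.sum_congr rfl fun j _ => ?_
  by_cases h0 : D.A i j = 0
  · rw [h0]; simp
  · rw [h j h0]

theorem row_zero {i : Fin m} {q : Fin n → ℝ} (h : ∀ j, D.A i j ≠ 0 → q j = 0) :
    D.row i q = 0 := by
  have := D.row_congr (i := i) (p := q) (q := 0) h
  rw [this]
  unfold row
  simp

/-! ### Blocks -/

/-- every row outside `R` involves a single block, or no block of `F` -/
def RowsOk (D : QLP m n) (R : Finset (Fin m)) (f : Fin n → ℕ) (F : Finset ℕ) : Prop :=
  ∀ i ∉ R, (∃ k, ∀ j, D.A i j ≠ 0 → f j = k) ∨ ∀ j, D.A i j ≠ 0 → f j ∉ F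

section

variable {D} {R : Finset (Fin m)} {f : Fin n → ℕ}

/-- the number of blocks used by an elementary vector -/
theorem card_touched {y : Fin n → ℝ} (hel : D.Elementary y) {j0 : Fin n} (hj0 : y j0 ≠ 0)
    (hRo : RowsOk D R f ((Finset.univ.filter fun j => y j ≠ 0).image f)) :
    ((Finset.univ.filter fun j => y j ≠ 0).image f).card ≤ R.card + 1 := by
  classical
  set T : Finset ℕ := (Finset.univ.filter fun j => y j ≠ 0).image f with hT
  have hTmem : ∀ j, y j ≠ 0 → f j ∈ T := fun j hj =>
    Finset.mem_image.2 ⟨j, Finset.mem_filter.2 ⟨Finset.mem_univ _, hj⟩, rfl⟩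
  set e : Fin n → Option T := fun j => if h : f j ∈ T then some ⟨f j, h⟩ else none with he
  have hes : ∀ j (h : f j ∈ T), e j = some ⟨f j, h⟩ := fun j h => by
    simp only [he, h, dif_pos]
  have hen : ∀ j, f j ∉ T → e j = none := fun j h => by
    simp only [he, h, dif_neg, not_false_iff]
  let Ψ : (T → ℝ) →ₗ[ℝ] (Option R → ℝ) := LinearMap.pi fun o => match o with
    | some i => (D.rowL i.1).comp (extL e y)
    | none => LinearMap.proj ⟨f j0, hTmem j0 hj0⟩
  have hcard := card_le_of_inj Ψ (fun t ht => by
    have hrow : ∀ i ∈ R, D.row i (extL e y t) = 0 := fun i hi => congrFun ht (some ⟨i, hi⟩)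
    have ht0 : t ⟨f j0, hTmem j0 hj0⟩ = 0 := congrFun ht none
    have hval : ∀ j (h : f j ∈ T), extL e y t j = t ⟨f j, h⟩ * y j := fun j h => by
      rw [extL_apply, hes j h, Option.elim_some]
    have hval0 : ∀ j, f j ∉ T → extL e y t j = 0 := fun j h => by
      rw [extL_apply, hen j h, Option.elim_none]
    obtain ⟨τ, hτ⟩ := hel (extL e y t) (fun i hi => by
      by_cases hiR : i ∈ R
      · exact hrow i hiR
      · rcases hRo i hiR with ⟨k, hk⟩ | hk
        · by_cases hkT : k ∈ T
          · have h1 : D.row i (extL e y t) = D.row i (t ⟨k, hkT⟩ • y) := by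
              refine D.row_congr fun j hj => ?_
              have h2 := hk j hj
              have h3 : f j ∈ T := by rw [h2]; exact hkT
              rw [hval j h3, Pi.smul_apply, smul_eq_mul]
              congr 2
              exact Subtype.ext h2
            rw [h1, ← rowL_apply, map_smul, rowL_apply, hi, smul_zero]
          · exact D.row_zero fun j hj => hval0 j (by rw [hk j hj]; exact hkT)
        · exact D.row_zero fun j hj => hval0 j (hk j hj)) (fun j hj => by
      by_cases h : f j ∈ T
      · rw [hval j h, hj, mul_zero]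
      · exact hval0 j h)
    have hτj : ∀ j (h : f j ∈ T), y j ≠ 0 → t ⟨f j, h⟩ = τ := fun j h hy => by
      have h1 := congrFun hτ j
      rw [hval j h, Pi.smul_apply, smul_eq_mul] at h1
      exact mul_right_cancel₀ hy h1
    have hτ0 : τ = 0 := by rw [← hτj j0 (hTmem j0 hj0) hj0, ht0]
    funext k
    obtain ⟨j, hj, hk⟩ := Finset.mem_image.1 k.2
    have hy := (Finset.mem_filter.1 hj).2
    have h1 := hτj j (hTmem j hy) hy
    rw [hτ0] at h1
    have h2 : k = ⟨f j, hTmem j hy⟩ := Subtype.ext hk.symm
    rw [h2, h1]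
    rfl)
  rw [Fintype.card_coe, Fintype.card_option, Fintype.card_coe] at hcard
  exact hcard

/-- the number of further blocks in which the face is not a point -/
theorem card_loose {x y : Fin n → ℝ} (hx : D.Vertex x) {U : Finset ℕ}
    (hRo : RowsOk D R f U) (hUy : ∀ j, f j ∈ U → y j = 0)
    (hU : ∀ k ∈ U, ∃ q ∈ D.faceDirs x y, ∃ j, f j = k ∧ q j ≠ 0) : U.card ≤ R.card := by
  classical
  have hch : ∀ k : U, ∃ q ∈ D.faceDirs x y, ∃ j, f j = k.1 ∧ q j ≠ 0 := fun k => hU k.1 k.2
  choose qs hqs hqj using hch
  set e : Fin n → Option U := fun j => if h : f j ∈ U then some ⟨f j, h⟩ else none with he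
  have hes : ∀ j (h : f j ∈ U), e j = some ⟨f j, h⟩ := fun j h => by
    simp only [he, h, dif_pos]
  have hen : ∀ j, f j ∉ U → e j = none := fun j h => by
    simp only [he, h, dif_neg, not_false_iff]
  set p : Fin n → ℝ := fun j => if h : f j ∈ U then qs ⟨f j, h⟩ j else 0 with hp
  have hps : ∀ j (h : f j ∈ U), p j = qs ⟨f j, h⟩ j := fun j h => by
    simp only [hp, h, dif_pos]
  let Ψ : (U → ℝ) →ₗ[ℝ] (R → ℝ) := LinearMap.pi fun i => (D.rowL i.1).comp (extL e p)
  have hcard := card_le_of_inj Ψ (fun t ht => by
    have hrow : ∀ i ∈ R, D.row i (extL e p t) = 0 := fun i hi => congrFun ht ⟨i, hi⟩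
    have hval : ∀ j (h : f j ∈ U), extL e p t j = t ⟨f j, h⟩ * qs ⟨f j, h⟩ j := fun j h => by
      rw [extL_apply, hes j h, Option.elim_some, hps j h]
    have hval0 : ∀ j, f j ∉ U → extL e p t j = 0 := fun j h => by
      rw [extL_apply, hen j h, Option.elim_none]
    have hzero : extL e p t = 0 := by
      refine D.vertex_rank hx (fun i hi => ?_) (fun j hj => ?_)
      · by_cases hiR : i ∈ R
        · exact hrow i hiR
        · rcases hRo i hiR with ⟨k, hk⟩ | hk
          · by_cases hkU : k ∈ U
            · have h1 : D.row i (extL e p t) = D.row i (t ⟨k, hkU⟩ • qs ⟨k, hkU⟩) := by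
                refine D.row_congr fun j hj => ?_
                have h2 := hk j hj
                have h3 : f j ∈ U := by rw [h2]; exact hkU
                have h4 : (⟨f j, h3⟩ : U) = ⟨k, hkU⟩ := Subtype.ext h2
                rw [hval j h3, Pi.smul_apply, smul_eq_mul, h4]
              have h5 : D.row i y = 0 := D.row_zero fun j hj => hUy j (by
                rw [hk j hj]; exact hkU)
              rw [h1, ← rowL_apply, map_smul, rowL_apply, (hqs ⟨k, hkU⟩).1 i hi h5, smul_zero]
            · exact D.row_zero fun j hj => hval0 j (by rw [hk j hj]; exact hkU)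
          · exact D.row_zero fun j hj => hval0 j (hk j hj)
      · by_cases h : f j ∈ U
        · rw [hval j h, (hqs ⟨f j, h⟩).2 j hj (hUy j h), mul_zero]
        · exact hval0 j h
    funext k
    obtain ⟨j, hj, hne⟩ := hqj k
    have hjU : f j ∈ U := by rw [hj]; exact k.2
    have h1 := congrFun hzero j
    have h2 : (⟨f j, hjU⟩ : U) = k := Subtype.ext hj
    rw [hval j hjU, h2] at h1
    exact (mul_eq_zero.1 h1).resolve_right hne)
  rw [Fintype.card_coe, Fintype.card_coe] at hcard
  exact hcard

/-- support of a vertex in a set of variables touched by few rows -/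
theorem card_suppX {x : Fin n → ℝ} (hx : D.Vertex x) {W : Finset (Fin n)}
    (hW : ∀ i ∉ R, ∀ j ∈ W, D.A i j = 0) :
    (W.filter fun j => x j ≠ 0).card ≤ R.card := by
  classical
  have h := card_le_of_supp (W.filter fun j => x j ≠ 0) (D.rowsL (fun i : R => i.1))
    (fun u hu h0 => by
      refine D.vertex_rank hx (fun i _ => ?_) fun j hj => hu j fun h =>
        (Finset.mem_filter.1 h).2 hj
      by_cases hiR : i ∈ R
      · exact congrFun h0 ⟨i, hiR⟩
      · refine D.row_zero fun j hj => hu j fun h => hj ?_
        exact hW i hiR j (Finset.mem_filter.1 h).1)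
  rwa [Fintype.card_coe] at h

/-- support of an elementary vector in a set of variables touched by few rows -/
theorem card_suppY {y : Fin n → ℝ} (hel : D.Elementary y) {W : Finset (Fin n)}
    (hW : ∀ i ∉ R, ∀ j ∈ W, D.A i j = 0) :
    (W.filter fun j => y j ≠ 0).card ≤ R.card + 1 := by
  classical
  rcases (W.filter fun j => y j ≠ 0).eq_empty_or_nonempty with h | ⟨j1, hj1⟩
  · rw [h]; simp
  · let Φ : (Fin n → ℝ) →ₗ[ℝ] (Option R → ℝ) := LinearMap.pi fun o => match o with
      | some k => D.rowL k.1
      | none => LinearMap.proj j1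
    have h1 := card_le_of_supp (W.filter fun j => y j ≠ 0) Φ
      (fun u hu h0 => by
        have h4 : u j1 = 0 := congrFun h0 none
        obtain ⟨τ, hτ⟩ := hel u (fun i _ => by
          by_cases hiR : i ∈ R
          · exact congrFun h0 (some ⟨i, hiR⟩)
          · refine D.row_zero fun j hj => hu j fun h => hj ?_
            exact hW i hiR j (Finset.mem_filter.1 h).1) fun j hj => hu j fun h =>
              (Finset.mem_filter.1 h).2 hj
        have hy1 := (Finset.mem_filter.1 hj1).2
        rw [hτ, Pi.smul_apply, smul_eq_mul] at h4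
        rw [hτ, (mul_eq_zero.1 h4).resolve_right hy1, zero_smul])
    rwa [Fintype.card_option, Fintype.card_coe] at h1

end

/-- counting by fibres -/
theorem card_fibres {ι : Type*} [Fintype ι] [DecidableEq ι] {P : ι → Prop} [DecidablePred P]
    {f : ι → ℕ} {s : ℕ} {F : Finset ℕ}
    (hF : ∀ k ∈ F, (Finset.univ.filter fun j => P j ∧ f j = k).card ≤ s) :
    (Finset.univ.filter fun j => P j ∧ f j ∈ F).card ≤ s * F.card := by
  have h1 : (Finset.univ.filter fun j => P j ∧ f j ∈ F) =
      F.biUnion fun k => Finset.univ.filter fun j => P j ∧ f j = k := by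
    ext j
    simp only [Finset.mem_filter, Finset.mem_univ, true_and, Finset.mem_biUnion]
    constructor
    · rintro ⟨h, h'⟩; exact ⟨f j, h', h, rfl⟩
    · rintro ⟨k, h1, h2, h3⟩; exact ⟨h2, by rw [h3]; exact h1⟩
  rw [h1, mul_comm]
  exact Finset.card_biUnion_le_card_mul _ _ _ hF

/-! ### Nested block structure -/

variable {D}

/-- **The circuit width of programs with nested block structure.** -/
theorem Nested.width {rs : List ℕ} {s t : ℕ} (h : D.Nested rs s t) :
    D.Width (branch rs * (2 * s + 1)) (branch rs * (3 * s + t + 2)) := by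
  classical
  obtain ⟨f, lv, g, href, hlv, hfg, hrs, hblk⟩ := h
  intro x y hx _ hpos hel
  obtain ⟨j0, hj0⟩ : ∃ j0, y j0 ≠ 0 := by
    by_contra hcon
    push Not at hcon
    have : D.obj y = 0 := by
      unfold obj
      exact Finset.sum_eq_zero fun j _ => by rw [hcon j, mul_zero]
    rw [this] at hpos
    exact lt_irrefl _ hpos
  have href' : ∀ {l l'}, l ≤ l' → ∀ {j j'}, f l' j = f l' j' → f l j = f l j' := by
    intro l l' hl
    induction l', hl using Nat.le_induction with
    | base => intro j j' h; exact h
    | succ l' _ ih => intro j j' h; exact ih (href _ _ _ h)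
  -- alive variables and alive blocks
  set Vs : Finset (Fin n) := Finset.univ.filter fun j => ∃ q ∈ D.faceDirs x y, q j ≠ 0 with hVs
  have hVmem : ∀ q ∈ D.faceDirs x y, ∀ j, q j ≠ 0 → j ∈ Vs := fun q hq j hj =>
    Finset.mem_filter.2 ⟨Finset.mem_univ _, q, hq, hj⟩
  have hyV : y ∈ D.faceDirs x y := ⟨fun i _ h => h, fun j _ h => h⟩
  set Al : ℕ → Finset ℕ := fun l => Vs.image (f l) with hAl
  have hAlmem : ∀ l, ∀ j ∈ Vs, f l j ∈ Al l := fun l j hj => Finset.mem_image.2 ⟨j, hj, rfl⟩
  -- linking rows above level `l`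
  set Rw : ℕ → Finset (Fin m) := fun l =>
    Finset.univ.filter fun i => lv i < l ∧ g i ∈ Al (lv i) with hRw
  have hRok : ∀ l, ∀ F ⊆ Al l, RowsOk D (Rw l) (f l) F := by
    intro l F hF i hi
    rcases Nat.lt_or_ge (lv i) l with h1 | h1
    · right
      intro j hj hjF
      apply hi
      refine Finset.mem_filter.2 ⟨Finset.mem_univ _, h1, ?_⟩
      obtain ⟨j', hj', he⟩ := Finset.mem_image.1 (hF hjF)
      rw [← hfg i j hj, ← href' h1.le he]
      exact hAlmem _ j' hj'
    · left
      by_cases hex : ∃ j1, D.A i j1 ≠ 0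
      · obtain ⟨j1, hj1⟩ := hex
        exact ⟨f l j1, fun j hj => href' h1 (by rw [hfg i j hj, hfg i j1 hj1])⟩
      · push Not at hex
        exact ⟨0, fun j hj => absurd (hex j) hj⟩
  -- the number of alive blocks
  have hAcard : ∀ l, (Al l).card ≤ 2 * (Rw l).card + 1 := by
    intro l
    set T : Finset ℕ := (Finset.univ.filter fun j => y j ≠ 0).image (f l) with hT
    have hTA : T ⊆ Al l := by
      intro k hk
      obtain ⟨j, hj, hjk⟩ := Finset.mem_image.1 hk
      rw [← hjk]
      exact hAlmem l j (hVmem y hyV j (Finset.mem_filter.1 hj).2)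
    have h1 : T.card ≤ (Rw l).card + 1 := card_touched hel hj0 (hRok l T hTA)
    have h2 : (Al l \ T).card ≤ (Rw l).card := by
      refine card_loose (y := y) hx (hRok l _ Finset.sdiff_subset) (fun j hj => ?_)
        fun k hk => ?_
      · by_contra hne
        exact (Finset.mem_sdiff.1 hj).2 (Finset.mem_image.2
          ⟨j, Finset.mem_filter.2 ⟨Finset.mem_univ _, hne⟩, rfl⟩)
      · obtain ⟨j, hj, hjk⟩ := Finset.mem_image.1 (Finset.mem_sdiff.1 hk).1
        obtain ⟨q, hq, hne⟩ := (Finset.mem_filter.1 hj).2
        exact ⟨q, hq, j, hjk, hne⟩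
    have h3 : (Al l).card ≤ (Al l \ T).card + T.card := by
      refine (Finset.card_le_card (fun k hk => ?_ : Al l ⊆ (Al l \ T) ∪ T)).trans
        (Finset.card_union_le _ _)
      by_cases h : k ∈ T
      · exact Finset.mem_union_right _ h
      · exact Finset.mem_union_left _ (Finset.mem_sdiff.2 ⟨hk, h⟩)
    omega
  -- the number of linking rows
  have hRcard : ∀ l ≤ rs.length, 2 * (Rw l).card + 1 ≤ branch (rs.take l) := by
    intro l
    induction l with
    | zero =>
      intro _
      have : Rw 0 = ∅ := by
        rw [hRw]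
        exact Finset.filter_false_of_mem fun i _ h => Nat.not_lt_zero _ h.1
      rw [this]
      simp [branch]
    | succ l ih =>
      intro hl
      have h1 := ih (by omega)
      have h2 : (Rw (l + 1)).card ≤ (Rw l).card + rs.getD l 0 * (Al l).card := by
        have h3 : Rw (l + 1) ⊆ Rw l ∪ Finset.univ.filter fun i => lv i = l ∧ g i ∈ Al l := by
          intro i hi
          obtain ⟨-, h4, h5⟩ := Finset.mem_filter.1 hi
          rcases Nat.lt_or_ge (lv i) l with h6 | h6
          · exact Finset.mem_union_left _ (Finset.mem_filter.2 ⟨Finset.mem_univ _, h6, h5⟩)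
          · have h7 : lv i = l := by omega
            refine Finset.mem_union_right _ (Finset.mem_filter.2 ⟨Finset.mem_univ _, h7, ?_⟩)
            rw [h7] at h5
            exact h5
        refine (Finset.card_le_card h3).trans ((Finset.card_union_le _ _).trans ?_)
        exact Nat.add_le_add_left (card_fibres fun k _ => hrs l (by omega) k) _
      have h3 : branch (rs.take (l + 1)) = branch (rs.take l) * (2 * rs.getD l 0 + 1) := by
        unfold branch
        rw [List.take_succ_eq_append_getElem (by omega), List.map_append, List.prod_append]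
        simp only [List.map_cons, List.map_nil, List.prod_cons, List.prod_nil, mul_one]
        rw [List.getD_eq_getElem _ _ (by omega)]
      rw [h3]
      have h4 := hAcard l
      have h5 : rs.getD l 0 * (Al l).card ≤ rs.getD l 0 * (2 * (Rw l).card + 1) :=
        Nat.mul_le_mul_left _ h4
      have h6 : (2 * (Rw l).card + 1) * (2 * rs.getD l 0 + 1) ≤
          branch (rs.take l) * (2 * rs.getD l 0 + 1) := Nat.mul_le_mul_right _ h1
      nlinarith
  set h := rs.length with hh
  have hB : 2 * (Rw h).card + 1 ≤ branch rs := by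
    have := hRcard h le_rfl
    rwa [List.take_of_length_le (by omega)] at this
  have hAB : (Al h).card ≤ branch rs := (hAcard h).trans hB
  -- alive variables
  have hvars : Vs.card ≤ branch rs * (2 * s + 1) := by
    set F : Finset ℕ := (Al h).filter fun k =>
      (Finset.univ.filter fun i => lv i = h ∧ g i = k).card ≤ s with hF
    have hFA : F ⊆ Al h := Finset.filter_subset _ _
    have hFrow : ∀ k ∈ F, (Finset.univ.filter fun i => lv i = h ∧ g i = k).card ≤ s :=
      fun k hk => (Finset.mem_filter.1 hk).2
    -- rows which involve the variables of the blocks of `F`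
    set RF : Finset (Fin m) := Rw h ∪ Finset.univ.filter fun i => lv i = h ∧ g i ∈ F with hRF
    have hRFcard : RF.card ≤ (Rw h).card + s * F.card :=
      (Finset.card_union_le _ _).trans (Nat.add_le_add_left (card_fibres hFrow) _)
    set W : Finset (Fin n) := Finset.univ.filter fun j => f h j ∈ F with hW
    have hWrow : ∀ i ∉ RF, ∀ j ∈ W, D.A i j = 0 := by
      intro i hi j hj
      by_contra hne
      apply hi
      have hjF := (Finset.mem_filter.1 hj).2
      rcases Nat.lt_or_ge (lv i) h with h1 | h1
      · refine Finset.mem_union_left _ (Finset.mem_filter.2 ⟨Finset.mem_univ _, h1, ?_⟩)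
        obtain ⟨j', hj', he⟩ := Finset.mem_image.1 (hFA hjF)
        rw [← hfg i j hne, ← href' h1.le he]
        exact hAlmem _ j' hj'
      · have h2 : lv i = h := le_antisymm (hlv i) h1
        refine Finset.mem_union_right _ (Finset.mem_filter.2 ⟨Finset.mem_univ _, h2, ?_⟩)
        rw [← hfg i j hne, h2]
        exact hjF
    have hBcard := card_suppX hx hWrow
    have hCcard := card_suppY hel hWrow
    have hGcard : (Finset.univ.filter fun j => True ∧ f h j ∈ Al h \ F).card ≤
        s * (Al h \ F).card := by
      refine card_fibres fun k hk => ?_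
      rcases hblk k with h2 | h2
      · exact absurd (Finset.mem_filter.2 ⟨(Finset.mem_sdiff.1 hk).1, h2⟩)
          (Finset.mem_sdiff.1 hk).2
      · simpa using h2.1
    have hTF : (Al h \ F).card + F.card = (Al h).card := by
      rw [Finset.card_sdiff_of_subset hFA]
      have := Finset.card_le_card hFA
      omega
    have hsub : Vs ⊆ (Finset.univ.filter fun j => True ∧ f h j ∈ Al h \ F) ∪
        ((W.filter fun j => x j ≠ 0) ∪ (W.filter fun j => y j ≠ 0)) := by
      intro j hj
      have hjA : f h j ∈ Al h := hAlmem h j hj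
      by_cases hjF : f h j ∈ F
      · have hjW : j ∈ W := Finset.mem_filter.2 ⟨Finset.mem_univ _, hjF⟩
        refine Finset.mem_union_right _ ?_
        by_cases hxj : x j = 0
        · by_cases hyj : y j = 0
          · obtain ⟨q, hq, hne⟩ := (Finset.mem_filter.1 hj).2
            exact absurd (hq.2 j hxj hyj) hne
          · exact Finset.mem_union_right _ (Finset.mem_filter.2 ⟨hjW, hyj⟩)
        · exact Finset.mem_union_left _ (Finset.mem_filter.2 ⟨hjW, hxj⟩)
      · exact Finset.mem_union_left _ (Finset.mem_filter.2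
          ⟨Finset.mem_univ _, trivial, Finset.mem_sdiff.2 ⟨hjA, hjF⟩⟩)
    have h3 := (Finset.card_le_card hsub).trans (Finset.card_union_le _ _)
    have h4 := Finset.card_union_le (W.filter fun j => x j ≠ 0) (W.filter fun j => y j ≠ 0)
    have h5 : s * (Al h \ F).card + (2 * (s * F.card)) ≤ 2 * s * (Al h).card := by
      rw [← hTF]
      have : s * (Al h \ F).card ≤ 2 * s * (Al h \ F).card := by nlinarith
      nlinarith
    have h6 : 2 * s * (Al h).card ≤ 2 * s * branch rs := Nat.mul_le_mul_left _ hAB
    have h7 : branch rs * (2 * s + 1) = 2 * s * branch rs + branch rs := by ring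
    rw [h7]
    omega
  constructor
  · -- the dimension
    refine le_trans ?_ hvars
    have := finrank_le_of_inj (D.faceDirs x y) (LinearMap.pi fun j : Vs => LinearMap.proj j.1)
      (fun q hq h0 => by
        funext j
        by_contra hne
        exact hne (congrFun h0 ⟨j, hVmem q hq j hne⟩))
    rwa [Fintype.card_coe] at this
  · -- the number of constraints
    have hrows : Set.ncard {i | ∃ q ∈ D.faceDirs x y, D.row i q ≠ 0} ≤
        (Rw h).card + (s + t) * branch rs := by
      have h1 : {i | ∃ q ∈ D.faceDirs x y, D.row i q ≠ 0} ⊆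
          ((Rw h ∪ Finset.univ.filter fun i => lv i = h ∧ g i ∈ Al h : Finset (Fin m)) :
            Set (Fin m)) := by
        rintro i ⟨q, hq, hne⟩
        rw [Finset.mem_coe, Finset.mem_union]
        obtain ⟨j, hj, hqj⟩ : ∃ j, D.A i j ≠ 0 ∧ q j ≠ 0 := by
          by_contra hcon
          push Not at hcon
          exact hne (D.row_zero hcon)
        have hjV := hVmem q hq j hqj
        have hg : g i ∈ Al (lv i) := by
          rw [← hfg i j hj]
          exact hAlmem _ j hjV
        rcases (hlv i).lt_or_eq with h2 | h2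
        · exact Or.inl (Finset.mem_filter.2 ⟨Finset.mem_univ _, h2, hg⟩)
        · refine Or.inr (Finset.mem_filter.2 ⟨Finset.mem_univ _, h2, ?_⟩)
          rw [h2] at hg
          exact hg
      refine (Set.ncard_le_ncard h1 (Finset.finite_toSet _)).trans ?_
      rw [Set.ncard_coe_finset]
      refine (Finset.card_union_le _ _).trans (Nat.add_le_add_left ?_ _)
      refine (card_fibres (s := s + t) fun k _ => ?_).trans (Nat.mul_le_mul_left _ hAB)
      rcases hblk k with h3 | h3
      · omega
      · have := h3.2; omega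
    have hv : Set.ncard {j | ∃ q ∈ D.faceDirs x y, q j ≠ 0} ≤ branch rs * (2 * s + 1) := by
      have h1 : {j | ∃ q ∈ D.faceDirs x y, q j ≠ 0} = (Vs : Set (Fin n)) := by
        ext j
        rw [Finset.mem_coe, hVs, Finset.mem_filter]
        exact ⟨fun h => ⟨Finset.mem_univ _, h⟩, fun h => h.2⟩
      rw [h1, Set.ncard_coe_finset]
      exact hvars
    calc _ ≤ ((Rw h).card + (s + t) * branch rs) + branch rs * (2 * s + 1) :=
          Nat.add_le_add hrows hv
      _ ≤ branch rs * (3 * s + t + 2) := by nlinarith

end Pool.Agent.Simplex.QLP
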