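import Pool.Agent.Lib.MP_4d246d_lc.QP.Final
import Pool.Agent.Lib.MP_4d246d_lc.QP.RootFace

/-!
# Macro steps

At the current vertex `p` we look at an optimal point `w` of the program, choose an elementary
vector `y` that is conformal to `w - p` and gives at least the `1 / M`-th part of the gap, and run
the quasi-polynomial rule in the smallest face containing `p` and `p + y`.  If the objective is
unbounded, `y` is an elementary recession direction instead.
-/

namespace Pool.Agent.Simplex.QP

open Pool.Agent.Lib.PolyTime

/-- integer slack of the constraint `i` at `p` (the slack times the denominator) -/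
def slZ (D : Sta) (p : Pnt) (i : ℕ) : ℤ :=
  (rowOf D i).2 * dn p.2 - dotZ (padZ D.1 (rowOf D i).1) p.1

/-- a positive multiple of the change of the left-hand side of constraint `i` from `p` to `w` -/
def gapZ (D : Sta) (p w : Pnt) (i : ℕ) : ℤ := slZ D p i * dn w.2 - slZ D w i * dn p.2

/-- the changes of the left-hand sides towards an optimal point; `-1` for an unbounded program -/
def gvec (D : Sta) (p : Pnt) : List ℤ :=
  match lpZ D [] (List.range D.2.1.length) with
  | .opt w => (List.range D.2.1.length).map (gapZ D p w)
  | _ => (List.range D.2.1.length).map (fun _ => -1)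

/-- a common multiple of the nonzero entries -/
def cmZ (g : List ℤ) : ℤ := (g.map (fun a => if a = 0 then 1 else |a|)).prod

/-- the program for the direction: maximise the objective over the vectors conformal to `g`,
normalised -/
def macD (D : Sta) (g : List ℤ) : Sta :=
  (D.1,
    (List.range D.2.1.length).map (fun i =>
      (if 0 < g.getD i 0 then negZ (rowOf D i).1 else (rowOf D i).1, (0 : ℤ))) ++
    ((List.range D.2.1.length).map (fun i =>
      (if g.getD i 0 < 0 then (rowOf D i).1 else negZ (rowOf D i).1, (0 : ℤ))) ++
    [((List.range D.1).map (fun j => dotZ (g.map (fun a => cmZ g / a))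
      (D.2.1.map (fun r => r.1.getD j 0))), cmZ g)]),
    D.2.2)

/-- the direction -/
def dirY (D : Sta) (p : Pnt) : Pnt :=
  match lpZ (macD D (gvec D p)) (targetJ (orc (macD D (gvec D p))) vleZ)
    (List.range (macD D (gvec D p)).2.1.length) with
  | .opt y => y
  | _ => ([], 1)

/-- the constraints tight at `p` and constant in direction `y` -/
def faceJ (D : Sta) (p y : Pnt) : List ℕ :=
  (List.range D.2.1.length).filter
    (fun i => ttZ D p i && decide (dotZ (padZ D.1 (rowOf D i).1) y.1 = 0))

/-- the frame of the face given by `J` -/
def frameOf (D : Sta) (J : List ℕ) : Frame :=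
  (J, (List.range D.2.1.length).filter (fun j => !depO D J j), [])

/-- a new macro step -/
def startZ (D : Sta) (p : Pnt) : St Pnt :=
  (p, [frameOf D (faceJ D p (dirY D p))], .running)

/-- is `p` optimal for the whole program? -/
def topZ (D : Sta) (p : Pnt) : Bool :=
  match lpZ D [] (List.range D.2.1.length) with
  | .opt w => vleZ (objZ D w) (objZ D p)
  | _ => false

/-- one pivot of the rule with macro steps -/
def nextM (D : Sta) (s : St Pnt) : St Pnt :=
  if (next (orc D) vleZ s).2.2 = .optimal ∧ topZ D (next (orc D) vleZ s).1 = false then
    next (orc D) vleZ (startZ D (next (orc D) vleZ s).1)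
  else next (orc D) vleZ s

/-- the bound on the number of pivots of the rule without macro steps, plus one -/
def limZ (D : Sta) : ℤ :=
  (bd (D.2.1.length - D.1) D.1 : ℕ) + 1

/-- states: data, number of pivots made, limit for the rule with macro steps, state -/
abbrev Sb : Type := Sta × (ℤ × ℤ) × St Pnt

/-- start the rule without macro steps at the current vertex -/
def restart (D : Sta) (s : St Pnt) : St Pnt :=
  if s.2.2 = .running then initS (orc D) vleZ s.1 else s

/-- one pivot of the combined rule -/
def nextB (s : Sb) : Sb :=
  (s.1, (if s.2.1.1 ≤ s.2.1.2 then s.2.1.1 + 1 else s.2.1.1, s.2.1.2),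
    if s.2.1.1 < s.2.1.2 then nextM s.1 s.2.2
    else if s.2.1.1 = s.2.1.2 then next (orc s.1) vleZ (restart s.1 s.2.2)
    else next (orc s.1) vleZ s.2.2)

/-- initial state of the combined rule -/
def initB (I : Input) : Sb := (dat I, (0, limZ (dat I)), startZ (dat I) (pntOf I.data))

/-- the report of the combined rule -/
def reportB (s : Sb) : List ℚ × Verdict := (ratsOf s.2.2.1, verd (nextB s).2.2.2.2)

/-- the machine stops after this report -/
def haltB (s : Sb) : Bool := decide (verd (nextB s).2.2.2.2 ≠ .pivot)

end Pool.Agent.Simplex.QP
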