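import Pool.Agent.Lib.MP_4d246d_lc.QM.Machine

/-!
# Sizes of the states of the combined rule

All states of the rule with macro steps have polynomial size, and the numerators and denominators
of the points which occur are at most `2 ^ poly`.
-/

namespace Pool.Agent.Simplex.QP

open Pool.Agent.Lib.PolyTime

section

variable {Pt Vl : Type} {o : Orc Pt Vl} {vle : Vl → Vl → Bool}
variable {E : Type*} [AddCommGroup E] [Module ℝ E] {S : Sys E} {val : Pt → E}

/-- The frame of a face given by constraints tight at a vertex is good. -/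
theorem good_of_tight (ho : Spec o vle S val) {x : Pt} (hx : val x ∈ S.Q [] (List.range o.M))
    (hv : S.Vx (fun i => i < o.M) (val x)) {J : List ℕ} (hJM : ∀ j ∈ J, j < o.M)
    (hJ : ∀ j ∈ J, o.tt x j = true) :
    Good S o.M (val x) (J, (List.range o.M).filter (fun i => !o.dep J i), []) [] := by
  have hmem : ∀ i, i ∈ (List.range o.M).filter (fun i => !o.dep J i) ↔
      i < o.M ∧ ¬ S.Dep J i := by
    intro i
    rw [List.mem_filter, List.mem_range]
    constructor
    · rintro ⟨h1, h2⟩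
      refine ⟨h1, fun h3 => ?_⟩
      rw [(ho.dep _ _ hJM h1).2 h3] at h2
      simp at h2
    · rintro ⟨h1, h2⟩
      refine ⟨h1, ?_⟩
      cases h3 : o.dep J i with
      | false => rfl
      | true => exact absurd ((ho.dep _ _ hJM h1).1 h3) h2
  refine ⟨⟨rfl, fun i hi => ?_, fun i hi => ((hmem i).1 hi).1, hJM,
    List.nodup_range.filter _, fun i hi => ((hmem i).1 hi).2⟩, ⟨fun j hj => ?_, hx.2⟩, ?_⟩
  · by_cases hd : S.Dep J i
    · exact Or.inr hd
    · exact Or.inl ((hmem i).2 ⟨hi, hd⟩)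
  · exact (ho.tt x j (hJM j hj)).1 (hJ j hj)
  · intro q hq
    have hJq : ∀ j ∈ J, S.ln j q = 0 := fun j hj =>
      hq j (Or.inl hj) ((ho.tt x j (hJM j hj)).1 (hJ j hj))
    apply hv
    intro i hi hi0
    by_cases hd : S.Dep J i
    · exact hd q hJq
    · exact hq i (Or.inr ((hmem i).2 ⟨hi, hd⟩)) hi0

/-- The structural invariants of a state of the rule with macro steps. -/
structure InvM (o : Orc Pt Vl) (vle : Vl → Vl → Bool) (S : Sys E) (val : Pt → E)
    (p : Pt) (s : St Pt) : Prop where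
  inv : ∃ f₀, Inv o vle S val f₀ p s

theorem InvM.next [DecidableEq Pt] (ho : Spec o vle S val) {p : Pt} {s : St Pt}
    (h : InvM o vle S val p s) : InvM o vle S val p (next o vle s) := by
  obtain ⟨f₀, h⟩ := h
  exact ⟨f₀, h.runB ho _⟩

theorem InvM.pt {p : Pt} {s : St Pt} (h : InvM o vle S val p s) : PtOk o p s.1 := by
  obtain ⟨f₀, h⟩ := h
  exact h.pt

/-- The point of a state is a vertex. -/
theorem InvM.vertex {p : Pt} {s : St Pt} (h : InvM o vle S val p s) :
    val s.1 ∈ S.Q [] (List.range o.M) ∧ S.Vx (fun i => i < o.M) (val s.1) := by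
  obtain ⟨f₀, h⟩ := h
  have key : ∀ {x : Pt} {f : Frame} {r : List Frame}, Good S o.M (val x) f r →
      val x ∈ S.Q [] (List.range o.M) ∧ S.Vx (fun i => i < o.M) (val x) := fun hG =>
    ⟨⟨fun i hi => by simp at hi, hG.mem.2⟩, hG.vxM⟩
  cases h.good with
  | run x f r h1 h2 => exact key h1
  | opt x h1 h2 => exact key h1
  | unb x f r h1 h2 => exact key h1

/-- A restart in a face given by tight constraints. -/
theorem InvM.start {p x : Pt} (hp : PtOk o p x) {f : Frame}
    (hG : Good S o.M (val x) f []) (hlen : f.J.length ≤ o.M) :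
    InvM o vle S val p (x, [f], .running) := by
  refine ⟨f, GoodS.run _ _ _ hG rfl, ⟨⟨by simpa using hlen, ?_, ?_, hG.chain.basic.2.1,
    hG.chain.basic.1, ?_⟩, trivial⟩, hp⟩
  · simpa using hG.chain.depth
  · rw [hG.chain.1]; exact Nat.zero_le _
  · rw [hG.chain.1]; intro j hj; exact absurd hj List.not_mem_nil

end

section

variable {D : Sta} {E : Type*} [AddCommGroup E] [Module ℝ E] {S : Sys E} {val : Pnt → E}

theorem InvM.startZ (ho : Spec (orc D) vleZ S val) {p x : Pnt} (hp : PtOk (orc D) p x)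
    (hx : val x ∈ S.Q [] (List.range (orc D).M))
    (hv : S.Vx (fun i => i < (orc D).M) (val x)) :
    InvM (orc D) vleZ S val p (startZ D x) := by
  refine InvM.start hp (good_of_tight ho hx hv (fun j hj => ?_) fun j hj => ?_) ?_
  · exact List.mem_range.1 (List.mem_of_mem_filter hj)
  · have h := (List.mem_filter.1 hj).2
    rw [Bool.and_eq_true] at h
    exact h.1
  · refine (List.length_filter_le _ _).trans ?_
    rw [List.length_range]
    exact le_refl _

theorem InvM.initS (ho : Spec (orc D) vleZ S val) {p x : Pnt} (hp : PtOk (orc D) p x)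
    (hx : val x ∈ S.Q [] (List.range (orc D).M))
    (hv : S.Vx (fun i => i < (orc D).M) (val x)) :
    InvM (orc D) vleZ S val p (initS (orc D) vleZ x) :=
  InvM.start hp (rootF_good (vle := vleZ) ho hx hv) (length_rootJ_le _ _ _)

theorem InvM.nextM (ho : Spec (orc D) vleZ S val) {p : Pnt} {s : St Pnt}
    (h : InvM (orc D) vleZ S val p s) : InvM (orc D) vleZ S val p (nextM D s) := by
  unfold Pool.Agent.Simplex.QP.nextM
  have h1 := h.next ho
  split_ifs with hc
  · exact (InvM.startZ ho h1.pt h1.vertex.1 h1.vertex.2).next ho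
  · exact h1

theorem InvM.restart (ho : Spec (orc D) vleZ S val) {p : Pnt} {s : St Pnt}
    (h : InvM (orc D) vleZ S val p s) : InvM (orc D) vleZ S val p (restart D s) := by
  unfold Pool.Agent.Simplex.QP.restart
  split_ifs with hc
  · exact InvM.initS ho h.pt h.vertex.1 h.vertex.2
  · exact h

/-- invariants of a state of the combined rule -/
structure InvB (D : Sta) (S : Sys E) (val : Pnt → E) (p : Pnt) (s : Sb) : Prop where
  dat : s.1 = D
  cnt : 0 ≤ s.2.1.1 ∧ s.2.1.1 ≤ limZ D + 1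
  lim : s.2.1.2 = limZ D
  st : InvM (orc D) vleZ S val p s.2.2

theorem limZ_nonneg (D : Sta) : 0 ≤ limZ D := by unfold limZ; positivity

theorem InvB.nextB (ho : Spec (orc D) vleZ S val) {p : Pnt} {s : Sb}
    (h : InvB D S val p s) : InvB D S val p (nextB s) := by
  obtain ⟨D', ⟨cnt, lim⟩, st⟩ := s
  obtain ⟨h1, h2, h3, h4⟩ := h
  dsimp only at h1 h2 h3 h4
  subst h1
  subst h3
  refine ⟨rfl, ?_, rfl, ?_⟩
  · show 0 ≤ (if cnt ≤ limZ D' then cnt + 1 else cnt) ∧
      (if cnt ≤ limZ D' then cnt + 1 else cnt) ≤ limZ D' + 1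
    split_ifs with hc
    · omega
    · exact h2
  · show InvM (orc D') vleZ S val p (if cnt < limZ D' then nextM D' st
      else if cnt = limZ D' then next (orc D') vleZ (restart D' st)
      else next (orc D') vleZ st)
    split_ifs with hc hc'
    · exact h4.nextM ho
    · exact (h4.restart ho).next ho
    · exact h4.next ho

theorem InvB.iterate (ho : Spec (orc D) vleZ S val) {p : Pnt} {s : Sb}
    (h : InvB D S val p s) (t : ℕ) : InvB D S val p (QP.nextB^[t] s) := by
  induction t with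
  | zero => exact h
  | succ t ih =>
    rw [Function.iterate_succ_apply']
    exact ih.nextB ho

end

/-! ### Sizes -/

theorem orcM_le_sz (D : Sta) (p : Pnt) : (orc D).M ≤ sz (D, p) := by
  have h1 := length_le_sz D.2.1
  have h2 : sz D.2.1 ≤ sz (D, p) := by
    obtain ⟨n, l, c⟩ := D
    simp only [sz_prod]
    omega
  exact h1.trans h2

/-- States satisfying the invariants have polynomial size. -/
theorem size_of_invM : ∃ Q : Polynomial ℕ, ∀ (D : Sta) (p : Pnt) {E : Type}
    [AddCommGroup E] [Module ℝ E] (S : Sys E) (val : Pnt → E) (s : St Pnt),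
    InvM (orc D) vleZ S val p s → sz s ≤ Q.eval (sz (D, p)) := by
  obtain ⟨Q, hQ⟩ := sz_ptOk
  refine ⟨Q + (4 + ((2 + (Polynomial.X + 1) * (Polynomial.X + (Polynomial.X + 1)) +
    2 * ((Polynomial.X + 1) * Polynomial.X) + 1) * (Polynomial.X + 1))),
    fun D p E _ _ S val s hinv => ?_⟩
  obtain ⟨f₀, h1⟩ := hinv
  have hM := orcM_le_sz D p
  have h2 := hQ D p s.1 h1.pt
  have h3 := sz_wfL h1.wf h1.good.length_le
  have h4 := sz_status_le s.2.2
  have h5 : (2 + ((orc D).M + 1) * ((orc D).M + ((orc D).M + 1)) +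
      2 * (((orc D).M + 1) * (orc D).M) + 1) * ((orc D).M + 1) ≤
      (2 + (sz (D, p) + 1) * (sz (D, p) + (sz (D, p) + 1)) +
      2 * ((sz (D, p) + 1) * sz (D, p)) + 1) * (sz (D, p) + 1) := by
    gcongr
  obtain ⟨x, st, sta⟩ := s
  simp only [Polynomial.eval_add, Polynomial.eval_X, Polynomial.eval_mul,
      Polynomial.eval_one, Polynomial.eval_ofNat]
  dsimp only at h2 h3 h4
  have h6 : sz (x, st, sta) = 1 + sz x + (1 + sz st + sz sta) := rfl
  omega

/-- the limit is at most exponential -/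
theorem limZ_lt (D : Sta) (p : Pnt) : limZ D + 1 < 2 ^ (3 * sz (D, p) + 3) := by
  have hn : D.1 ≤ sz (D, p) := by
    obtain ⟨n, l, c⟩ := D
    simp only [sz_prod, sz_nat]
    omega
  have hM : D.2.1.length ≤ sz (D, p) := orcM_le_sz D p
  set L := sz (D, p) with hL
  have h1 : bd (D.2.1.length - D.1) D.1 ≤ 2 ^ (3 * L + 1) := by
    unfold bd pivotBound
    set d := min D.1 (D.2.1.length - D.1 + 1) with hd
    set k := min (D.2.1.length - D.1 + D.1) (2 * (D.2.1.length - D.1) + 1) with hk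
    have hd' : d ≤ L := (min_le_left _ _).trans hn
    have hk' : k ≤ L := by
      have : k ≤ D.2.1.length - D.1 + D.1 := min_le_left _ _
      omega
    have hs : Nat.size k ≤ L := by
      rcases Nat.eq_zero_or_pos k with h0 | h0
      · rw [h0]; simp
      · rw [Nat.size_le]
        exact hk'.trans_lt Nat.lt_two_pow_self
    calc 2 ^ Nat.size k * (d + Nat.size k).choose (Nat.size k)
        ≤ 2 ^ Nat.size k * 2 ^ (d + Nat.size k) :=
          Nat.mul_le_mul_left _ (Nat.choose_le_two_pow _ _)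
      _ = 2 ^ (Nat.size k + (d + Nat.size k)) := (pow_add _ _ _).symm
      _ ≤ 2 ^ (3 * L + 1) := Nat.pow_le_pow_right (by norm_num) (by omega)
  have h2 : (bd (D.2.1.length - D.1) D.1 : ℤ) ≤ 2 ^ (3 * L + 1) := by exact_mod_cast h1
  have h3 : (2 : ℤ) ^ (3 * L + 3) = 4 * 2 ^ (3 * L + 1) := by
    rw [show 3 * L + 3 = (3 * L + 1) + 2 by ring, pow_add]; ring
  have h4 : (1 : ℤ) ≤ 2 ^ (3 * L + 1) := one_le_pow₀ (by norm_num)
  unfold limZ
  rw [h3]
  linarith

/-- States of the combined rule have polynomial size in terms of the data and the start. -/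
theorem size_of_invB : ∃ Q : Polynomial ℕ, ∀ (D : Sta) (p : Pnt) {E : Type}
    [AddCommGroup E] [Module ℝ E] (S : Sys E) (val : Pnt → E) (s : Sb),
    InvB D S val p s → sz s ≤ Q.eval (sz (D, p)) := by
  obtain ⟨Q, hQ⟩ := size_of_invM
  refine ⟨Q + (13 * Polynomial.X + 32), fun D p E _ _ S val s h => ?_⟩
  obtain ⟨D', ⟨cnt, lim⟩, st⟩ := s
  obtain ⟨h1, h2, h3, h4⟩ := h
  dsimp only at h1 h2 h3 h4
  subst h1
  subst h3
  have h5 := hQ D' p S val st h4
  have h6 := limZ_lt D' p
  have h7 : sz cnt ≤ 2 * (3 * sz (D', p) + 3) + 2 := by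
    apply sz_int_le_of_abs_lt
    rw [abs_of_nonneg h2.1]
    exact h2.2.trans_lt h6
  have h8 : sz (limZ D') ≤ 2 * (3 * sz (D', p) + 3) + 2 := by
    apply sz_int_le_of_abs_lt
    rw [abs_of_nonneg (limZ_nonneg D')]
    linarith
  have h9 : sz D' ≤ sz (D', p) := by simp only [sz_prod]; omega
  have h10 : sz (D', (cnt, limZ D'), st) =
      1 + sz D' + (1 + (1 + sz cnt + sz (limZ D')) + sz st) := rfl
  simp only [Polynomial.eval_add, Polynomial.eval_X, Polynomial.eval_mul, Polynomial.eval_ofNat]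
  omega

/-- The initial state of the combined rule satisfies the invariants. -/
theorem invB_init (I : Input) :
    InvB (dat I) (sysI I) (valI I) (pntOf I.data) (initB I) := by
  have ho := spec_I I
  have hfe := feasible_eq I
  have hval := val_pntOf I
  have hx : valI I (pntOf I.data) ∈ (sysI I).Q [] (List.range (orc (dat I)).M) := by
    show _ ∈ (sysI I).Q [] (List.range (dat I).2.1.length)
    rw [hfe, hval]
    exact I.vertex.1
  have hv : (sysI I).Vx (fun i => i < (orc (dat I)).M) (valI I (pntOf I.data)) := by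
    apply Sys.vx_of_extreme
    show _ ∈ Set.extremePoints ℝ ((sysI I).Q [] (List.range (dat I).2.1.length))
    rw [hfe, hval]
    exact I.vertex
  refine ⟨rfl, ⟨le_refl _, ?_⟩, rfl, InvM.startZ ho (Or.inl rfl) hx hv⟩
  have := limZ_nonneg (dat I)
  show (0 : ℤ) ≤ limZ (dat I) + 1
  linarith

/-- All states of a run satisfy the invariants. -/
theorem invB_run (I : Input) (t : ℕ) :
    InvB (dat I) (sysI I) (valI I) (pntOf I.data) (nextB^[t] (initB I)) :=
  (invB_init I).iterate (spec_I I) t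

/-- **The states of the combined rule have polynomial size.** -/
theorem size_statesB : ∃ Q : Polynomial ℕ, ∀ (I : Input) (t : ℕ),
    sz (nextB^[t] (initB I)) ≤ Q.eval (sz I) := by
  obtain ⟨Q, hQ⟩ := size_of_invB
  have h1 : PolyF (fun I : Input => (dat I, pntOf I.data)) :=
    (PolyF.staOf polyF_data).pair (PolyF.pntOf polyF_data)
  obtain ⟨R, hR⟩ := h1.bound
  refine ⟨Q.comp R, fun I t => ?_⟩
  rw [Polynomial.eval_comp]
  exact (hQ _ _ _ _ _ (invB_run I t)).trans (peval_mono Q (hR I))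

/-! ### Magnitudes -/

/-- The numerators and the denominator of points which occur are at most exponential. -/
theorem magnitude_ptOk : ∃ Q : Polynomial ℕ, ∀ (D : Sta) (p x : Pnt), PtOk (orc D) p x →
    (∀ a ∈ x.1, |a| < 2 ^ Q.eval (sz (D, p))) ∧ |x.2| < 2 ^ Q.eval (sz (D, p)) ∧
    |dn x.2| < 2 ^ Q.eval (sz (D, p)) ∧ |(objZ D x).1| < 2 ^ Q.eval (sz (D, p)) ∧
    |(objZ D x).2| < 2 ^ Q.eval (sz (D, p)) := by
  obtain ⟨Q, hQ⟩ := sz_ptOk
  obtain ⟨R, hR⟩ := (PolyF.objZ (β := Sta × Pnt) PolyF.fst' PolyF.snd').bound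
  refine ⟨Q + R.comp (1 + Polynomial.X + Q) + 1, fun D p x hx => ?_⟩
  have h1 := hQ D p x hx
  have h2 := hR (D, x)
  have h3 : sz (D, x) ≤ 1 + sz (D, p) + Q.eval (sz (D, p)) := by
    have : sz D ≤ sz (D, p) := by simp only [sz_prod]; omega
    have h4 : sz (D, x) = 1 + sz D + sz x := rfl
    omega
  have h5 : sz (objZ D x) ≤ R.eval (1 + sz (D, p) + Q.eval (sz (D, p))) :=
    h2.trans (peval_mono R h3)
  simp only [Polynomial.eval_add, Polynomial.eval_X, Polynomial.eval_comp,
    Polynomial.eval_one]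
  set L := sz (D, p) with hL
  have key : ∀ a : ℤ, sz a ≤ Q.eval L + R.eval (1 + L + Q.eval L) + 1 →
      |a| < 2 ^ (Q.eval L + R.eval (1 + L + Q.eval L) + 1) := fun a ha =>
    (abs_lt_two_pow_sz a).trans_le (pow_le_pow_right₀ (by norm_num) ha)
  have hx1 : sz x = 1 + sz x.1 + sz x.2 := rfl
  have ho1 : sz (objZ D x) = 1 + sz (objZ D x).1 + sz (objZ D x).2 := rfl
  refine ⟨fun a ha => key a ?_, key _ ?_, ?_, key _ ?_, key _ ?_⟩
  · have := sz_mem ha
    omega
  · omega
  · unfold dn
    split_ifs with h0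
    · exact key _ (by omega)
    · rw [abs_one]
      exact one_lt_pow₀ (by norm_num) (by omega)
  · omega
  · omega

/-- magnitudes along a run -/
theorem magnitude_run : ∃ Q : Polynomial ℕ, ∀ (I : Input) (t : ℕ),
    (∀ a ∈ (nextB^[t] (initB I)).2.2.1.1, |a| < 2 ^ Q.eval (sz I)) ∧
    |dn (nextB^[t] (initB I)).2.2.1.2| < 2 ^ Q.eval (sz I) ∧
    |(objZ (dat I) (nextB^[t] (initB I)).2.2.1).1| < 2 ^ Q.eval (sz I) := by
  obtain ⟨Q, hQ⟩ := magnitude_ptOk
  have h1 : PolyF (fun I : Input => (dat I, pntOf I.data)) :=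
    (PolyF.staOf polyF_data).pair (PolyF.pntOf polyF_data)
  obtain ⟨R, hR⟩ := h1.bound
  refine ⟨Q.comp R, fun I t => ?_⟩
  rw [Polynomial.eval_comp]
  obtain ⟨a1, a2, a3, a4, a5⟩ := hQ (dat I) (pntOf I.data) _ (invB_run I t).st.pt
  have hm : ∀ {a : ℤ}, |a| < 2 ^ Q.eval (sz (dat I, pntOf I.data)) →
      |a| < 2 ^ Q.eval (R.eval (sz I)) := fun h =>
    h.trans_le (pow_le_pow_right₀ (by norm_num) (peval_mono Q (hR I)))
  exact ⟨fun a ha => hm (a1 a ha), hm a3, hm a4⟩

end Pool.Agent.Simplex.QP
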