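import Pool.Agent.Lib.MP_4d246d_lc.QM.Gap
import Pool.Agent.Lib.MP_4d246d_lc.QM.SizeQM

/-!
# The run of the combined rule
-/

namespace Pool.Agent.Simplex.QP

open Pool.Agent.Lib.PolyTime

/-- the rational vertex after `t` pivots of the combined rule -/
def xb (I : Input) (t : ℕ) : Fin I.n → ℚ := qv I.n (nextB^[t] (initB I)).2.2.1

/-- The run of the combined rule on an input is correct and stops after `N` pivots. -/
structure RunOKB (I : Input) (N : ℕ) : Prop where
  start : xb I 0 = I.v
  rep : ∀ t, (reportB (nextB^[t] (initB I))).1 = List.ofFn (xb I t)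
  pivot : ∀ t < N, I.lp.Improving (toReal (xb I t)) (toReal (xb I (t + 1))) ∧
      (reportB (nextB^[t] (initB I))).2 = .pivot
  stop : (reportB (nextB^[N] (initB I))).2 = .optimal ∧ I.lp.Vertex (toReal (xb I N)) ∧
        I.lp.Optimal (toReal (xb I N)) ∨
      (reportB (nextB^[N] (initB I))).2 = .unbounded ∧ I.lp.Unbounded (toReal (xb I N))

/-- a complete run given by a sequence of states -/
structure RunS (D : Sta) (H : ℕ → St Pnt) (N : ℕ) : Prop where
  run : ∀ t ≤ N, (H t).2.2 = .running
  step : ∀ t < N, EStep (sysOf D) (orc D).M (valOf D (H t).1) (valOf D (H (t + 1)).1)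
  stop : (H (N + 1)).2.2 = .optimal ∧ OptZ D (H N).1 ∨
    (H (N + 1)).2.2 = .unbounded ∧ ∃ J0, RStep (sysOf D) (orc D).M J0 (valOf D (H N).1)

/-- the length of a run is unique -/
theorem RunF.unique {D : Sta} {F : St Pnt → St Pnt} {s : St Pnt} {N N' : ℕ}
    (h : RunF D F s N) (h' : RunF D F s N') : N = N' := by
  have key : ∀ {a b : ℕ}, RunF D F s a → RunF D F s b → ¬ a < b := by
    intro a b ha hb hlt
    have h1 := hb.run (a + 1) hlt
    rcases ha.stop with ⟨h2, -⟩ | ⟨h2, -⟩ <;>
    · rw [h1] at h2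
      simp at h2
  exact le_antisymm (not_lt.1 (key h' h)) (not_lt.1 (key h h'))

/-- The sequence of states of the combined rule. -/
def stB (I : Input) (t : ℕ) : St Pnt := (nextB^[t] (initB I)).2.2

theorem stB_zero (I : Input) : stB I 0 = startZ (dat I) (pntOf I.data) := rfl

theorem reportB_snd (I : Input) (t : ℕ) :
    (reportB (nextB^[t] (initB I))).2 = verd (stB I (t + 1)).2.2 := by
  unfold stB
  rw [Function.iterate_succ_apply']
  rfl

theorem vertZ_stB (I : Input) (t : ℕ) : VertZ (dat I) (stB I t).1 := by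
  have h := (invB_run I t).st.vertex
  exact ⟨h.1, h.2⟩

theorem ptOk_stB (I : Input) (t : ℕ) : PtOk (orc (dat I)) (pntOf I.data) (stB I t).1 :=
  (invB_run I t).st.pt

/-- A correct run of the sequence of states is a correct run. -/
theorem RunS.ok {I : Input} {N : ℕ} (h : RunS (dat I) (stB I) N) : RunOKB I N := by
  obtain ⟨dc, hdc, hobj⟩ := obj_eq I
  have hfe := feasible_eq I
  refine ⟨qv_pntOf I, fun t => ?_, fun t ht => ⟨?_, ?_⟩, ?_⟩
  · have hlen : (stB I t).1.1.length = I.n := by
      refine len_ptOk (D := dat I) (p := pntOf I.data) ?_ (ptOk_stB I t)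
      show (clr _ (List.ofFn I.v)).length = I.n
      simp [clr]
    show ratsOf (stB I t).1 = List.ofFn (qv I.n (stB I t).1)
    exact (ofFn_qv hlen).symm
  · exact improving_of_estep I (h.step t ht)
  · rw [reportB_snd, h.run (t + 1) ht]
    rfl
  · rw [reportB_snd]
    rcases h.stop with ⟨h1, h2⟩ | ⟨h1, J0, h2⟩
    · left
      have hv := vertZ_stB I N
      have hmem' := hv.mem
      have hex := Sys.extreme_of_vx hv.mem hv.vx
      have h4 : ∀ y ∈ (sysI I).Q [] (List.range (orc (dat I)).M),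
        (sysI I).c y ≤ (sysI I).c (valI I (stB I N).1) := h2
      have hfe' : (sysI I).Q [] (List.range (orc (dat I)).M) = I.lp.feasible := hfe
      have hfe2 : (sysOf (dat I)).Q [] (List.range (orc (dat I)).M) = I.lp.feasible := hfe
      rw [hfe'] at h4
      rw [hfe2] at hmem' hex
      rw [h1]
      have hx : toReal (xb I N) = valI I (stB I N).1 := toReal_qv I _
      rw [hx]
      refine ⟨rfl, hex, hmem', fun y hy => ?_⟩
      have h5 := h4 y hy
      rw [hobj, hobj] at h5
      exact le_of_mul_le_mul_left h5 hdc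
    · right
      rw [h1]
      exact ⟨rfl, unbounded_of_rstep I h2⟩

/-- the limit of an input -/
theorem limZ_dat (I : Input) : limZ (dat I) = ((bd I.m I.n + 1 : ℕ) : ℤ) := by
  unfold limZ
  have h1 : (dat I).2.1.length - (dat I).1 = I.m := by
    rw [dat_len]
    exact Nat.add_sub_cancel _ _
  have h2 : (dat I).1 = I.n := rfl
  rw [h1, h2]
  push_cast
  ring

/-- before the limit the combined rule is the rule with macro steps -/
theorem nextB_lt (I : Input) : ∀ t ≤ bd I.m I.n + 1, nextB^[t] (initB I) =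
    (dat I, ((t : ℤ), limZ (dat I)), (nextM (dat I))^[t] (startZ (dat I) (pntOf I.data))) := by
  intro t
  induction t with
  | zero => intro _; rfl
  | succ t ih =>
    intro ht
    rw [Function.iterate_succ_apply', ih (by omega)]
    have h1 : (t : ℤ) < limZ (dat I) := by rw [limZ_dat]; exact_mod_cast ht
    unfold nextB
    dsimp only
    rw [if_pos h1.le, if_pos h1, Function.iterate_succ_apply']
    push_cast
    rfl

/-- after the limit the combined rule is the rule without macro steps -/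
theorem nextB_ge (I : Input) (u : ℕ) : nextB^[bd I.m I.n + 1 + (u + 1)] (initB I) =
    (dat I, (limZ (dat I) + 1, limZ (dat I)), (next (orc (dat I)) vleZ)^[u + 1]
      (restart (dat I) ((nextM (dat I))^[bd I.m I.n + 1]
        (startZ (dat I) (pntOf I.data))))) := by
  induction u with
  | zero =>
    rw [show bd I.m I.n + 1 + (0 + 1) = (bd I.m I.n + 1) + 1 by ring,
      Function.iterate_succ_apply', nextB_lt I _ le_rfl, ← limZ_dat]
    unfold nextB
    dsimp only
    rw [if_pos le_rfl, if_neg (lt_irrefl _), if_pos rfl]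
    rfl
  | succ u ih =>
    rw [show bd I.m I.n + 1 + (u + 1 + 1) = (bd I.m I.n + 1 + (u + 1)) + 1 by ring,
      Function.iterate_succ_apply', ih]
    unfold nextB
    dsimp only
    rw [if_neg (by omega), if_neg (by omega), if_neg (by omega),
      Function.iterate_succ_apply' _ (u + 1)]

/-- The run of the rule without macro steps from a vertex. -/
theorem run_plain (I : Input) {x : Pnt} (hx : VertZ (dat I) x) :
    ∃ N ≤ bd I.m I.n, RunF (dat I) (next (orc (dat I)) vleZ) (initS (orc (dat I)) vleZ x) N := by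
  have ho := spec_orc (dat I)
  have hM : (orc (dat I)).M = I.m + Module.finrank ℝ (Fin (dat I).1 → ℝ) := by
    show (dat I).2.1.length = _
    rw [dat_len, Module.finrank_fin_fun]
    rfl
  have hG := rootF_good (vle := vleZ) ho hx.mem hx.vx
  obtain ⟨hc1, hc2⟩ := rootF_counts (vle := vleZ) ho hx.mem hx.vx hM
  have hn : Module.finrank ℝ (Fin (dat I).1 → ℝ) = I.n := by
    rw [Module.finrank_fin_fun]
    rfl
  rw [hn] at hc1 hc2
  obtain ⟨N, hN, hgood, hrun, hE, hlast, hfin⟩ := run_root ho vord hG hc1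
    ((length_active_root_le x).trans hc2)
  refine ⟨N, hN, hrun, hE, hlast, ?_⟩
  rcases hfin with ⟨h1, h2, h3⟩ | ⟨h1, h2⟩
  · exact Or.inl ⟨h1, rootF_opt (vle := vleZ) ho hx.mem h3⟩
  · exact Or.inr ⟨h1, _, h2⟩

/-- the run of the combined rule in terms of the run of the rule with macro steps -/
theorem runS_of_macro (I : Input) {N : ℕ}
    (h : RunF (dat I) (nextM (dat I)) (startZ (dat I) (pntOf I.data)) N) :
    ∃ N', RunS (dat I) (stB I) N' ∧ N' ≤ 2 * bd I.m I.n + 1 ∧ N' ≤ 2 * N := by
  have hlt : ∀ t ≤ bd I.m I.n + 1,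
      stB I t = (nextM (dat I))^[t] (startZ (dat I) (pntOf I.data)) := fun t ht => by
    unfold stB; rw [nextB_lt I t ht]
  rcases Nat.lt_or_ge (bd I.m I.n) N with hN | hN
  · -- the limit is reached
    have hx := vertZ_stB I (bd I.m I.n + 1)
    set x := (stB I (bd I.m I.n + 1)).1 with hxdef
    have hrunlim := h.run (bd I.m I.n + 1) hN
    have hres : restart (dat I) ((nextM (dat I))^[bd I.m I.n + 1]
        (startZ (dat I) (pntOf I.data))) = initS (orc (dat I)) vleZ x := by
      unfold restart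
      rw [if_pos hrunlim, hxdef, hlt _ le_rfl]
    have hge : ∀ u, stB I (bd I.m I.n + 1 + (u + 1)) =
        (next (orc (dat I)) vleZ)^[u + 1] (initS (orc (dat I)) vleZ x) := fun u => by
      unfold stB; rw [nextB_ge I u, hres]
    have hgep : ∀ u, (stB I (bd I.m I.n + 1 + u)).1 =
        ((next (orc (dat I)) vleZ)^[u] (initS (orc (dat I)) vleZ x)).1 := by
      intro u
      cases u with
      | zero => rfl
      | succ u => rw [hge]
    obtain ⟨N', hN', hF⟩ := run_plain I hx
    refine ⟨bd I.m I.n + 1 + N', ⟨fun t ht => ?_, fun t ht => ?_, ?_⟩, by omega, by omega⟩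
    · rcases Nat.lt_or_ge (bd I.m I.n + 1) t with h1 | h1
      · obtain ⟨u, rfl⟩ := Nat.exists_eq_add_of_lt h1
        rw [show bd I.m I.n + 1 + u + 1 = bd I.m I.n + 1 + (u + 1) by ring, hge]
        exact hF.run _ (by omega)
      · rw [hlt t h1]
        exact h.run t (h1.trans hN)
    · rcases Nat.lt_or_ge t (bd I.m I.n + 1) with h1 | h1
      · rw [hlt t h1.le, hlt (t + 1) h1]
        exact h.step t (lt_of_lt_of_le h1 hN)
      · obtain ⟨u, rfl⟩ := Nat.exists_eq_add_of_le h1
        rw [hgep, show bd I.m I.n + 1 + u + 1 = bd I.m I.n + 1 + (u + 1) by ring, hgep]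
        exact hF.step u (by omega)
    · rw [show bd I.m I.n + 1 + N' + 1 = bd I.m I.n + 1 + (N' + 1) by ring, hge, hgep]
      exact hF.stop
  · refine ⟨N, ⟨fun t ht => ?_, fun t ht => ?_, ?_⟩, by omega, by omega⟩
    · rw [hlt t (by omega)]
      exact h.run t ht
    · rw [hlt t (by omega), hlt (t + 1) (by omega)]
      exact h.step t ht
    · rw [hlt N (by omega), hlt (N + 1) (by omega)]
      exact h.stop

/-- **The run of the combined rule.** -/
theorem run_inputB : ∃ Q : Polynomial ℕ, ∀ I : Input, ∃ N, RunOKB I N ∧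
    N ≤ 2 * bd I.m I.n + 1 ∧
    ∀ d k : ℕ, (∀ x : Pnt, PtOk (orc (dat I)) (pntOf I.data) x → VertZ (dat I) x →
      topZ (dat I) x = false →
      Module.finrank ℝ ((sysI I).V (faceJ (dat I) x (dirY (dat I) x))) ≤ d ∧
        (frameOf (dat I) (faceJ (dat I) x (dirY (dat I) x))).I.length ≤ k) →
      N ≤ Q.eval (sz I) * hb d k := by
  obtain ⟨Q, hQ⟩ := run_macro
  have h1 : PolyF (fun I : Input => (dat I, pntOf I.data)) :=
    (PolyF.staOf polyF_data).pair (PolyF.pntOf polyF_data)
  obtain ⟨R, hR⟩ := h1.bound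
  refine ⟨2 * Q.comp R, fun I => ?_⟩
  have hx : VertZ (dat I) (pntOf I.data) := vertZ_stB I 0
  have hp : PtOk (orc (dat I)) (pntOf I.data) (pntOf I.data) := ptOk_stB I 0
  -- some admissible pair of parameters
  have hex : ∃ d k : ℕ, ∀ x : Pnt, PtOk (orc (dat I)) (pntOf I.data) x → VertZ (dat I) x →
      topZ (dat I) x = false →
      Module.finrank ℝ ((sysOf (dat I)).V (faceJ (dat I) x (dirY (dat I) x))) ≤ d ∧
        (frameOf (dat I) (faceJ (dat I) x (dirY (dat I) x))).I.length ≤ k := by
    refine ⟨Module.finrank ℝ (Fin (dat I).1 → ℝ), (dat I).2.1.length, fun x _ _ _ => ⟨?_, ?_⟩⟩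
    · exact Submodule.finrank_le _
    · exact (List.length_filter_le _ _).trans (by rw [List.length_range])
  obtain ⟨d₀, k₀, h₀⟩ := hex
  obtain ⟨N₀, -, hN₀⟩ := hQ (dat I) (pntOf I.data) d₀ k₀ h₀ _ hx hp
  obtain ⟨N, hN, hN1, hN2⟩ := runS_of_macro I hN₀
  refine ⟨N, hN.ok, hN1, fun d k hd => ?_⟩
  obtain ⟨N₁, hle, hN₁⟩ := hQ (dat I) (pntOf I.data) d k hd _ hx hp
  have he := hN₀.unique hN₁
  subst he
  have h2 := peval_mono Q (hR I)
  simp only [Polynomial.eval_mul, Polynomial.eval_ofNat, Polynomial.eval_comp]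
  calc N ≤ 2 * N₀ := hN2
    _ ≤ 2 * (Q.eval (sz (dat I, pntOf I.data)) * hb d k) := Nat.mul_le_mul_left _ hle
    _ ≤ 2 * (Q.eval (R.eval (sz I)) * hb d k) :=
        Nat.mul_le_mul_left _ (Nat.mul_le_mul_right _ h2)
    _ = 2 * Q.eval (R.eval (sz I)) * hb d k := by ring

end Pool.Agent.Simplex.QP
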