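import Pool.Agent.Lib.MP_4d246d_lc.QM.Face

/-!
# The run of the rule with macro steps
-/

namespace Pool.Agent.Simplex.QP

open Pool.Agent.Lib.PolyTime

/-- vertices of the program -/
structure VertZ (D : Sta) (p : Pnt) : Prop where
  mem : valOf D p ∈ (sysOf D).Q [] (List.range (orc D).M)
  vx : (sysOf D).Vx (fun i => i < (orc D).M) (valOf D p)

/-- optimal points of the program -/
def OptZ (D : Sta) (p : Pnt) : Prop :=
  ∀ z ∈ (sysOf D).Q [] (List.range (orc D).M), (sysOf D).c z ≤ (sysOf D).c (valOf D p)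

/-- the invariant of the rule with macro steps -/
def IvM (D : Sta) (p : Pnt) (s : St Pnt) : Prop :=
  ∃ f₀, Inv (orc D) vleZ (sysOf D) (valOf D) f₀ p s

section

variable {D : Sta} {p : Pnt}

theorem GoodS.vertZ {f₀ : Frame} {s : St Pnt}
    (h : GoodS (orc D) vleZ (sysOf D) (valOf D) f₀ s) : VertZ D s.1 := by
  have key : ∀ {x : Pnt} {f : Frame} {r : List Frame},
      Good (sysOf D) (orc D).M (valOf D x) f r → VertZ D x := fun h =>
    ⟨⟨fun i hi => by simp at hi, h.mem.2⟩, h.vxM⟩
  cases h with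
  | run x f r h1 h2 => exact key h1
  | opt x h1 h2 => exact key h1
  | unb x f r h1 h2 => exact key h1

theorem IvM.vertZ {s : St Pnt} (h : IvM D p s) : VertZ D s.1 := by
  obtain ⟨f₀, h⟩ := h
  exact h.good.vertZ

theorem IvM.pt {s : St Pnt} (h : IvM D p s) : PtOk (orc D) p s.1 := by
  obtain ⟨f₀, h⟩ := h
  exact h.pt

/-- a single frame whose equalities are tight at a vertex -/
theorem invM_frame {x : Pnt} (hp : PtOk (orc D) p x) {f : Frame}
    (hG : Good (sysOf D) (orc D).M (valOf D x) f []) (hl : f.J.length ≤ (orc D).M) :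
    Inv (orc D) vleZ (sysOf D) (valOf D) f p (x, [f], .running) := by
  have h3 := hG.chain
  have h4 := h3.depth
  refine ⟨GoodS.run x f [] hG rfl, ⟨⟨by simpa using hl, by simpa using h4, ?_, h3.basic.2.1,
    h3.basic.1, ?_⟩, trivial⟩, hp⟩
  · rw [h3.1]; exact Nat.zero_le _
  · rw [h3.1]; intro j hj; exact absurd hj List.not_mem_nil

theorem inv_startZ {x : Pnt} (hx : VertZ D x) (hp : PtOk (orc D) p x) :
    Inv (orc D) vleZ (sysOf D) (valOf D) (frameOf D (faceJ D x (dirY D x))) p (startZ D x) :=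
  invM_frame hp (good_start hx.mem hx.vx _) (length_faceJ_le _ _)

theorem inv_initS {x : Pnt} (hx : VertZ D x) (hp : PtOk (orc D) p x) :
    Inv (orc D) vleZ (sysOf D) (valOf D) (rootF (orc D) vleZ x) p (initS (orc D) vleZ x) :=
  invM_frame hp (rootF_good (spec_orc D) hx.mem hx.vx) (length_rootJ_le _ _ _)

theorem IvM.next {s : St Pnt} (h : IvM D p s) : IvM D p (next (orc D) vleZ s) := by
  obtain ⟨f₀, h⟩ := h
  exact ⟨f₀, h.runB (spec_orc D) _⟩

theorem IvM.nextM {s : St Pnt} (h : IvM D p s) : IvM D p (nextM D s) := by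
  unfold Pool.Agent.Simplex.QP.nextM
  split_ifs
  · exact IvM.next ⟨_, inv_startZ h.next.vertZ h.next.pt⟩
  · exact h.next

theorem IvM.restart {s : St Pnt} (h : IvM D p s) : IvM D p (restart D s) := by
  unfold Pool.Agent.Simplex.QP.restart
  split_ifs
  · exact ⟨_, inv_initS h.vertZ h.pt⟩
  · exact h

theorem IvM.iterM {s : St Pnt} (h : IvM D p s) (t : ℕ) :
    IvM D p ((Pool.Agent.Simplex.QP.nextM D)^[t] s) := by
  induction t with
  | zero => exact h
  | succ t ih => rw [Function.iterate_succ_apply']; exact ih.nextM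

theorem IvM.iterN {s : St Pnt} (h : IvM D p s) (t : ℕ) :
    IvM D p ((Pool.Agent.Simplex.QP.next (orc D) vleZ)^[t] s) := by
  induction t with
  | zero => exact h
  | succ t ih => rw [Function.iterate_succ_apply']; exact ih.next

/-- a complete run with `N` pivots of the rule `F` -/
structure RunF (D : Sta) (F : St Pnt → St Pnt) (s : St Pnt) (N : ℕ) : Prop where
  run : ∀ t ≤ N, (F^[t] s).2.2 = .running
  step : ∀ t < N, EStep (sysOf D) (orc D).M (valOf D (F^[t] s).1) (valOf D (F^[t + 1] s).1)
  last : (F^[N + 1] s).1 = (F^[N] s).1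
  stop : (F^[N + 1] s).2.2 = .optimal ∧ OptZ D (F^[N] s).1 ∨
    (F^[N + 1] s).2.2 = .unbounded ∧ ∃ J0, RStep (sysOf D) (orc D).M J0 (valOf D (F^[N] s).1)

/-- Composition of runs. -/
theorem RunF.comp {F : St Pnt → St Pnt} {s s' : St Pnt} {N N' : ℕ} (h : RunF D F s' N')
    (hrun : ∀ t ≤ N, (F^[t] s).2.2 = .running)
    (hstep : ∀ t < N, EStep (sysOf D) (orc D).M (valOf D (F^[t] s).1) (valOf D (F^[t + 1] s).1))
    (hpt : (F^[N] s).1 = s'.1) (hnext : F^[N + 1] s = F s') : RunF D F s (N + N') := by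
  have key : ∀ t, F^[N + (t + 1)] s = F^[t + 1] s' := by
    intro t
    have : N + (t + 1) = t + (N + 1) := by ring
    rw [this, Function.iterate_add_apply, hnext, ← Function.iterate_succ_apply]
  have keyp : ∀ t, (F^[N + t] s).1 = (F^[t] s').1 := by
    intro t
    cases t with
    | zero => exact hpt
    | succ t => rw [key]
  refine ⟨fun t ht => ?_, fun t ht => ?_, ?_, ?_⟩
  · rcases Nat.lt_or_ge N t with h1 | h1
    · obtain ⟨u, rfl⟩ := Nat.exists_eq_add_of_lt h1
      have : N + u + 1 = N + (u + 1) := by ring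
      rw [this, key]
      exact h.run _ (by omega)
    · exact hrun t h1
  · rcases Nat.lt_or_ge t N with h1 | h1
    · exact hstep t h1
    · obtain ⟨u, rfl⟩ := Nat.exists_eq_add_of_le h1
      rw [keyp, show N + u + 1 = N + (u + 1) by ring, keyp]
      exact h.step u (by omega)
  · rw [show N + N' + 1 = N + (N' + 1) by ring, keyp, keyp]
    exact h.last
  · rw [show N + N' + 1 = N + (N' + 1) by ring, key, keyp]
    exact h.stop

/-- points above a point reached by an edge -/
theorem EStep.lt {E : Type*} [AddCommGroup E] [Module ℝ E] {S : Sys E} {M : ℕ} {x y : E}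
    (h : EStep S M x y) : S.c x < S.c y := h.edge.2.1

theorem EStep.mem_right {E : Type*} [AddCommGroup E] [Module ℝ E] {S : Sys E} {M : ℕ} {x y : E}
    (h : EStep S M x y) : y ∈ S.Q [] (List.range M) := h.edge.2.2.2.1

/-- At an optimal point there is no improving ray. -/
theorem not_rstep_of_opt {x : Pnt} (h : OptZ D x) {J0 : List ℕ} :
    ¬ RStep (sysOf D) (orc D).M J0 (valOf D x) := by
  rintro ⟨J, z, -, -, -, hx, hc, hi, -⟩
  have h1 : valOf D x + (1 : ℝ) • z ∈ (sysOf D).Q [] (List.range (orc D).M) := by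
    refine ⟨fun i hi => by simp at hi, fun i hiM => ?_⟩
    rw [Sys.smul_add]
    have := hx.2 i hiM
    have := hi i (List.mem_range.1 hiM)
    linarith
  have h2 := h _ h1
  rw [map_add, map_smul, smul_eq_mul] at h2
  linarith

/-- A macro step. -/
theorem mrun {x : Pnt} (hx : VertZ D x) {d k : ℕ}
    (hd : Module.finrank ℝ ((sysOf D).V (faceJ D x (dirY D x))) ≤ d)
    (hk : (frameOf D (faceJ D x (dirY D x))).I.length ≤ k) :
    ∃ N ≤ hb d k,
      (∀ t ≤ N, ((next (orc D) vleZ)^[t] (startZ D x)).2.2 = .running) ∧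
      (∀ t < N, EStep (sysOf D) (orc D).M
        (valOf D ((next (orc D) vleZ)^[t] (startZ D x)).1)
        (valOf D ((next (orc D) vleZ)^[t + 1] (startZ D x)).1)) ∧
      ((next (orc D) vleZ)^[N + 1] (startZ D x)).1 =
        ((next (orc D) vleZ)^[N] (startZ D x)).1 ∧
      (((next (orc D) vleZ)^[N + 1] (startZ D x)).2.2 = .optimal ∧
          (∀ z ∈ (sysOf D).Q (faceJ D x (dirY D x)) (List.range (orc D).M),
            (sysOf D).c z ≤ (sysOf D).c
              (valOf D ((next (orc D) vleZ)^[N] (startZ D x)).1)) ∨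
        ((next (orc D) vleZ)^[N + 1] (startZ D x)).2.2 = .unbounded ∧
          ∃ J0, RStep (sysOf D) (orc D).M J0
            (valOf D ((next (orc D) vleZ)^[N] (startZ D x)).1)) := by
  have hG := good_start hx.mem hx.vx (dirY D x)
  obtain ⟨N, hN, -, h1, h2, h3, h4⟩ := run_root (spec_orc D) vord hG hd
    ((length_active_le _ _ _).trans hk)
  refine ⟨N, hN, h1, h2, h3, ?_⟩
  rcases h4 with ⟨h5, h6, h7⟩ | ⟨h5, h6⟩
  · refine Or.inl ⟨h5, fun z hz => h7 z ⟨hz.1, fun i hi => hz.2 i ?_⟩⟩
    exact List.mem_range.2 (hG.chain.basic.1 i hi)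
  · exact Or.inr ⟨h5, _, h6⟩

/-- as long as the rule runs, macro steps make no difference -/
theorem iterM_eq {s : St Pnt} {N : ℕ}
    (h : ∀ t ≤ N, ((next (orc D) vleZ)^[t] s).2.2 = .running) :
    ∀ t ≤ N, (nextM D)^[t] s = (next (orc D) vleZ)^[t] s := by
  intro t
  induction t with
  | zero => intro _; rfl
  | succ t ih =>
    intro ht
    rw [Function.iterate_succ_apply', ih (by omega), Function.iterate_succ_apply']
    unfold nextM
    rw [← Function.iterate_succ_apply' (next (orc D) vleZ)]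
    have h1 := h (t + 1) ht
    rw [if_neg]
    rintro ⟨h2, -⟩
    rw [h1] at h2
    simp at h2

theorem nextM_of_ne {s : St Pnt} (h : (next (orc D) vleZ s).2.2 ≠ .optimal) :
    nextM D s = next (orc D) vleZ s := by
  unfold nextM
  rw [if_neg]
  rintro ⟨h2, -⟩
  exact h h2

theorem nextM_of_top {s : St Pnt} (h : topZ D (next (orc D) vleZ s).1 = true) :
    nextM D s = next (orc D) vleZ s := by
  unfold nextM
  rw [if_neg]
  rintro ⟨-, h2⟩
  rw [h] at h2
  simp at h2

theorem nextM_of_not {s : St Pnt} (h : (next (orc D) vleZ s).2.2 = .optimal)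
    (h' : topZ D (next (orc D) vleZ s).1 = false) :
    nextM D s = next (orc D) vleZ (startZ D (next (orc D) vleZ s).1) := by
  unfold nextM
  rw [if_pos ⟨h, h'⟩]

/-- The run from an optimal vertex. -/
theorem fin_opt {x : Pnt} (hx : VertZ D x) (ho : OptZ D x) : RunF D (nextM D) (startZ D x) 0 := by
  obtain ⟨N, -, h1, h2, h3, h4⟩ := mrun hx le_rfl le_rfl
  have hN : N = 0 := by
    by_contra hne
    have h5 := h2 0 (Nat.pos_of_ne_zero hne)
    have h6 := ho _ h5.mem_right
    exact absurd h5.lt (not_lt.2 h6)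
  subst hN
  have h5 : (next (orc D) vleZ (startZ D x)).1 = x := h3
  have h6 : nextM D (startZ D x) = next (orc D) vleZ (startZ D x) := by
    apply nextM_of_top
    rw [h5]
    exact (topZ_iff hx.mem).2 ho
  refine ⟨fun t ht => ?_, fun t ht => by omega, ?_, ?_⟩
  · have : t = 0 := by omega
    subst this
    exact h1 0 le_rfl
  · show (nextM D (startZ D x)).1 = x
    rw [h6, h5]
  · rcases h4 with ⟨h7, -⟩ | ⟨h7, J0, h8⟩
    · left
      refine ⟨?_, ho⟩
      show (nextM D (startZ D x)).2.2 = _
      rw [h6]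
      exact h7
    · exact absurd h8 (not_rstep_of_opt ho)

/-- The rule with macro steps: a macro step at a nonoptimal vertex either ends the run or leads
to a nonoptimal vertex that is optimal on its face. -/
theorem macro_step {x : Pnt} (hx : VertZ D x) (hp : PtOk (orc D) p x) {d k : ℕ}
    (hd : Module.finrank ℝ ((sysOf D).V (faceJ D x (dirY D x))) ≤ d)
    (hk : (frameOf D (faceJ D x (dirY D x))).I.length ≤ k)
    (hz : ∀ z : Pnt, VertZ D z → topZ D z = false →
      ∃ y ∈ (sysOf D).Q (faceJ D z (dirY D z)) (List.range (orc D).M),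
        (sysOf D).c (valOf D z) < (sysOf D).c y) :
    (∃ N ≤ hb d k, RunF D (nextM D) (startZ D x) N) ∨
    ∃ N ≤ hb d k, ∃ z : Pnt, VertZ D z ∧ PtOk (orc D) p z ∧ topZ D z = false ∧
      (∀ y ∈ (sysOf D).Q (faceJ D x (dirY D x)) (List.range (orc D).M),
        (sysOf D).c y ≤ (sysOf D).c (valOf D z)) ∧
      ∀ N', RunF D (nextM D) (startZ D z) N' → RunF D (nextM D) (startZ D x) (N + N') := by
  obtain ⟨N, hN, h1, h2, h3, h4⟩ := mrun hx hd hk
  have hM := iterM_eq h1
  have hsucc : (nextM D)^[N + 1] (startZ D x) =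
      nextM D ((next (orc D) vleZ)^[N] (startZ D x)) := by
    rw [Function.iterate_succ_apply', hM N le_rfl]
  have hrun : ∀ t ≤ N, ((nextM D)^[t] (startZ D x)).2.2 = .running := fun t ht => by
    rw [hM t ht]; exact h1 t ht
  have hstep : ∀ t < N, EStep (sysOf D) (orc D).M
      (valOf D ((nextM D)^[t] (startZ D x)).1)
      (valOf D ((nextM D)^[t + 1] (startZ D x)).1) := fun t ht => by
    rw [hM t ht.le, hM (t + 1) ht]; exact h2 t ht
  have hinv : IvM D p ((next (orc D) vleZ)^[N] (startZ D x)) :=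
    IvM.iterN ⟨_, inv_startZ hx hp⟩ N
  rw [Function.iterate_succ_apply'] at h3 h4
  rcases h4 with ⟨h5, h6⟩ | ⟨h5, J0, h6⟩
  · cases h7 : topZ D ((next (orc D) vleZ)^[N] (startZ D x)).1 with
    | true =>
      left
      have h8 := nextM_of_top (D := D) (s := (next (orc D) vleZ)^[N] (startZ D x))
        (by rw [h3]; exact h7)
      refine ⟨N, hN, hrun, hstep, ?_, Or.inl ⟨?_, ?_⟩⟩
      · rw [hsucc, h8, h3, hM N le_rfl]
      · rw [hsucc, h8]; exact h5
      · rw [hM N le_rfl]
        exact (topZ_iff hinv.vertZ.mem).1 h7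
    | false =>
      right
      refine ⟨N, hN, ((next (orc D) vleZ)^[N] (startZ D x)).1, hinv.vertZ, hinv.pt, h7, h6,
        fun N' hN' => ?_⟩
      refine hN'.comp hrun hstep ?_ ?_
      · rw [hM N le_rfl]; rfl
      · rw [hsucc, nextM_of_not h5 (by rw [h3]; exact h7), h3]
        symm
        apply nextM_of_ne
        -- the next macro step does not end at once with an optimum
        obtain ⟨N₁, -, g1, g2, g3, g4⟩ := mrun hinv.vertZ le_rfl le_rfl
        intro hopt
        have hN1 : N₁ = 0 := by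
          by_contra hne
          have := g1 1 (by omega)
          have g5 : (next (orc D) vleZ (startZ D ((next (orc D) vleZ)^[N] (startZ D x)).1)).2.2 =
            .running := this
          rw [g5] at hopt
          simp at hopt
        subst hN1
        rcases g4 with ⟨g5, g6⟩ | ⟨g5, -⟩
        · obtain ⟨y, hy, hlt⟩ := hz _ hinv.vertZ h7
          have := g6 y hy
          exact absurd hlt (not_lt.2 this)
        · have g6 : (next (orc D) vleZ
            (startZ D ((next (orc D) vleZ)^[N] (startZ D x)).1)).2.2 = .unbounded := g5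
          rw [g6] at hopt
          simp at hopt
  · left
    have h8 := nextM_of_ne (D := D) (s := (next (orc D) vleZ)^[N] (startZ D x))
      (by rw [h5]; simp)
    refine ⟨N, hN, hrun, hstep, ?_, Or.inr ⟨?_, J0, ?_⟩⟩
    · rw [hsucc, h8, h3, hM N le_rfl]
    · rw [hsucc, h8]; exact h5
    · rw [hM N le_rfl]; exact h6

/-- the condition of `macro_step` -/
theorem face_above {z : Pnt} (hz : VertZ D z) (h : topZ D z = false) :
    ∃ y ∈ (sysOf D).Q (faceJ D z (dirY D z)) (List.range (orc D).M),
        (sysOf D).c (valOf D z) < (sysOf D).c y := by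
  by_cases hno : ∀ w, lpZ D [] (List.range D.2.1.length) ≠ .opt w
  · exact face_unb hz.mem hz.vx hno _
  · push Not at hno
    obtain ⟨w, hw⟩ := hno
    obtain ⟨y, hy, hle⟩ := face_point hz.mem hz.vx hw
    refine ⟨y, hy, lt_of_lt_of_le ?_ hle⟩
    have hlt : (sysOf D).c (valOf D z) < (sysOf D).c (valOf D w) := by
      by_contra hcon
      push Not at hcon
      have h1 : topZ D z = true :=
        (topZ_iff hz.mem).2 fun u hu => ((lp_opt_spec hw).2 u hu).trans hcon
      rw [h1] at h
      simp at h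
    have hM : 0 < D.2.1.length := by
      rcases Nat.eq_zero_or_pos D.2.1.length with h | h
      · exfalso
        have h1 := pointed_of_vx hz.vx (valOf D w - valOf D z) (fun i hi => by omega)
        rw [sub_eq_zero] at h1
        rw [h1] at hlt
        exact lt_irrefl _ hlt
      · exact h
    have h2 : (0 : ℝ) < D.2.1.length := by exact_mod_cast hM
    have h3 : 0 < ((sysOf D).c (valOf D w) - (sysOf D).c (valOf D z)) / (D.2.1.length : ℝ) :=
      div_pos (by linarith) h2
    linarith

/-- The run when the program has no optimal point. -/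
theorem run_unb (hno : ∀ w, lpZ D [] (List.range D.2.1.length) ≠ .opt w) {x : Pnt}
    (hx : VertZ D x) (hp : PtOk (orc D) p x) {d k : ℕ}
    (hd : Module.finrank ℝ ((sysOf D).V (faceJ D x (dirY D x))) ≤ d)
    (hk : (frameOf D (faceJ D x (dirY D x))).I.length ≤ k) :
    ∃ N ≤ hb d k, RunF D (nextM D) (startZ D x) N := by
  rcases macro_step hx hp hd hk (fun z hz h => face_above hz h) with h | ⟨N, -, z, -, -, -, h, -⟩
  · exact h
  · exfalso
    obtain ⟨y, hy, hlt⟩ := face_unb hx.mem hx.vx hno ((sysOf D).c (valOf D z))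
    exact absurd (h y hy) (not_le.2 hlt)

/-- The run when the program has an optimal point. -/
theorem run_gap {w : Pnt} (hw : lpZ D [] (List.range D.2.1.length) = .opt w) {B : ℝ}
    (hB0 : 0 ≤ B)
    (hB : ∀ x : Pnt, PtOk (orc D) p x → VertZ D x →
      (sysOf D).c (valOf D x) < (sysOf D).c (valOf D w) →
      1 ≤ B * ((sysOf D).c (valOf D w) - (sysOf D).c (valOf D x))) {d k : ℕ}
    (hd : ∀ x : Pnt, PtOk (orc D) p x → VertZ D x → topZ D x = false →
      Module.finrank ℝ ((sysOf D).V (faceJ D x (dirY D x))) ≤ d ∧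
        (frameOf D (faceJ D x (dirY D x))).I.length ≤ k)
    (hM : 0 < D.2.1.length) :
    ∀ (j : ℕ) (x : Pnt), VertZ D x → PtOk (orc D) p x →
      B * ((sysOf D).c (valOf D w) - (sysOf D).c (valOf D x)) *
        ((D.2.1.length : ℝ) - 1) ^ j < (D.2.1.length : ℝ) ^ j →
      ∃ N ≤ j * hb d k, RunF D (nextM D) (startZ D x) N := by
  have hM1 : (1 : ℝ) ≤ D.2.1.length := by exact_mod_cast hM
  intro j
  induction j with
  | zero =>
    intro x hx hp hlt
    refine ⟨0, Nat.zero_le _, fin_opt hx ?_⟩
    have h1 : (sysOf D).c (valOf D w) ≤ (sysOf D).c (valOf D x) := by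
      by_contra hcon
      push Not at hcon
      have := hB x hp hx hcon
      simp only [pow_zero, mul_one] at hlt
      linarith
    exact fun z hz => ((lp_opt_spec hw).2 z hz).trans h1
  | succ j ih =>
    intro x hx hp hlt
    cases ht : topZ D x with
    | true => exact ⟨0, Nat.zero_le _, fin_opt hx ((topZ_iff hx.mem).1 ht)⟩
    | false =>
      rcases macro_step hx hp (hd x hp hx ht).1 (hd x hp hx ht).2 (fun z hz h => face_above hz h) with
        ⟨N, hN, h⟩ | ⟨N, hN, z, hz, hpz, -, h, hc⟩
      · exact ⟨N, hN.trans (by rw [add_mul, one_mul]; exact Nat.le_add_left _ _), h⟩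
      · obtain ⟨y, hy, hle⟩ := face_point hx.mem hx.vx hw
        have h1 := h y hy
        obtain ⟨N', hN', hF⟩ := ih z hz hpz (by
          have hg : ((sysOf D).c (valOf D w) - (sysOf D).c (valOf D z)) * (D.2.1.length : ℝ) ≤
              ((sysOf D).c (valOf D w) - (sysOf D).c (valOf D x)) *
                ((D.2.1.length : ℝ) - 1) := by
            have h2 : (sysOf D).c (valOf D x) + ((sysOf D).c (valOf D w) -
              (sysOf D).c (valOf D x)) / (D.2.1.length : ℝ) ≤ (sysOf D).c (valOf D z) :=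
              hle.trans h1
            have h3 : ((sysOf D).c (valOf D w) - (sysOf D).c (valOf D x)) / (D.2.1.length : ℝ) *
              (D.2.1.length : ℝ) = (sysOf D).c (valOf D w) - (sysOf D).c (valOf D x) :=
              div_mul_cancel₀ _ (by linarith)
            nlinarith
          have h4 : B * ((sysOf D).c (valOf D w) - (sysOf D).c (valOf D z)) *
              ((D.2.1.length : ℝ) - 1) ^ j * (D.2.1.length : ℝ) <
              (D.2.1.length : ℝ) ^ j * (D.2.1.length : ℝ) := by
            rw [← pow_succ]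
            refine lt_of_le_of_lt ?_ hlt
            have h5 : 0 ≤ B * ((D.2.1.length : ℝ) - 1) ^ j :=
              mul_nonneg hB0 (pow_nonneg (by linarith) _)
            have h6 := mul_le_mul_of_nonneg_left hg h5
            rw [pow_succ]
            linarith
          exact lt_of_mul_lt_mul_right h4 (by linarith))
        refine ⟨N + N', ?_, hc N' hF⟩
        rw [add_mul, one_mul]
        omega

theorem bern (M : ℕ) (hM : 1 ≤ M) : 2 * (M - 1) ^ M ≤ M ^ M := by
  obtain ⟨e, rfl⟩ : ∃ e, M = e + 1 := ⟨M - 1, by omega⟩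
  rw [Nat.add_sub_cancel]
  have h1 : (e + 1) ^ (e + 1) ≥ e ^ (e + 1) + (e + 1) * e ^ e := by
    have h2 : (e + 1) ^ (e + 1) = ∑ m ∈ Finset.range (e + 1 + 1), e ^ m * 1 ^ (e + 1 - m) *
        ((e + 1).choose m) := add_pow e 1 (e + 1)
    rw [h2, Finset.sum_range_succ, Finset.sum_range_succ]
    simp only [one_pow, mul_one, Nat.choose_self]
    have h3 : (e + 1).choose e = e + 1 := Nat.choose_succ_self_right e
    rw [h3]
    have h4 : e ^ e * (e + 1) = (e + 1) * e ^ e := by ring
    omega
  have h2 : e ^ (e + 1) ≤ (e + 1) * e ^ e := by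
    rw [pow_succ]
    nlinarith [Nat.zero_le (e ^ e)]
  omega

end

end Pool.Agent.Simplex.QP
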