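import Pool.Agent.Lib.MP_4d246d_lc.QM.Loose
import Pool.Agent.Lib.MP_4d246d_lc.QP.Final

/-!
# Programs of small circuit width have polynomially many pivots
-/

namespace Pool.Agent.Simplex.QLP

open Pool.Agent.Simplex.QP

variable {m n : ℕ} {D : QLP m n}

/-- The number of constraints is at most `m + n`. -/
theorem Width.min {d k : ℕ} (h : D.Width d k) : D.Width d (min k (m + n)) := by
  intro x y hx hy hp he
  obtain ⟨h1, h2⟩ := h x y hx hy hp he
  refine ⟨h1, le_min h2 ?_⟩
  have a1 : Set.ncard {i | ∃ q ∈ D.faceDirs x y, D.row i q ≠ 0} ≤ m := by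
    refine (Set.ncard_le_ncard (Set.subset_univ _) Set.finite_univ).trans ?_
    rw [Set.ncard_univ, Nat.card_eq_fintype_card, Fintype.card_fin]
  have a2 : Set.ncard {j | ∃ q ∈ D.faceDirs x y, q j ≠ 0} ≤ n := by
    refine (Set.ncard_le_ncard (Set.subset_univ _) Set.finite_univ).trans ?_
    rw [Set.ncard_univ, Nat.card_eq_fintype_card, Fintype.card_fin]
  omega

theorem size_mul_le (a b : ℕ) : Nat.size (a * b) ≤ Nat.size a + Nat.size b := by
  rw [Nat.size_le, pow_add]
  exact Nat.mul_lt_mul'' (Nat.lt_size_self a) (Nat.lt_size_self b)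

theorem branch_pos (rs : List ℕ) : 1 ≤ branch rs := by
  unfold branch
  refine List.one_le_prod_of_one_le ?_
  intro a ha
  obtain ⟨r, _, rfl⟩ := List.mem_map.1 ha
  omega

/-- Nested structure with few linking rows gives small circuit width. -/
theorem FewLinks.smallWidth {C L : ℕ} (h : D.FewLinks C L) : D.SmallWidth (9 * C) L := by
  obtain ⟨rs, s, ⟨h1, h2⟩ | ⟨h1, h2⟩⟩ := h
  · refine ⟨_, _, h1.width, Or.inl ?_⟩
    calc branch rs * (2 * s + 1) ≤ branch rs * (9 * (s + 1)) := Nat.mul_le_mul_left _ (by omega)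
      _ = 9 * (branch rs * (s + 1)) := by ring
      _ ≤ 9 * (C * Nat.size L) := Nat.mul_le_mul_left _ h2
      _ = 9 * C * Nat.size L := by ring
  · refine ⟨_, _, h1.width, Or.inr ?_⟩
    set u := branch rs * (s + 1) with hu
    have hu1 : 1 ≤ u := Nat.mul_pos (branch_pos rs) (by omega)
    have hsz : 1 ≤ Nat.size u := Nat.size_pos.2 hu1
    have h3 : Nat.size 3 = 2 := by decide
    have a1 : Nat.size (branch rs * (2 * s + 1)) ≤ 2 + Nat.size u := by
      have : branch rs * (2 * s + 1) ≤ 3 * u := by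
        rw [hu]
        calc branch rs * (2 * s + 1) ≤ branch rs * (3 * (s + 1)) :=
              Nat.mul_le_mul_left _ (by omega)
          _ = 3 * (branch rs * (s + 1)) := by ring
      refine (Nat.size_le_size this).trans ((size_mul_le 3 u).trans ?_)
      omega
    have a2 : Nat.size (branch rs * (3 * s + 0 + 2)) ≤ 2 + Nat.size u := by
      have : branch rs * (3 * s + 0 + 2) ≤ 3 * u := by
        rw [hu]
        calc branch rs * (3 * s + 0 + 2) ≤ branch rs * (3 * (s + 1)) :=
              Nat.mul_le_mul_left _ (by omega)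
          _ = 3 * (branch rs * (s + 1)) := by ring
      refine (Nat.size_le_size this).trans ((size_mul_le 3 u).trans ?_)
      omega
    calc Nat.size (branch rs * (2 * s + 1)) * Nat.size (branch rs * (3 * s + 0 + 2))
        ≤ (2 + Nat.size u) * (2 + Nat.size u) := Nat.mul_le_mul a1 a2
      _ ≤ 9 * Nat.size u ^ 2 := by nlinarith
      _ ≤ 9 * (C * Nat.size L) := Nat.mul_le_mul_left _ h2
      _ = 9 * C * Nat.size L := by ring

/-- Small width: the bound on the number of pivots is polynomial. -/
theorem SmallWidth.bound {C L : ℕ} (h : D.SmallWidth C L) (hL : m + n ≤ L) :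
    ∃ d k, D.Width d k ∧ pivotBound d k ≤ (2 * L + 1) ^ (3 * C + 3) := by
  obtain ⟨d, k, hw, h1⟩ := h
  refine ⟨d, Min.min k (m + n), hw.min, ?_⟩
  have hkL : Min.min k (m + n) ≤ L := (min_le_right _ _).trans hL
  have hσL : Nat.size (Min.min k (m + n)) ≤ Nat.size L := Nat.size_le_size hkL
  have hσk : Nat.size (Min.min k (m + n)) ≤ Nat.size k := Nat.size_le_size (min_le_left _ _)
  set σ := Nat.size (Min.min k (m + n)) with hσ
  have hpow := pow_size_le L
  -- first kind
  have key : ∀ C', d ≤ C' * Nat.size L → pivotBound d (Min.min k (m + n)) ≤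
      (2 * L + 1) ^ (C' + 2) := by
    intro C' hd
    unfold pivotBound
    rw [← hσ]
    calc 2 ^ σ * (d + σ).choose σ ≤ 2 ^ σ * 2 ^ (d + σ) :=
          Nat.mul_le_mul_left _ (Nat.choose_le_two_pow _ _)
      _ = 2 ^ (σ + (d + σ)) := (pow_add _ _ _).symm
      _ ≤ 2 ^ (Nat.size L * (C' + 2)) := Nat.pow_le_pow_right (by norm_num) (by
          rw [mul_add, mul_comm (Nat.size L) C']; omega)
      _ = (2 ^ Nat.size L) ^ (C' + 2) := pow_mul _ _ _
      _ ≤ (2 * L + 1) ^ (C' + 2) := Nat.pow_le_pow_left hpow _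
  rcases h1 with h1 | h1
  · exact (key C h1).trans (Nat.pow_le_pow_right (by omega) (by omega))
  · rcases Nat.lt_or_ge d σ with hdσ | hdσ
    · have : d ≤ 1 * Nat.size L := by omega
      exact (key 1 this).trans (Nat.pow_le_pow_right (by omega) (by omega))
    · unfold pivotBound
      rw [← hσ]
      rcases Nat.eq_zero_or_pos σ with h0 | h0
      · rw [h0]
        simp only [pow_zero, Nat.choose_zero_right, mul_one]
        exact Nat.one_le_pow _ _ (by omega)
      · have hd1 : 1 ≤ Nat.size d := Nat.size_pos.2 (by omega)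
        have h2 : (d + σ).choose σ ≤ (2 ^ (Nat.size d + 1)) ^ σ := by
          refine (Nat.choose_le_pow (d + σ) σ).trans ?_
          refine Nat.pow_le_pow_left ?_ σ
          have := Nat.lt_size_self d
          rw [pow_succ]
          omega
        calc 2 ^ σ * (d + σ).choose σ ≤ 2 ^ σ * (2 ^ (Nat.size d + 1)) ^ σ :=
              Nat.mul_le_mul_left _ h2
          _ = 2 ^ (σ + (Nat.size d + 1) * σ) := by rw [← pow_mul, ← pow_add]
          _ ≤ 2 ^ (Nat.size L * (3 * C + 3)) := Nat.pow_le_pow_right (by norm_num) (by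
              have h3 : Nat.size d * σ ≤ C * Nat.size L :=
                (Nat.mul_le_mul_left _ hσk).trans h1
              nlinarith)
          _ = (2 ^ Nat.size L) ^ (3 * C + 3) := pow_mul _ _ _
          _ ≤ (2 * L + 1) ^ (3 * C + 3) := Nat.pow_le_pow_left hpow _

end Pool.Agent.Simplex.QLP
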