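import Pool.Agent.Lib.MP_4d246d_lc.QP.Defs

/-!
# The circuit width of a linear program, and nested block structure
-/

namespace Pool.Agent.Simplex.QLP

variable {m n : ℕ} (D : QLP m n)

/-- The value of row `i` of the constraint matrix at `x`. -/
def row (i : Fin m) (x : Fin n → ℝ) : ℝ := ∑ j, (D.A i j : ℝ) * x j

/-- `y` is a feasible direction at `x`. -/
def Direction (x y : Fin n → ℝ) : Prop :=
  (∀ i, D.row i x = D.b i → D.row i y ≤ 0) ∧ ∀ j, x j = 0 → 0 ≤ y j

/-- `y` is an elementary vector (circuit): up to scaling it is determined by those of the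
equations `A_i q = 0` and `q_j = 0` that it satisfies. -/
def Elementary (y : Fin n → ℝ) : Prop :=
  ∀ q : Fin n → ℝ, (∀ i, D.row i y = 0 → D.row i q = 0) → (∀ j, y j = 0 → q j = 0) →
    ∃ t : ℝ, q = t • y

/-- The directions parallel to the smallest face that contains `x` and the points `x + ε y`,
`ε > 0` small: all tight constraints that stay tight in direction `y` stay tight. -/
def faceDirs (x y : Fin n → ℝ) : Submodule ℝ (Fin n → ℝ) where
  carrier := {q | (∀ i, D.row i x = D.b i → D.row i y = 0 → D.row i q = 0) ∧
    ∀ j, x j = 0 → y j = 0 → q j = 0}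
  add_mem' := by
    rintro p q ⟨h1, h2⟩ ⟨h3, h4⟩
    refine ⟨fun i hx hy => ?_, fun j hx hy => ?_⟩
    · have : D.row i (p + q) = D.row i p + D.row i q := by
        unfold row
        rw [← Finset.sum_add_distrib]
        exact Finset.sum_congr rfl fun j _ => by rw [Pi.add_apply]; ring
      rw [this, h1 i hx hy, h3 i hx hy, add_zero]
    · rw [Pi.add_apply, h2 j hx hy, h4 j hx hy, add_zero]
  zero_mem' := ⟨fun i _ _ => by unfold row; simp, fun j _ _ => rfl⟩
  smul_mem' := by
    rintro t q ⟨h1, h2⟩
    refine ⟨fun i hx hy => ?_, fun j hx hy => ?_⟩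
    · have : D.row i (t • q) = t * D.row i q := by
        unfold row
        rw [Finset.mul_sum]
        exact Finset.sum_congr rfl fun j _ => by rw [Pi.smul_apply, smul_eq_mul]; ring
      rw [this, h1 i hx hy, mul_zero]
    · rw [Pi.smul_apply, h2 j hx hy, smul_zero]

/-- The circuit width of the program is at most `(d, k)`: for every vertex `x` and every improving
feasible elementary direction `y` at `x`, the smallest face containing `x` and `x + ε y` for
small `ε > 0` has dimension at most `d`, and at most `k` of the `m + n` constraints are not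
constant on it. -/
def Width (d k : ℕ) : Prop :=
  ∀ x y : Fin n → ℝ, D.Vertex x → D.Direction x y → 0 < D.obj y → D.Elementary y →
    Module.finrank ℝ (D.faceDirs x y) ≤ d ∧
    Set.ncard {i | ∃ q ∈ D.faceDirs x y, D.row i q ≠ 0} +
      Set.ncard {j | ∃ q ∈ D.faceDirs x y, q j ≠ 0} ≤ k

/-- Nested block structure. There are levels `l = 0, 1, …, h`, `h = rs.length`. The variables are
partitioned into blocks on each level, `f l j` being the block of the variable `j` on level `l`;
blocks of level `l + 1` are contained in blocks of level `l`. Each row `i` belongs to a level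
`lv i` and involves only the variables of one block `g i` of this level. For `l < h` each block
of level `l` has at most `rs_l` rows of level `l`. Each block of level `h` has at most `s` rows
of level `h`, or it has at most `s` variables and at most `t` rows of level `h`.

For `h = 1` this says: after deleting at most `rs_0` rows the constraint matrix is, up to
permutations, block diagonal, each block having at most `s` rows, or at most `s` variables and
at most `t` rows. -/
def Nested (rs : List ℕ) (s t : ℕ) : Prop :=
  ∃ (f : ℕ → Fin n → ℕ) (lv g : Fin m → ℕ),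
    (∀ l j j', f (l + 1) j = f (l + 1) j' → f l j = f l j') ∧
    (∀ i, lv i ≤ rs.length) ∧
    (∀ i j, D.A i j ≠ 0 → f (lv i) j = g i) ∧
    (∀ l < rs.length, ∀ k,
      (Finset.univ.filter fun i => lv i = l ∧ g i = k).card ≤ rs.getD l 0) ∧
    ∀ k, (Finset.univ.filter fun i => lv i = rs.length ∧ g i = k).card ≤ s ∨
      ((Finset.univ.filter fun j => f rs.length j = k).card ≤ s ∧
        (Finset.univ.filter fun i => lv i = rs.length ∧ g i = k).card ≤ t)

/-- The product of the numbers `2 r + 1`. -/
def branch (rs : List ℕ) : ℕ := (rs.map fun r => 2 * r + 1).prod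

/-- The circuit width is small compared with the logarithm of `L`. -/
def SmallWidth (C L : ℕ) : Prop :=
  ∃ d k, D.Width d k ∧
    (d ≤ C * Nat.size L ∨ Nat.size d * Nat.size k ≤ C * Nat.size L)

/-- There is a nested block structure with few linking rows and small blocks:
`branch rs * (s + 1) ≤ C log L`, each block of the last level having at most `s` rows or at most
`s` variables; or `branch rs * (s + 1) ≤ 2 ^ √(C log L)`, each block of the last level having at
most `s` rows. -/
def FewLinks (C L : ℕ) : Prop :=
  ∃ rs s, D.Nested rs s m ∧ branch rs * (s + 1) ≤ C * Nat.size L ∨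
    D.Nested rs s 0 ∧ Nat.size (branch rs * (s + 1)) ^ 2 ≤ C * Nat.size L

end Pool.Agent.Simplex.QLP
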